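import Pool.Agent.Helper54.Xm.XiF
import Pool.Graph.R_seed8.H777R2.SM_T6D

set_option autoImplicit false
set_option maxHeartbeats 1000000

open Complex Filter Topology Metric

namespace Pool.Agent.Helper54.Xm

lemma norm_GammaR_le {s : ℂ} (hs : 0 < s.re) : ‖Gammaℝ s‖ ≤ Real.Gamma (s.re / 2) := by
  rw [Gammaℝ_def, norm_mul]
  have h1 : ‖(Real.pi : ℂ) ^ (-s / 2)‖ ≤ 1 := by
    rw [Complex.norm_cpow_eq_rpow_re_of_pos Real.pi_pos]
    apply Real.rpow_le_one_of_one_le_of_nonpos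
    · linarith [Real.pi_gt_three]
    · have : (-s / 2).re = -(s.re / 2) := by
        rw [show (-s / 2 : ℂ) = -s / ((2 : ℝ) : ℂ) by push_cast; rfl, Complex.div_ofReal_re, neg_re]
        ring
      rw [this]
      linarith
  have e : (s / 2).re = s.re / 2 := by
    rw [show (s / 2 : ℂ) = s / ((2 : ℝ) : ℂ) by push_cast; rfl, Complex.div_ofReal_re]
  have h2 := Pool.Agent.H777R2.SM.norm_Gamma_le (s / 2) (by rw [e]; linarith)
  rw [e] at h2
  have h3 : 0 ≤ Real.Gamma (s.re / 2) := (Real.Gamma_pos_of_pos (by linarith)).le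
  calc ‖(Real.pi : ℂ) ^ (-s / 2)‖ * ‖Complex.Gamma (s / 2)‖ ≤ 1 * Real.Gamma (s.re / 2) := by gcongr
    _ = _ := one_mul _

lemma Gamma_le_rpow {x : ℝ} (hx : 1 / 4 ≤ x) : Real.Gamma x ≤ 4 * (x + 2) ^ (x + 2) := by
  have hx0 : 0 < x := by linarith
  have h1 : Real.Gamma (x + 2) = (x + 1) * (x * Real.Gamma x) := by
    rw [show x + 2 = (x + 1) + 1 by ring, Real.Gamma_add_one (by linarith),
      Real.Gamma_add_one (by linarith)]
  have hG : 0 < Real.Gamma x := Real.Gamma_pos_of_pos hx0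
  have h2 : Real.Gamma x ≤ 4 * Real.Gamma (x + 2) := by
    rw [h1]
    nlinarith [mul_pos hx0 hG]
  set k := ⌈x⌉₊ with hk
  have hk1 : x ≤ k := Nat.le_ceil x
  have hk2 : (k : ℝ) < x + 1 := Nat.ceil_lt_add_one hx0.le
  have h3 : Real.Gamma (x + 2) ≤ Real.Gamma ((k + 1 : ℕ) + 1) := by
    refine Real.Gamma_strictMonoOn_Ici.monotoneOn ?_ ?_ ?_
    · simp only [Set.mem_Ici]; linarith
    · simp only [Set.mem_Ici]; push_cast; linarith
    · push_cast; linarith
  rw [Real.Gamma_nat_eq_factorial] at h3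
  have h4 : ((k + 1).factorial : ℝ) ≤ ((k : ℝ) + 1) ^ (k + 1) := by
    have := Nat.factorial_le_pow (k + 1)
    exact_mod_cast this
  have hk1' : 1 ≤ (k : ℝ) + 1 := by linarith [(Nat.cast_nonneg k : (0 : ℝ) ≤ k)]
  have h5 : ((k : ℝ) + 1) ^ (k + 1) ≤ (x + 2) ^ (x + 2) := by
    calc ((k : ℝ) + 1) ^ (k + 1) = ((k : ℝ) + 1) ^ (((k + 1 : ℕ) : ℝ)) := (Real.rpow_natCast _ _).symm
      _ ≤ (x + 2) ^ (((k + 1 : ℕ) : ℝ)) := Real.rpow_le_rpow (by linarith) (by linarith) (by positivity)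
      _ ≤ (x + 2) ^ (x + 2) := Real.rpow_le_rpow_of_exponent_le (by linarith) (by push_cast; linarith)
  linarith

lemma fx_growth_right {w : ℂ} (hw : 0 ≤ w.re) (h2 : 2 ≤ ‖w‖) :
    ‖fx w‖ ≤ Real.exp (120 * (1 + ‖w‖ ^ 2) ^ (3 / 5 : ℝ)) := by
  have hne : w ≠ 1 / 2 := by
    rintro rfl
    norm_num at h2
  rw [fx_eq (by linarith) hne, norm_mul, Gx, norm_mul]
  set a := ‖w‖ with ha
  set y : ℝ := a + 3 with hy
  have hre : (1 / 2 + w).re = 1 / 2 + w.re := by simp
  have hrew : w.re ≤ a := Complex.re_le_norm w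
  -- zeta
  have z1 : ‖riemannZeta (1 / 2 + w)‖ ≤ 6 * y ^ 2 := by
    have := Pool.Agent.H306R2.zeta_norm_le (s := 1 / 2 + w) (by rw [hre]; linarith) (by
      have : (1 / 2 + w - 1 : ℂ) = w - 1 / 2 := by ring
      rw [this]
      have h3 := norm_sub_norm_le w (1 / 2)
      have h4 : ‖(1 / 2 : ℂ)‖ = 1 / 2 := by norm_num
      rw [h4] at h3
      linarith)
    refine this.trans ?_
    have h3 : ‖(1 / 2 : ℂ) + w‖ ≤ 1 / 2 + a := by
      refine (norm_add_le _ _).trans ?_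
      norm_num
      linarith
    have h4 : ‖(1 / 2 : ℂ) + w‖ + 1 ≤ y := by linarith
    gcongr
  have z2 : ‖(4 * w ^ 2 - 1 : ℂ)‖ ≤ 4 * y ^ 2 := by
    refine (norm_sub_le _ _).trans ?_
    rw [norm_mul, norm_pow, ← ha, norm_one]
    norm_num
    nlinarith
  have z3 : ‖Gammaℝ (1 / 2 + w)‖ ≤ 4 * y ^ y := by
    refine (norm_GammaR_le (by rw [hre]; linarith)).trans ?_
    rw [hre]
    set x := (1 / 2 + w.re) / 2 with hx
    refine (Gamma_le_rpow (by linarith)).trans ?_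
    have hxy : x + 2 ≤ y := by linarith
    have h5 : (x + 2) ^ (x + 2) ≤ y ^ y := by
      calc (x + 2) ^ (x + 2) ≤ y ^ (x + 2) := Real.rpow_le_rpow (by linarith) hxy (by linarith)
        _ ≤ y ^ y := Real.rpow_le_rpow_of_exponent_le (by linarith) hxy
    linarith
  have hy5 : 5 ≤ y := by linarith
  have hy0 : 0 < y := by linarith
  have hlog : Real.log y ≤ 5 * y ^ (1 / 5 : ℝ) := by
    have := Real.log_le_rpow_div hy0.le (show (0 : ℝ) < 1 / 5 by norm_num)
    linarith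
  have hprod : ‖(4 * w ^ 2 - 1 : ℂ)‖ * ‖Gammaℝ (1 / 2 + w)‖ * ‖riemannZeta (1 / 2 + w)‖ ≤
      (4 * y ^ 2) * (4 * y ^ y) * (6 * y ^ 2) := by gcongr
  refine hprod.trans ?_
  have e1 : (4 * y ^ 2) * (4 * y ^ y) * (6 * y ^ 2) = 96 * (y ^ 4 * y ^ y) := by ring
  have e2 : y ^ y = Real.exp (y * Real.log y) := by
    rw [Real.rpow_def_of_pos hy0]; congr 1; ring
  have e3 : y ^ 4 = Real.exp (4 * Real.log y) := by
    rw [show (4 : ℝ) = ((4 : ℕ) : ℝ) by norm_num, Real.exp_nat_mul, Real.exp_log hy0]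
  have e4 : (96 : ℝ) ≤ Real.exp 5 := by
    have h1 : (2.7 : ℝ) ≤ Real.exp 1 := by linarith [Real.exp_one_gt_d9]
    have h2 : Real.exp 5 = Real.exp 1 ^ 5 := by rw [← Real.exp_nat_mul]; norm_num
    rw [h2]
    calc (96 : ℝ) ≤ 2.7 ^ 5 := by norm_num
      _ ≤ _ := by gcongr
  rw [e1, e2, e3]
  calc 96 * (Real.exp (4 * Real.log y) * Real.exp (y * Real.log y)) ≤
      Real.exp 5 * (Real.exp (4 * Real.log y) * Real.exp (y * Real.log y)) := by gcongr
    _ = Real.exp (5 + (4 * Real.log y + y * Real.log y)) := by rw [Real.exp_add, Real.exp_add]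
    _ ≤ _ := by
      apply Real.exp_le_exp.2
      have f1 : 1 ≤ y ^ (1 / 5 : ℝ) := Real.one_le_rpow (by linarith) (by norm_num)
      have f2 : y * y ^ (1 / 5 : ℝ) = (y ^ 2) ^ (3 / 5 : ℝ) := by
        rw [← Real.rpow_natCast, ← Real.rpow_mul hy0.le]
        nth_rewrite 1 [← Real.rpow_one y]
        rw [← Real.rpow_add hy0]
        norm_num
      have f3 : y ^ 2 ≤ 10 * (1 + a ^ 2) := by rw [hy]; nlinarith [sq_nonneg (3 * a - 1)]
      have f4 : (y ^ 2) ^ (3 / 5 : ℝ) ≤ 4 * (1 + a ^ 2) ^ (3 / 5 : ℝ) := by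
        calc (y ^ 2) ^ (3 / 5 : ℝ) ≤ (10 * (1 + a ^ 2)) ^ (3 / 5 : ℝ) :=
              Real.rpow_le_rpow (by positivity) f3 (by norm_num)
          _ = 10 ^ (3 / 5 : ℝ) * (1 + a ^ 2) ^ (3 / 5 : ℝ) :=
              Real.mul_rpow (by norm_num) (by positivity)
          _ ≤ 4 * (1 + a ^ 2) ^ (3 / 5 : ℝ) := by
              have : (10 : ℝ) ^ (3 / 5 : ℝ) ≤ 4 := by
                have h3 : ((10 : ℝ) ^ (3 / 5 : ℝ)) ^ (5 : ℕ) ≤ 4 ^ (5 : ℕ) := by
                  rw [← Real.rpow_natCast, ← Real.rpow_mul (by norm_num)]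
                  norm_num
                exact le_of_pow_le_pow_left₀ (by norm_num) (by norm_num) h3
              gcongr
      have f5 : 5 ≤ y * y ^ (1 / 5 : ℝ) := by nlinarith
      have f6 : 4 * Real.log y ≤ 20 * (y * y ^ (1 / 5 : ℝ)) := by
        have : 4 * Real.log y ≤ 20 * (1 * y ^ (1 / 5 : ℝ)) := by linarith
        refine this.trans ?_
        gcongr
        linarith
      have f7 : y * Real.log y ≤ 5 * (y * y ^ (1 / 5 : ℝ)) := by
        calc y * Real.log y ≤ y * (5 * y ^ (1 / 5 : ℝ)) := by gcongr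
          _ = _ := by ring
      rw [f2] at f5 f6 f7
      have : 5 + (4 * Real.log y + y * Real.log y) ≤ 30 * (y ^ 2) ^ (3 / 5 : ℝ) := by
        have f8 : 5 ≤ 5 * (y ^ 2) ^ (3 / 5 : ℝ) := by
          have : 0 ≤ (y ^ 2) ^ (3 / 5 : ℝ) := by positivity
          linarith
        linarith
      linarith

lemma FF_growth : ∃ C : ℝ, 0 ≤ C ∧ ∀ z, ‖FF z‖ ≤ Real.exp (C * (1 + ‖z‖) ^ (3 / 5 : ℝ)) := by
  obtain ⟨B, hB⟩ := (isCompact_closedBall (0 : ℂ) 2).exists_bound_of_continuousOn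
    fx_diff.continuous.continuousOn
  refine ⟨max 120 |B|, le_max_of_le_left (by norm_num), ?_⟩
  intro z
  obtain ⟨w, hw, hre⟩ : ∃ w : ℂ, w ^ 2 = z ∧ 0 ≤ w.re := by
    set v := z ^ (1 / 2 : ℂ) with hv
    rcases le_total 0 v.re with h | h
    · exact ⟨v, cpow_half_sq z, h⟩
    · exact ⟨-v, by rw [neg_sq]; exact cpow_half_sq z, by simpa using h⟩
  have hz : ‖z‖ = ‖w‖ ^ 2 := by rw [← hw, norm_pow]
  rw [FF_eq hw, hz]
  have h1 : 1 ≤ (1 + ‖w‖ ^ 2) ^ (3 / 5 : ℝ) :=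
    Real.one_le_rpow (by nlinarith [sq_nonneg ‖w‖]) (by norm_num)
  rcases le_total 2 ‖w‖ with h2 | h2
  · refine (fx_growth_right hre h2).trans (Real.exp_le_exp.2 ?_)
    gcongr
    exact le_max_left _ _
  · have h3 := hB w (by rw [mem_closedBall_zero_iff]; exact h2)
    have h4 : |B| ≤ max 120 |B| * (1 + ‖w‖ ^ 2) ^ (3 / 5 : ℝ) := by
      calc |B| = |B| * 1 := (mul_one _).symm
        _ ≤ _ := mul_le_mul (le_max_right _ _) h1 zero_le_one
          (le_max_of_le_left (by norm_num))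
    calc ‖fx w‖ ≤ |B| := h3.trans (le_abs_self B)
      _ ≤ Real.exp |B| := by linarith [Real.add_one_le_exp |B|]
      _ ≤ _ := Real.exp_le_exp.2 h4

/-- lower bound at even integers -/
lemma fx_lower (k : ℕ) (hk : 2 ≤ k) :
    3 / 4 * (((k - 1).factorial : ℝ) / Real.pi ^ k) ≤ ‖fx (((2 * k - 1 / 2 : ℝ)) : ℂ)‖ := by
  have hk' : (2 : ℝ) ≤ k := by exact_mod_cast hk
  set w : ℂ := (((2 * k - 1 / 2 : ℝ)) : ℂ) with hw
  have hwre : w.re = 2 * k - 1 / 2 := by rw [hw]; simp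
  have hs : (1 / 2 + w) = ((2 * k : ℝ) : ℂ) := by rw [hw]; push_cast; ring
  rw [fx_eq (by rw [hwre]; linarith) (by
    intro h
    have := congrArg Complex.re h
    rw [hwre] at this
    norm_num at this
    linarith), Gx, norm_mul, norm_mul, hs]
  have h1 : 1 ≤ ‖(4 * w ^ 2 - 1 : ℂ)‖ := by
    have : (4 * w ^ 2 - 1 : ℂ) = ((4 * (2 * k - 1 / 2) ^ 2 - 1 : ℝ) : ℂ) := by
      rw [hw]; push_cast; ring
    rw [this, Complex.norm_real, Real.norm_of_nonneg (by nlinarith)]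
    nlinarith
  have h2 : ‖Gammaℝ ((2 * k : ℝ) : ℂ)‖ = ((k - 1).factorial : ℝ) / Real.pi ^ k := by
    rw [Gammaℝ_def, norm_mul]
    have e1 : (-((2 * k : ℝ) : ℂ) / 2) = ((-(k : ℝ) : ℝ) : ℂ) := by push_cast; ring
    have e2 : (((2 * k : ℝ) : ℂ) / 2) = (((k - 1 : ℕ) : ℂ) + 1) := by
      push_cast [Nat.cast_sub (show 1 ≤ k by omega)]; ring
    rw [e1, e2, Complex.Gamma_nat_eq_factorial, Complex.norm_cpow_eq_rpow_re_of_pos Real.pi_pos,
      Complex.ofReal_re, Complex.norm_natCast, Real.rpow_neg Real.pi_pos.le, Real.rpow_natCast]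
    ring
  have h3 : 3 / 4 ≤ ‖riemannZeta ((2 * k : ℝ) : ℂ)‖ := by
    have h4 := zeta_sub_one (s := ((2 * k : ℝ) : ℂ)) (by rw [Complex.ofReal_re]; linarith)
    rw [Complex.ofReal_re] at h4
    have h5 : (2 : ℝ) ^ (2 - 2 * (k : ℝ)) ≤ 2 ^ (-2 : ℝ) :=
      Real.rpow_le_rpow_of_exponent_le (by norm_num) (by linarith)
    have h6 : (2 : ℝ) ^ (-2 : ℝ) = 1 / 4 := by
      rw [Real.rpow_neg (by norm_num)]; norm_num
    have h7 : ‖(1 : ℂ)‖ ≤ ‖riemannZeta ((2 * k : ℝ) : ℂ)‖ + ‖riemannZeta ((2 * k : ℝ) : ℂ) - 1‖ := by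
      calc ‖(1 : ℂ)‖ = ‖riemannZeta ((2 * k : ℝ) : ℂ) - (riemannZeta ((2 * k : ℝ) : ℂ) - 1)‖ := by
            congr 1; ring
        _ ≤ _ := norm_sub_le _ _
    rw [norm_one] at h7
    have h8 := h4.trans (h5.trans (le_of_eq h6))
    linarith
  rw [h2]
  have h8 : 0 ≤ ((k - 1).factorial : ℝ) / Real.pi ^ k := by positivity
  calc 3 / 4 * (((k - 1).factorial : ℝ) / Real.pi ^ k) =
      1 * (((k - 1).factorial : ℝ) / Real.pi ^ k) * (3 / 4) := by ring
    _ ≤ _ := by gcongr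

lemma FF_np (n : ℕ) : ∃ z, iteratedDeriv n FF z ≠ 0 := by
  by_contra hcon
  push Not at hcon
  -- polynomial bound
  have hder : ∀ k, iteratedDeriv (n + k) FF 0 = 0 := by
    intro k
    have h0 : iteratedDeriv n FF = fun _ => 0 := funext hcon
    rw [iteratedDeriv_eq_iterate, add_comm, Function.iterate_add_apply, ← iteratedDeriv_eq_iterate,
      ← iteratedDeriv_eq_iterate, h0]
    simp
  set c : ℕ → ℝ := fun k => ‖((k.factorial : ℂ)⁻¹ * iteratedDeriv k FF 0)‖ with hc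
  set B : ℝ := ∑ k ∈ Finset.range n, c k with hB
  have hB0 : 0 ≤ B := Finset.sum_nonneg fun k _ => norm_nonneg _
  have hbound : ∀ z : ℂ, 1 ≤ ‖z‖ → ‖FF z‖ ≤ B * ‖z‖ ^ n := by
    intro z hz
    have h1 := Complex.taylorSeries_eq_of_entire' (c := 0) (z := z) FF_diff
    have h2 : ∑' k : ℕ, (k.factorial : ℂ)⁻¹ * iteratedDeriv k FF 0 * (z - 0) ^ k =
        ∑ k ∈ Finset.range n, (k.factorial : ℂ)⁻¹ * iteratedDeriv k FF 0 * (z - 0) ^ k := by
      refine tsum_eq_sum fun k hk => ?_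
      rw [Finset.mem_range, not_lt] at hk
      obtain ⟨j, rfl⟩ := Nat.exists_eq_add_of_le hk
      rw [hder j]; simp
    rw [← h1, h2, hB, Finset.sum_mul]
    refine (norm_sum_le _ _).trans (Finset.sum_le_sum fun k hk => ?_)
    rw [norm_mul, sub_zero, norm_pow]
    rw [Finset.mem_range] at hk
    exact mul_le_mul_of_nonneg_left (pow_le_pow_right₀ hz hk.le) (norm_nonneg _)
  -- contradiction
  have hkey : ∀ j : ℕ, 1 ≤ j → (j.factorial : ℝ) ≤
      (4 / 3 * B * 4 ^ n * Real.pi * (2 * n).factorial * Real.exp 1) * (Real.pi * Real.exp 1) ^ j := by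
    intro j hj
    have h1 := fx_lower (j + 1) (by omega)
    set x : ℝ := 2 * ((j + 1 : ℕ) : ℝ) - 1 / 2 with hx
    have hj1 : (1 : ℝ) ≤ j := by exact_mod_cast hj
    have hx1 : 1 ≤ x := by rw [hx]; push_cast; linarith
    have h2 : ‖fx (x : ℂ)‖ ≤ B * (4 * ((j : ℝ) + 1) ^ 2) ^ n := by
      rw [← FF_sq]
      have hn2 : ‖((x : ℂ)) ^ 2‖ = x ^ 2 := by
        rw [norm_pow, Complex.norm_real, Real.norm_of_nonneg (by linarith)]
      refine (hbound _ (by rw [hn2]; nlinarith)).trans ?_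
      rw [hn2]
      refine mul_le_mul_of_nonneg_left ?_ hB0
      refine pow_le_pow_left₀ (by positivity) ?_ n
      rw [hx]; push_cast; nlinarith
    have h3 := h1.trans h2
    have h4 : ((j : ℝ) + 1) ^ (2 * n) ≤ (2 * n).factorial * Real.exp ((j : ℝ) + 1) := by
      have := Real.pow_div_factorial_le_exp ((j : ℝ) + 1) (by linarith) (2 * n)
      rw [div_le_iff₀ (by positivity)] at this
      linarith
    have h5 : (4 * ((j : ℝ) + 1) ^ 2) ^ n ≤ 4 ^ n * ((2 * n).factorial * Real.exp ((j : ℝ) + 1)) := by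
      rw [mul_pow, ← pow_mul]
      gcongr
    rw [show j + 1 - 1 = j by omega] at h3
    have hpi := Real.pi_pos
    have h6 : (j.factorial : ℝ) = 4 / 3 * Real.pi ^ (j + 1) *
        (3 / 4 * ((j.factorial : ℝ) / Real.pi ^ (j + 1))) := by
      field_simp
    rw [h6]
    calc 4 / 3 * Real.pi ^ (j + 1) * (3 / 4 * ((j.factorial : ℝ) / Real.pi ^ (j + 1))) ≤
        4 / 3 * Real.pi ^ (j + 1) * (B * (4 ^ n * ((2 * n).factorial * Real.exp ((j : ℝ) + 1)))) := by
          refine mul_le_mul_of_nonneg_left (h3.trans ?_) (by positivity)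
          exact mul_le_mul_of_nonneg_left h5 hB0
      _ = _ := by
          have e : Real.exp ((j : ℝ) + 1) = Real.exp 1 ^ j * Real.exp 1 := by
            rw [Real.exp_add, ← Real.exp_nat_mul, mul_one]
          rw [e, mul_pow]
          ring
  have hlim := FloorSemiring.tendsto_pow_div_factorial_atTop (Real.pi * Real.exp 1)
  set D := 4 / 3 * B * 4 ^ n * Real.pi * (2 * n).factorial * Real.exp 1 with hD
  have hD0 : 0 ≤ D := by have := Real.pi_pos; positivity
  have hev := (hlim.const_mul D).eventually (gt_mem_nhds (show D * 0 < 1 by simp))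
  obtain ⟨j, hj1, hj2⟩ := (hev.and (eventually_ge_atTop 1)).exists
  have h7 := hkey j hj2
  have hf : (0 : ℝ) < j.factorial := by exact_mod_cast j.factorial_pos
  have h8 : D * (Real.pi * Real.exp 1) ^ j < j.factorial := by
    have : D * ((Real.pi * Real.exp 1) ^ j / j.factorial) * j.factorial < 1 * j.factorial := by gcongr
    calc D * (Real.pi * Real.exp 1) ^ j =
        D * ((Real.pi * Real.exp 1) ^ j / j.factorial) * j.factorial := by field_simp
      _ < 1 * j.factorial := this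
      _ = _ := one_mul _
  linarith

/-- Taylor coefficients -/
lemma FF_taylor (k : ℕ) : iteratedDeriv k FF 0 =
    (k.factorial : ℂ) * (iteratedDeriv (2 * k) fx 0 / ((2 * k).factorial : ℂ)) := by
  classical
  set b : ℕ → ℂ := fun j => if Even j then iteratedDeriv (j / 2) FF 0 / ((j / 2).factorial : ℂ) else 0
    with hb
  have h1 : HasFPowerSeriesAt fx
      (FormalMultilinearSeries.ofScalars ℂ (fun n ↦ iteratedDeriv n fx 0 / n.factorial)) 0 :=
    AnalyticAt.hasFPowerSeriesAt (fx_diff.analyticAt 0)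
  have h2 : HasFPowerSeriesAt fx (FormalMultilinearSeries.ofScalars ℂ b) 0 := by
    rw [hasFPowerSeriesAt_iff]
    refine Eventually.of_forall fun z => ?_
    rw [zero_add, ← FF_sq]
    have h3 := Complex.hasSum_taylorSeries_of_entire FF_diff 0 (z ^ 2)
    simp only [smul_eq_mul, sub_zero] at h3
    have hinj : Function.Injective (fun n : ℕ => 2 * n) := fun a b h => by
      simpa using h
    rw [← hinj.hasSum_iff (f := fun n => z ^ n • (FormalMultilinearSeries.ofScalars ℂ b).coeff n)]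
    · have e : ((fun n => z ^ n • (FormalMultilinearSeries.ofScalars ℂ b).coeff n) ∘ fun n => 2 * n) =
          fun n : ℕ => (n.factorial : ℂ)⁻¹ * ((z ^ 2) ^ n * iteratedDeriv n FF 0) := by
        funext n
        simp only [Function.comp_apply, FormalMultilinearSeries.coeff_ofScalars, hb, smul_eq_mul]
        rw [if_pos (even_two_mul n), show 2 * n / 2 = n by omega, ← pow_mul]
        ring
      rw [e]
      exact h3
    · intro x hx
      have hodd : ¬ Even x := by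
        intro he
        obtain ⟨r, hr⟩ := he
        exact hx ⟨r, by simp only; omega⟩
      rw [FormalMultilinearSeries.coeff_ofScalars, hb]
      simp [hodd]
  have h4 := h1.eq_formalMultilinearSeries h2
  have h5 := FormalMultilinearSeries.ofScalars_series_injective ℂ ℂ h4
  have h6 := congrFun h5 (2 * k)
  simp only [hb] at h6
  rw [if_pos (even_two_mul k), show 2 * k / 2 = k by omega] at h6
  have hk : (k.factorial : ℂ) ≠ 0 := by exact_mod_cast k.factorial_ne_zero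
  rw [h6]
  field_simp

end Pool.Agent.Helper54.Xm
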