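import Pool.Graph.R_seed8.H370R2.MV

set_option autoImplicit false
set_option maxHeartbeats 1000000

/-!
High moments of a sum over primes.
-/

open Complex MeasureTheory Finset

namespace Pool.Agent.Helper54.Xm.Mom

/-- tuples of primes -/
noncomputable def Tp (P : Finset ℕ) (k : ℕ) : Finset (Fin k → ℕ) := Fintype.piFinset (fun _ => P)

lemma fiber_card {P : Finset ℕ} (hP : ∀ p ∈ P, p.Prime) (k n : ℕ) :
    ((Tp P k).filter (fun x => ∏ i, x i = n)).card ≤ k.factorial := by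
  classical
  rcases ((Tp P k).filter (fun x => ∏ i, x i = n)).eq_empty_or_nonempty with h | ⟨x0, hx0⟩
  · rw [h]; simp
  have key : ∀ x ∈ (Tp P k).filter (fun x => ∏ i, x i = n), (List.ofFn x).Perm n.primeFactorsList := by
    intro x hx
    rw [mem_filter, Tp, Fintype.mem_piFinset] at hx
    apply Nat.primeFactorsList_unique
    · rw [List.prod_ofFn]; exact hx.2
    · intro p hp
      rw [List.mem_ofFn] at hp
      obtain ⟨i, rfl⟩ := hp
      exact hP _ (hx.1 i)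
  have hlen : n.primeFactorsList.length = k := by
    rw [← (key x0 hx0).length_eq, List.length_ofFn]
  have hinj : Set.InjOn (fun x : Fin k → ℕ => List.ofFn x)
      ((Tp P k).filter (fun x => ∏ i, x i = n) : Finset (Fin k → ℕ)) := by
    intro x _ y _ h
    exact List.ofFn_injective h
  rw [← Finset.card_image_of_injOn hinj]
  have hsub : ((Tp P k).filter (fun x => ∏ i, x i = n)).image (fun x : Fin k → ℕ => List.ofFn x) ⊆
      n.primeFactorsList.permutations.toFinset := by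
    intro l hl
    rw [mem_image] at hl
    obtain ⟨x, hx, rfl⟩ := hl
    rw [List.mem_toFinset, List.mem_permutations]
    exact key x hx
  refine (Finset.card_le_card hsub).trans ?_
  refine (List.toFinset_card_le _).trans ?_
  rw [List.length_permutations, hlen]

/-- **High moments of a sum over primes.** -/
theorem moment (P : Finset ℕ) (N k : ℕ) (hP : ∀ p ∈ P, p.Prime ∧ p ≤ N) (hN : 1 ≤ N) (b : ℕ → ℂ)
    {T1 T2 : ℝ} (h : T1 ≤ T2) :
    ∫ t in T1..T2, ‖∑ p ∈ P, b p * (p : ℂ) ^ (-(t : ℂ) * I)‖ ^ (2 * k) ≤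
      (T2 - T1 + 8 * (N : ℝ) ^ (2 * k)) * k.factorial * (∑ p ∈ P, ‖b p‖ ^ 2) ^ k := by
  classical
  set X : ℕ := N ^ k with hX
  have hX1 : 1 ≤ X := Nat.one_le_pow _ _ hN
  set c : ℕ → ℂ := fun n => ∑ x ∈ (Tp P k).filter (fun x => ∏ i, x i = n), ∏ i, b (x i) with hc
  have hmaps : ∀ x ∈ Tp P k, ∏ i, x i ∈ Finset.Icc 1 X := by
    intro x hx
    rw [Tp, Fintype.mem_piFinset] at hx
    rw [Finset.mem_Icc]
    constructor
    · exact Nat.one_le_iff_ne_zero.2 (Finset.prod_ne_zero_iff.2 fun i _ => ((hP _ (hx i)).1).ne_zero)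
    · calc ∏ i, x i ≤ ∏ _i : Fin k, N := Finset.prod_le_prod' fun i _ => (hP _ (hx i)).2
        _ = X := by simp [hX]
  have hpow : ∀ t : ℝ, (∑ p ∈ P, b p * (p : ℂ) ^ (-(t : ℂ) * I)) ^ k =
      ∑ n ∈ Finset.Icc 1 X, c n * (n : ℂ) ^ (-(t : ℂ) * I) := by
    intro t
    have e1 : (∑ p ∈ P, b p * (p : ℂ) ^ (-(t : ℂ) * I)) ^ k =
        ∑ x ∈ Tp P k, ∏ i, (b (x i) * ((x i : ℕ) : ℂ) ^ (-(t : ℂ) * I)) := by
      rw [Tp, ← Finset.prod_univ_sum (fun _ : Fin k => P) (fun _ p => b p * (p : ℂ) ^ (-(t : ℂ) * I))]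
      simp
    rw [e1, ← Finset.sum_fiberwise_of_maps_to (g := fun x : Fin k → ℕ => ∏ i, x i) hmaps]
    refine Finset.sum_congr rfl fun n _ => ?_
    simp only [hc]
    rw [Finset.sum_mul]
    refine Finset.sum_congr rfl fun x hx => ?_
    rw [mem_filter] at hx
    rw [Finset.prod_mul_distrib]
    congr 1
    rw [← hx.2]
    push_cast
    have : ∀ s : Finset (Fin k), (∏ i ∈ s, ((x i : ℕ) : ℂ)) ^ (-(t : ℂ) * I) =
        ∏ i ∈ s, ((x i : ℕ) : ℂ) ^ (-(t : ℂ) * I) := by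
      intro s
      induction s using Finset.induction_on with
      | empty => simp
      | insert a s ha ih =>
        rw [Finset.prod_insert ha, Finset.prod_insert ha, ← ih]
        have h2 : (∏ i ∈ s, ((x i : ℕ) : ℂ)) = ((∏ i ∈ s, x i : ℕ) : ℂ) := by push_cast; rfl
        rw [h2, Complex.natCast_mul_natCast_cpow]
    exact (this Finset.univ).symm
  have hcb : ∀ n, ‖c n‖ ^ 2 ≤ (k.factorial : ℝ) *
      ∑ x ∈ (Tp P k).filter (fun x => ∏ i, x i = n), ∏ i, ‖b (x i)‖ ^ 2 := by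
    intro n
    simp only [hc]
    have h1 : ‖∑ x ∈ (Tp P k).filter (fun x => ∏ i, x i = n), ∏ i, b (x i)‖ ^ 2 ≤
        (∑ x ∈ (Tp P k).filter (fun x => ∏ i, x i = n), ‖∏ i, b (x i)‖) ^ 2 :=
      pow_le_pow_left₀ (norm_nonneg _) (norm_sum_le _ _) 2
    have h2 := sq_sum_le_card_mul_sum_sq (s := (Tp P k).filter (fun x => ∏ i, x i = n))
      (f := fun x => ‖∏ i, b (x i)‖)
    have h3 : (((Tp P k).filter (fun x => ∏ i, x i = n)).card : ℝ) ≤ k.factorial := by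
      exact_mod_cast fiber_card (fun p hp => (hP p hp).1) k n
    have h4 : ∑ x ∈ (Tp P k).filter (fun x => ∏ i, x i = n), ‖∏ i, b (x i)‖ ^ 2 =
        ∑ x ∈ (Tp P k).filter (fun x => ∏ i, x i = n), ∏ i, ‖b (x i)‖ ^ 2 := by
      refine Finset.sum_congr rfl fun x _ => ?_
      rw [norm_prod, Finset.prod_pow]
    rw [h4] at h2
    refine h1.trans (h2.trans ?_)
    exact mul_le_mul_of_nonneg_right h3 (Finset.sum_nonneg fun x _ => Finset.prod_nonneg fun i _ =>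
      by positivity)
  have hsum : ∑ n ∈ Finset.Icc 1 X, ‖c n‖ ^ 2 ≤ (k.factorial : ℝ) * (∑ p ∈ P, ‖b p‖ ^ 2) ^ k := by
    calc ∑ n ∈ Finset.Icc 1 X, ‖c n‖ ^ 2 ≤ ∑ n ∈ Finset.Icc 1 X, (k.factorial : ℝ) *
          ∑ x ∈ (Tp P k).filter (fun x => ∏ i, x i = n), ∏ i, ‖b (x i)‖ ^ 2 :=
          Finset.sum_le_sum fun n _ => hcb n
      _ = (k.factorial : ℝ) * ∑ x ∈ Tp P k, ∏ i, ‖b (x i)‖ ^ 2 := by
          rw [← Finset.mul_sum, Finset.sum_fiberwise_of_maps_to hmaps]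
      _ = _ := by
          congr 1
          rw [Tp, ← Finset.prod_univ_sum (fun _ : Fin k => P) (fun _ p => ‖b p‖ ^ 2)]
          simp
  have hmv := H370.mean_value c X T1 T2 h
  have e2 : ∀ t : ℝ, ‖∑ p ∈ P, b p * (p : ℂ) ^ (-(t : ℂ) * I)‖ ^ (2 * k) =
      ‖∑ n ∈ Finset.Icc 1 X, c n * (n : ℂ) ^ (-(t : ℂ) * I)‖ ^ 2 := by
    intro t
    rw [← hpow t, norm_pow, ← pow_mul, mul_comm k 2]
  simp_rw [e2]
  refine hmv.trans ?_
  have hX0 : (0 : ℝ) < X := by exact_mod_cast hX1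
  have hXl : 1 + Real.log X ≤ X := by
    have := Real.log_le_sub_one_of_pos hX0
    linarith
  have h5 : 8 * (X : ℝ) * (1 + Real.log X) ≤ 8 * (N : ℝ) ^ (2 * k) := by
    have h6 : (N : ℝ) ^ (2 * k) = X * X := by
      rw [hX]; push_cast; rw [mul_comm 2 k, pow_mul, sq]
    rw [h6]
    nlinarith
  have h7 : 0 ≤ ∑ n ∈ Finset.Icc 1 X, ‖c n‖ ^ 2 := Finset.sum_nonneg fun _ _ => by positivity
  have h8 : 0 ≤ T2 - T1 + 8 * (N : ℝ) ^ (2 * k) := by
    have : 0 ≤ 8 * (N : ℝ) ^ (2 * k) := by positivity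
    linarith
  calc (T2 - T1 + 8 * (X : ℝ) * (1 + Real.log X)) * ∑ n ∈ Finset.Icc 1 X, ‖c n‖ ^ 2
      ≤ (T2 - T1 + 8 * (N : ℝ) ^ (2 * k)) * ∑ n ∈ Finset.Icc 1 X, ‖c n‖ ^ 2 :=
        mul_le_mul_of_nonneg_right (by linarith) h7
    _ ≤ (T2 - T1 + 8 * (N : ℝ) ^ (2 * k)) * ((k.factorial : ℝ) * (∑ p ∈ P, ‖b p‖ ^ 2) ^ k) :=
        mul_le_mul_of_nonneg_left hsum h8
    _ = _ := by ring

end Pool.Agent.Helper54.Xm.Mom
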