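import Pool.Agent.Helper54.Xm.XiG
import Pool.Graph.R_seed8.H382R2.Digamma
import Pool.Graph.R_seed8.H306R2.ZetaGrowth

set_option autoImplicit false
set_option maxHeartbeats 1000000

open Complex Filter Topology Metric

namespace Pool.Agent.Helper54.Xm

lemma alg_aux {w q p g g' l : ℂ} (hq : q ≠ 0) (hp : p ≠ 0) (hg : g ≠ 0) :
    (8 * w * (p * g) + q * (p * l * (-1 / 2) * g + p * (g' * (1 / 2)))) / (q * (p * g)) =
      8 * w / q - l / 2 + 1 / 2 * (g' / g) := by
  field_simp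
  ring

/-- logarithmic derivative of `Gx` high up -/
lemma logDeriv_Gx : ∃ C1 : ℝ, 1 ≤ C1 ∧ ∀ w : ℂ, 4 ≤ w.im → |w.re| ≤ w.im / 2 →
    Gx w ≠ 0 ∧ DifferentiableAt ℂ Gx w ∧
    ‖logDeriv Gx w - ((1 / 2 * Real.log w.im : ℝ) : ℂ)‖ ≤ C1 := by
  obtain ⟨C, hC1, hC⟩ := SG.digamma_bound
  refine ⟨C + 4, by linarith, ?_⟩
  intro w hw hre
  set s : ℂ := (1 / 2 + w) / 2 with hs
  have him : s.im = w.im / 2 := by
    rw [hs]
    have : ((1 / 2 + w) / 2 : ℂ) = ((1 / 2 : ℝ) : ℂ) * (((1 / 2 : ℝ) : ℂ) + w) := by push_cast; ring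
    rw [this, Complex.im_ofReal_mul, add_im, ofReal_im]
    ring
  have hsre : s.re = 1 / 4 + w.re / 2 := by
    rw [hs]
    have : ((1 / 2 + w) / 2 : ℂ) = ((1 / 2 : ℝ) : ℂ) * (((1 / 2 : ℝ) : ℂ) + w) := by push_cast; ring
    rw [this, Complex.re_ofReal_mul, add_re, ofReal_re]
    ring
  have himpos : 0 < s.im := by rw [him]; linarith
  have hsne : ∀ n : ℕ, s ≠ -n := by
    intro n hn
    rw [hn] at himpos
    simp at himpos
  have hΓ : Complex.Gamma s ≠ 0 := Complex.Gamma_ne_zero hsne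
  have hwn : 4 ≤ ‖w‖ := hw.trans ((le_abs_self _).trans (abs_im_le_norm w))
  have hpoly : (4 * w ^ 2 - 1 : ℂ) ≠ 0 := by
    intro h
    have h1 : 4 * w ^ 2 = 1 := by linear_combination h
    have h2 := congrArg (fun x => ‖x‖) h1
    simp only [norm_mul, norm_pow, norm_one] at h2
    norm_num at h2
    nlinarith
  have hd1 : HasDerivAt (fun w : ℂ => 4 * w ^ 2 - 1) (8 * w) w := by
    have := ((hasDerivAt_pow 2 w).const_mul (4 : ℂ)).sub_const 1
    refine this.congr_deriv ?_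
    push_cast
    ring
  have hpi0 : (Real.pi : ℂ) ≠ 0 := by exact_mod_cast Real.pi_pos.ne'
  have hd2 : HasDerivAt (fun w : ℂ => (Real.pi : ℂ) ^ (-(1 / 2 + w) / 2))
      ((Real.pi : ℂ) ^ (-(1 / 2 + w) / 2) * Complex.log Real.pi * (-1 / 2)) w := by
    have h1 : HasDerivAt (fun w : ℂ => -(1 / 2 + w) / 2) (-1 / 2) w := by
      have := (((hasDerivAt_id w).const_add (1 / 2 : ℂ)).neg).div_const 2
      exact this
    exact h1.const_cpow (Or.inl hpi0)
  have hd3 : HasDerivAt (fun w : ℂ => Complex.Gamma ((1 / 2 + w) / 2))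
      (deriv Complex.Gamma s * (1 / 2)) w := by
    have h1 : HasDerivAt (fun w : ℂ => (1 / 2 + w) / 2) (1 / 2) w := by
      exact ((hasDerivAt_id w).const_add (1 / 2 : ℂ)).div_const 2
    exact (Complex.differentiableAt_Gamma s hsne).hasDerivAt.comp w h1
  have hGx : Gx = fun w => (4 * w ^ 2 - 1) * ((Real.pi : ℂ) ^ (-(1 / 2 + w) / 2) *
      Complex.Gamma ((1 / 2 + w) / 2)) := by
    funext w
    rw [Gx, Gammaℝ_def]
  have hpp : (Real.pi : ℂ) ^ (-(1 / 2 + w) / 2) ≠ 0 := by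
    rw [Complex.cpow_def_of_ne_zero hpi0]
    exact Complex.exp_ne_zero _
  have hd := hd1.mul (hd2.mul hd3)
  have hne : Gx w ≠ 0 := by
    rw [hGx]
    exact mul_ne_zero hpoly (mul_ne_zero hpp hΓ)
  refine ⟨hne, ?_, ?_⟩
  · rw [hGx]
    exact hd.differentiableAt
  · have hl : logDeriv Gx w = 8 * w / (4 * w ^ 2 - 1) - Complex.log Real.pi / 2 +
        1 / 2 * logDeriv Complex.Gamma s := by
      rw [logDeriv_apply, hGx]
      have h1 := hd.deriv
      have h2 : deriv (fun w : ℂ => (4 * w ^ 2 - 1) * ((Real.pi : ℂ) ^ (-(1 / 2 + w) / 2) *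
        Complex.Gamma ((1 / 2 + w) / 2))) w = 8 * w * ((Real.pi : ℂ) ^ (-(1 / 2 + w) / 2) *
          Complex.Gamma s) + (4 * w ^ 2 - 1) *
          ((Real.pi : ℂ) ^ (-(1 / 2 + w) / 2) * Complex.log Real.pi * (-1 / 2) * Complex.Gamma s +
            (Real.pi : ℂ) ^ (-(1 / 2 + w) / 2) * (deriv Complex.Gamma s * (1 / 2))) := h1
      rw [h2, logDeriv_apply]
      simp only
      rw [← hs]
      exact alg_aux hpoly hpp hΓ
    have h1 := hC s (by rw [him, abs_of_pos (by linarith)]; linarith) (by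
      rw [him, hsre, abs_of_pos (by linarith : 0 < w.im / 2)]
      have := abs_le.1 hre
      rw [abs_le]
      constructor <;> linarith)
    rw [him, abs_of_pos (by linarith : 0 < w.im / 2), Real.log_div (by linarith) (by norm_num)] at h1
    have h2 : ‖8 * w / (4 * w ^ 2 - 1)‖ ≤ 1 := by
      rw [norm_div, div_le_one (norm_pos_iff.2 hpoly)]
      have h3 : ‖(4 : ℂ) * w ^ 2‖ - ‖(1 : ℂ)‖ ≤ ‖4 * w ^ 2 - 1‖ := norm_sub_norm_le _ _
      rw [norm_mul, norm_pow, norm_one] at h3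
      rw [norm_mul]
      norm_num at h3 ⊢
      nlinarith
    have hlogpi : Real.log Real.pi ≤ 3 := by
      have := Real.log_le_sub_one_of_pos Real.pi_pos
      have := Real.pi_lt_d2
      linarith
    have hlogpi0 : 0 ≤ Real.log Real.pi := Real.log_nonneg (by linarith [Real.pi_gt_three])
    have h4 : ‖Complex.log Real.pi / 2‖ ≤ 3 / 2 := by
      rw [← Complex.ofReal_log Real.pi_pos.le, norm_div, Complex.norm_real,
        Real.norm_of_nonneg hlogpi0]
      norm_num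
      linarith
    have hlog2 : Real.log 2 ≤ 1 := by linarith [Real.log_two_lt_d9]
    have hlog20 : 0 ≤ Real.log 2 := Real.log_nonneg (by norm_num)
    have e : logDeriv Gx w - ((1 / 2 * Real.log w.im : ℝ) : ℂ) =
        8 * w / (4 * w ^ 2 - 1) - Complex.log Real.pi / 2 +
        1 / 2 * (logDeriv Complex.Gamma s - ((Real.log w.im - Real.log 2 : ℝ) : ℂ)) -
          (1 / 2 : ℂ) * ((Real.log 2 : ℝ) : ℂ) := by
      rw [hl]; push_cast; ring
    rw [e]
    have n1 := norm_sub_le (8 * w / (4 * w ^ 2 - 1) - Complex.log Real.pi / 2 +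
        1 / 2 * (logDeriv Complex.Gamma s - ((Real.log w.im - Real.log 2 : ℝ) : ℂ)))
          ((1 / 2 : ℂ) * ((Real.log 2 : ℝ) : ℂ))
    have n2 := norm_add_le (8 * w / (4 * w ^ 2 - 1) - Complex.log Real.pi / 2)
        (1 / 2 * (logDeriv Complex.Gamma s - ((Real.log w.im - Real.log 2 : ℝ) : ℂ)))
    have n3 := norm_sub_le (8 * w / (4 * w ^ 2 - 1)) (Complex.log Real.pi / 2)
    have n4 : ‖1 / 2 * (logDeriv Complex.Gamma s - ((Real.log w.im - Real.log 2 : ℝ) : ℂ))‖ ≤
        1 / 2 * C := by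
      rw [norm_mul]
      have : ‖(1 / 2 : ℂ)‖ = 1 / 2 := by norm_num
      rw [this]
      exact mul_le_mul_of_nonneg_left h1 (by norm_num)
    have n5 : ‖((1 / 2 : ℂ) * ((Real.log 2 : ℝ) : ℂ))‖ ≤ 1 := by
      rw [norm_mul, Complex.norm_real, Real.norm_of_nonneg hlog20]
      have : ‖(1 / 2 : ℂ)‖ = 1 / 2 := by norm_num
      rw [this]
      linarith
    linarith

/-- the square root used high up -/
noncomputable def wf (u : ℂ) : ℂ := I * (-u) ^ (1 / 2 : ℂ)

lemma wf_sq (u : ℂ) : wf u ^ 2 = u := by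
  rw [wf, mul_pow, cpow_half_sq, I_sq]; ring

lemma FF_wf (u : ℂ) : FF u = fx (wf u) := FF_eq (wf_sq u)

lemma slit_of_re {u : ℂ} (hu : u.re < 0) : -u ∈ slitPlane := Or.inl (by simpa using hu)

lemma wf_im_pos {u : ℂ} (hu : u.re < 0) : 0 < (wf u).im := by
  have hs := slit_of_re hu
  have h0 : -u ≠ 0 := slitPlane_ne_zero hs
  have h1 : (wf u).im = ((-u) ^ (1 / 2 : ℂ)).re := by
    rw [wf, Complex.mul_im]; simp
  rw [h1, Complex.cpow_def_of_ne_zero h0, Complex.exp_re]
  refine mul_pos (Real.exp_pos _) (Real.cos_pos_of_mem_Ioo ?_)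
  have h2 : (Complex.log (-u) * (1 / 2 : ℂ)).im = arg (-u) / 2 := by
    rw [show (1 / 2 : ℂ) = ((1 / 2 : ℝ) : ℂ) by push_cast; ring, Complex.im_mul_ofReal,
      Complex.log_im]
    ring
  rw [h2]
  have h3 := Complex.neg_pi_lt_arg (-u)
  have h4 : arg (-u) < Real.pi := lt_of_le_of_ne (Complex.arg_le_pi _) (by
    intro h
    rw [mem_slitPlane_iff_arg] at hs
    exact hs.1 h)
  constructor <;> linarith

lemma wf_hasDeriv {u : ℂ} (hu : u.re < 0) : HasDerivAt wf (1 / (2 * wf u)) u := by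
  have hs := slit_of_re hu
  have h0 : -u ≠ 0 := slitPlane_ne_zero hs
  have hw0 : wf u ≠ 0 := by
    intro h
    have := wf_im_pos hu
    rw [h] at this
    simp at this
  have h1 : DifferentiableAt ℂ wf u := by
    have h2 : DifferentiableAt ℂ (fun u : ℂ => (-u) ^ (1 / 2 : ℂ)) u :=
      (differentiableAt_id.neg).cpow_const hs
    exact h2.const_mul I
  have h2 : HasDerivAt (fun u => wf u ^ 2) (2 * wf u * deriv wf u) u := by
    have := h1.hasDerivAt.pow 2
    refine this.congr_deriv ?_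
    push_cast
    ring
  have h3 : (fun u => wf u ^ 2) = fun u => u := by
    funext u; exact wf_sq u
  rw [h3] at h2
  have h4 := h2.unique (hasDerivAt_id u)
  have h5 : deriv wf u = 1 / (2 * wf u) := by
    rw [eq_div_iff (by simpa using hw0)]
    linear_combination h4
  rw [← h5]
  exact h1.hasDerivAt

/-- geometry of `wf` near `-τ²` -/
lemma wf_geom {τ : ℝ} (hτ : 0 < τ) {u : ℂ} (hu : ‖u - (-(τ ^ 2) : ℝ)‖ < τ ^ 2 / 4) :
    u.re < 0 ∧ 86 / 100 * τ ≤ (wf u).im ∧ (wf u).im ≤ 114 / 100 * τ ∧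
      |(wf u).re| ≤ 15 / 100 * τ ∧ 2 * (wf u).re * (wf u).im = u.im := by
  have h1 : |u.re + τ ^ 2| < τ ^ 2 / 4 := by
    refine lt_of_le_of_lt ?_ hu
    have := abs_re_le_norm (u - (-(τ ^ 2) : ℝ))
    rwa [sub_re, ofReal_re, sub_neg_eq_add] at this
  have h2 : |u.im| < τ ^ 2 / 4 := by
    refine lt_of_le_of_lt ?_ hu
    have := abs_im_le_norm (u - (-(τ ^ 2) : ℝ))
    rwa [sub_im, ofReal_im, sub_zero] at this
  rw [abs_lt] at h1 h2
  have hτ2 : 0 < τ ^ 2 := by positivity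
  have hre : u.re < 0 := by linarith
  have him := wf_im_pos hre
  have e := wf_sq u
  set a := (wf u).im with ha
  set b := (wf u).re with hb
  have e1 : b ^ 2 - a ^ 2 = u.re := by
    have := congrArg Complex.re e
    rw [sq, Complex.mul_re] at this
    rw [← this]; ring
  have e2 : 2 * b * a = u.im := by
    have := congrArg Complex.im e
    rw [sq, Complex.mul_im] at this
    rw [← this]; ring
  have a1 : 86 / 100 * τ ≤ a := by
    by_contra hcon
    push Not at hcon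
    have : a ^ 2 < (86 / 100 * τ) ^ 2 := by gcongr
    nlinarith [sq_nonneg b]
  have b1 : |b| ≤ 15 / 100 * τ := by
    by_contra hcon
    push Not at hcon
    have h3 : 2 * (15 / 100 * τ) * (86 / 100 * τ) < 2 * |b| * a := by
      have : (15 / 100 * τ) * (86 / 100 * τ) < |b| * a := by
        refine mul_lt_mul hcon a1 (by positivity) (abs_nonneg _)
      linarith
    have h4 : 2 * |b| * a = |u.im| := by
      rw [← e2, abs_mul, abs_mul, abs_of_pos him]
      norm_num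
    have h5 : |u.im| < τ ^ 2 / 4 := abs_lt.2 h2
    nlinarith
  refine ⟨hre, a1, ?_, b1, e2⟩
  by_contra hcon
  push Not at hcon
  have h3 : (114 / 100 * τ) ^ 2 < a ^ 2 := by gcongr
  have h4 : b ^ 2 ≤ (15 / 100 * τ) ^ 2 := by
    rw [← sq_abs]; gcongr
  nlinarith

end Pool.Agent.Helper54.Xm
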