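import Mathlib

set_option autoImplicit false

open Polynomial Complex

namespace Pool.Agent.Helper54.Xm

/-- all complex zeros are real -/
def RealRooted (p : ℂ[X]) : Prop := ∀ z : ℂ, p.eval z = 0 → z.im = 0

/-- product over a multiset of roots -/
noncomputable def Pr (s : Multiset ℂ) : ℂ[X] := (s.map (fun r => X - C r)).prod

noncomputable def S1 (s : Multiset ℂ) (z : ℂ) : ℂ := (s.map (fun r => 1 / (z - r))).sum
noncomputable def S2 (s : Multiset ℂ) (z : ℂ) : ℂ := (s.map (fun r => 1 / (z - r) ^ 2)).sum

lemma Pr_zero : Pr 0 = 1 := by simp [Pr]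
lemma Pr_cons (r : ℂ) (s : Multiset ℂ) : Pr (r ::ₘ s) = (X - C r) * Pr s := by simp [Pr]
lemma S1_zero (z : ℂ) : S1 0 z = 0 := by simp [S1]
lemma S2_zero (z : ℂ) : S2 0 z = 0 := by simp [S2]
lemma S1_cons (r : ℂ) (s : Multiset ℂ) (z : ℂ) : S1 (r ::ₘ s) z = 1 / (z - r) + S1 s z := by
  simp [S1]
lemma S2_cons (r : ℂ) (s : Multiset ℂ) (z : ℂ) : S2 (r ::ₘ s) z = 1 / (z - r) ^ 2 + S2 s z := by
  simp [S2]

lemma Pr_der {s : Multiset ℂ} {z : ℂ} (h : ∀ r ∈ s, z ≠ r) :
    (derivative (Pr s)).eval z = (Pr s).eval z * S1 s z ∧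
    (derivative (derivative (Pr s))).eval z = (Pr s).eval z * (S1 s z ^ 2 - S2 s z) := by
  induction s using Multiset.induction_on with
  | empty => simp [Pr_zero, S1_zero, S2_zero]
  | cons r s ih =>
    obtain ⟨h1, h2⟩ := ih fun r' h' => h r' (Multiset.mem_cons_of_mem h')
    have hz : z - r ≠ 0 := sub_ne_zero.2 (h r (Multiset.mem_cons_self r s))
    have e1 : derivative (Pr (r ::ₘ s)) = Pr s + (X - C r) * derivative (Pr s) := by
      rw [Pr_cons, derivative_mul]; simp
    have e2 : derivative (derivative (Pr (r ::ₘ s))) =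
        2 * derivative (Pr s) + (X - C r) * derivative (derivative (Pr s)) := by
      rw [e1, derivative_add, derivative_mul]
      simp only [derivative_sub, derivative_X, derivative_C, sub_zero, one_mul]
      ring
    constructor
    · rw [e1, Pr_cons, S1_cons]
      simp only [eval_add, eval_mul, eval_sub, eval_X, eval_C, h1]
      field_simp
    · rw [e2, Pr_cons, S1_cons, S2_cons]
      simp only [eval_add, eval_mul, eval_sub, eval_X, eval_C, h1, h2, eval_ofNat]
      field_simp
      ring

lemma eq_Pr (p : ℂ[X]) : p = C p.leadingCoeff * Pr p.roots := by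
  have := (IsAlgClosed.splits p).eq_prod_roots
  exact this

/-- the real inequality -/
lemma key_ineq {ι : Type*} [Fintype ι] (a b : ι → ℝ) (hcard : 2 ≤ Fintype.card ι)
    (hb : ∀ i j, 0 < b i * b j) (A B ab : ℝ) (hA : A = ∑ i, a i) (hB : B = ∑ i, b i)
    (hab : ab * B = ∑ i, a i * b i) :
    (A - ab) ^ 2 < ((Fintype.card ι : ℝ) - 1) *
      (∑ i, a i ^ 2 - ab ^ 2 + B ^ 2 - ∑ i, b i ^ 2) := by
  classical
  have hcard' : (2 : ℝ) ≤ Fintype.card ι := by exact_mod_cast hcard
  obtain ⟨i0⟩ : Nonempty ι := Fintype.card_pos_iff.1 (by omega)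
  have hBb : ∀ i, 0 < B * b i := by
    intro i
    rw [hB, Finset.sum_mul]
    exact Finset.sum_pos (fun j _ => hb j i) ⟨i0, Finset.mem_univ _⟩
  have hB0 : B ≠ 0 := by
    intro h
    have := hBb i0
    rw [h] at this
    simp at this
  set p : ι → ℝ := fun i => b i / B with hp
  have hp0 : ∀ i, 0 < p i := by
    intro i
    have : p i = (B * b i) / B ^ 2 := by rw [hp]; field_simp
    rw [this]
    have := hBb i
    positivity
  have hpsum : ∑ i, p i = 1 := by
    rw [hp]
    simp only
    rw [← Finset.sum_div, ← hB, div_self hB0]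
  have hp1 : ∀ i, p i ≤ 1 := by
    intro i
    rw [← hpsum]
    exact Finset.single_le_sum (fun j _ => (hp0 j).le) (Finset.mem_univ i)
  have hab' : ab = ∑ i, p i * a i := by
    have : ab = (∑ i, a i * b i) / B := by rw [← hab]; field_simp
    rw [this, Finset.sum_div]
    refine Finset.sum_congr rfl fun i _ => ?_
    rw [hp]
    ring
  -- first inequality
  have c1 : (A - ab) ^ 2 ≤ ((Fintype.card ι : ℝ) - 1) * (∑ i, a i ^ 2 - ∑ i, p i * a i ^ 2) := by
    have e : A - ab = ∑ i, (1 - p i) * a i := by
      rw [hA, hab', ← Finset.sum_sub_distrib]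
      exact Finset.sum_congr rfl fun i _ => by ring
    have e1 : ∑ i, (1 - p i) = (Fintype.card ι : ℝ) - 1 := by
      rw [Finset.sum_sub_distrib, hpsum]
      simp
    have e2 : ∑ i, (1 - p i) * a i ^ 2 = ∑ i, a i ^ 2 - ∑ i, p i * a i ^ 2 := by
      rw [← Finset.sum_sub_distrib]
      exact Finset.sum_congr rfl fun i _ => by ring
    rw [e, ← e1, ← e2]
    exact Finset.sum_sq_le_sum_mul_sum_of_sq_le_mul _ (fun i _ => by linarith [hp1 i])
      (fun i _ => mul_nonneg (by linarith [hp1 i]) (sq_nonneg _)) (fun i _ => le_of_eq (by ring))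
  have c2 : ab ^ 2 ≤ ∑ i, p i * a i ^ 2 := by
    have := Finset.sum_sq_le_sum_mul_sum_of_sq_le_mul (s := Finset.univ) (r := fun i => p i * a i)
      (f := p) (g := fun i => p i * a i ^ 2) (fun i _ => (hp0 i).le)
      (fun i _ => mul_nonneg (hp0 i).le (sq_nonneg _)) (fun i _ => le_of_eq (by ring))
    rw [hpsum, one_mul, ← hab'] at this
    exact this
  have c3 : 0 < B ^ 2 - ∑ i, b i ^ 2 := by
    have e : B ^ 2 - ∑ i, b i ^ 2 = ∑ i, b i * (∑ j ∈ Finset.univ.erase i, b j) := by
      have : ∀ i, ∑ j ∈ Finset.univ.erase i, b j = B - b i := by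
        intro i
        have := Finset.add_sum_erase Finset.univ b (Finset.mem_univ i)
        rw [hB, ← this]
        ring
      simp_rw [this]
      rw [show B ^ 2 = B * B by ring]
      conv_lhs => rw [show B * B = ∑ i, b i * B by rw [← Finset.sum_mul, ← hB]]
      rw [← Finset.sum_sub_distrib]
      exact Finset.sum_congr rfl fun i _ => by ring
    rw [e]
    refine Finset.sum_pos (fun i _ => ?_) ⟨i0, Finset.mem_univ _⟩
    rw [Finset.mul_sum]
    refine Finset.sum_pos (fun j _ => hb i j) ?_
    have : 1 < (Finset.univ : Finset ι).card := by rw [Finset.card_univ]; omega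
    obtain ⟨j, hj⟩ := Finset.exists_mem_ne this i
    exact ⟨j, Finset.mem_erase.2 ⟨hj.2, hj.1⟩⟩
  have h1 : 0 < (Fintype.card ι : ℝ) - 1 := by linarith
  calc (A - ab) ^ 2 ≤ ((Fintype.card ι : ℝ) - 1) * (∑ i, a i ^ 2 - ∑ i, p i * a i ^ 2) := c1
    _ < _ := by
      apply mul_lt_mul_of_pos_left _ h1
      linarith

lemma sum_type (s : Multiset ℂ) (f : ℂ → ℂ) : (s.map f).sum = ∑ i : s, f i := by
  have := Multiset.map_univ s f
  rw [← this]
  rfl

lemma card_type (s : Multiset ℂ) : Fintype.card s = Multiset.card s := by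
  simp

lemma ratio_eq {p : ℂ[X]} (hp : p ≠ 0) {z : ℂ} (hz : p.eval z ≠ 0) :
    (derivative p).eval z = p.eval z * S1 p.roots z ∧
    (derivative (derivative p)).eval z = p.eval z * (S1 p.roots z ^ 2 - S2 p.roots z) := by
  have h : ∀ r ∈ p.roots, z ≠ r := by
    rintro r hr rfl
    exact hz ((mem_roots hp).1 hr)
  obtain ⟨h1, h2⟩ := Pr_der h
  have e := eq_Pr p
  constructor
  · conv_lhs => rw [e]
    conv_rhs => rw [e]
    rw [derivative_C_mul, eval_mul, eval_mul, eval_C, h1]
    rw [← e]
    ring
  · conv_lhs => rw [e]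
    conv_rhs => rw [e]
    rw [derivative_C_mul, derivative_C_mul, eval_mul, eval_mul, eval_C, h2]
    rw [← e]
    ring

lemma lin_op {p : ℂ[X]} (hp : p ≠ 0) (hr : RealRooted p) (b : ℝ) :
    RealRooted (p - C (b : ℂ) * derivative p) := by
  intro z hz
  by_contra him
  have hpz : p.eval z ≠ 0 := fun h => him (hr z h)
  obtain ⟨h1, -⟩ := ratio_eq hp hpz
  rw [eval_sub, eval_mul, eval_C, h1] at hz
  have h2 : 1 - (b : ℂ) * S1 p.roots z = 0 := by
    have : p.eval z * (1 - (b : ℂ) * S1 p.roots z) = 0 := by rw [← hz]; ring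
    rcases mul_eq_zero.1 this with h | h
    · exact absurd h hpz
    · exact h
  have him2 : ∀ r ∈ p.roots, (1 / (z - r)).im * z.im < 0 := by
    intro r hrr
    have hr0 : r.im = 0 := hr r ((mem_roots hp).1 hrr)
    have hne : z - r ≠ 0 := by
      intro h
      have := congrArg Complex.im h
      simp [hr0] at this
      exact him this
    rw [one_div, Complex.inv_im]
    have h3 : 0 < Complex.normSq (z - r) := Complex.normSq_pos.2 hne
    have h4 : (z - r).im = z.im := by simp [hr0]
    rw [h4]
    have : -z.im / Complex.normSq (z - r) * z.im = -(z.im ^ 2 / Complex.normSq (z - r)) := by ring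
    rw [this]
    have : 0 < z.im ^ 2 / Complex.normSq (z - r) := by positivity
    linarith
  by_cases hs : p.roots = 0
  · rw [hs, S1_zero] at h2
    simp at h2
  · have hSim : (S1 p.roots z).im * z.im < 0 := by
      rw [S1, sum_type, Complex.im_sum, Finset.sum_mul]
      refine Finset.sum_neg (fun i _ => him2 i (Multiset.coe_mem)) ?_
      obtain ⟨r, hr'⟩ := Multiset.exists_mem_of_ne_zero hs
      have : 0 < Fintype.card p.roots := by
        rw [card_type]
        exact Multiset.card_pos.2 hs
      exact Finset.univ_nonempty_iff.2 (Fintype.card_pos_iff.1 this)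
    have h5 := congrArg Complex.im h2
    simp at h5
    rcases h5 with h5 | h5
    · rw [h5] at h2
      simp at h2
    · rw [h5] at hSim
      simp at hSim

lemma quad_op {p : ℂ[X]} (hp : p ≠ 0) (hr : RealRooted p) (b c : ℝ) (hc : 0 < c)
    (hbc : (p.natDegree : ℝ) * (4 * c - b ^ 2) ≤ 4 * c) :
    RealRooted (p - C (b : ℂ) * derivative p + C (c : ℂ) * derivative (derivative p)) := by
  intro z hz
  by_contra him
  have hpz : p.eval z ≠ 0 := fun h => him (hr z h)
  obtain ⟨h1, h1'⟩ := ratio_eq hp hpz
  rw [eval_add, eval_sub, eval_mul, eval_C, eval_mul, eval_C, h1, h1'] at hz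
  have h2 : 1 - (b : ℂ) * S1 p.roots z + c * (S1 p.roots z ^ 2 - S2 p.roots z) = 0 := by
    have : p.eval z * (1 - (b : ℂ) * S1 p.roots z + c * (S1 p.roots z ^ 2 - S2 p.roots z)) = 0 := by
      rw [← hz]; ring
    rcases mul_eq_zero.1 this with h | h
    · exact absurd h hpz
    · exact h
  have hdeg : Multiset.card p.roots = p.natDegree :=
    splits_iff_card_roots.1 (IsAlgClosed.splits p)
  set s := p.roots with hsdef
  have hreal : ∀ r ∈ s, r.im = 0 := fun r hrr => hr r ((mem_roots hp).1 hrr)
  have him2 : ∀ r ∈ s, 0 < -(1 / (z - r)).im * z.im := by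
    intro r hrr
    have hr0 := hreal r hrr
    have hne : z - r ≠ 0 := by
      intro h
      have := congrArg Complex.im h
      simp [hr0] at this
      exact him this
    rw [one_div, Complex.inv_im]
    have h3 : 0 < Complex.normSq (z - r) := Complex.normSq_pos.2 hne
    have h4 : (z - r).im = z.im := by simp [hr0]
    rw [h4]
    have : -(-z.im / Complex.normSq (z - r)) * z.im = z.im ^ 2 / Complex.normSq (z - r) := by ring
    rw [this]
    positivity
  rcases Nat.lt_or_ge (Multiset.card s) 2 with hlt | hge
  · rcases Nat.lt_or_ge (Multiset.card s) 1 with h0 | h1c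
    · have : s = 0 := Multiset.card_eq_zero.1 (by omega)
      rw [this, S1_zero, S2_zero] at h2
      simp at h2
    · have hc1 : Multiset.card s = 1 := by omega
      obtain ⟨r, hs⟩ := Multiset.card_eq_one.1 hc1
      have e1 : S1 s z = 1 / (z - r) := by rw [hs]; simp [S1]
      have e2 : S2 s z = 1 / (z - r) ^ 2 := by rw [hs]; simp [S2]
      have hr0 := hreal r (by rw [hs]; simp)
      have hne : z - r ≠ 0 := by
        intro h
        have := congrArg Complex.im h
        simp [hr0] at this
        exact him this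
      rw [e1, e2] at h2
      have h3 : z - r = b := by
        have h4 : (z - r) * (z - r - b) = 0 := by
          field_simp at h2
          linear_combination h2
        rcases mul_eq_zero.1 h4 with h | h
        · exact absurd h hne
        · linear_combination h
      have := congrArg Complex.im h3
      simp [hr0] at this
      exact him this
  · -- the main case
    set a : s → ℝ := fun i => (1 / (z - (i : ℂ))).re with ha
    set bb : s → ℝ := fun i => -(1 / (z - (i : ℂ))).im with hbb
    have hcard : 2 ≤ Fintype.card s := by rw [card_type]; exact hge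
    have hbpos : ∀ i j : s, 0 < bb i * bb j := by
      intro i j
      have h3 := him2 i Multiset.coe_mem
      have h4 := him2 j Multiset.coe_mem
      have h5 : 0 < (bb i * bb j) * z.im ^ 2 := by
        have := mul_pos h3 h4
        calc 0 < _ := this
          _ = _ := by rw [hbb]; ring
      exact pos_of_mul_pos_left h5 (sq_nonneg _)
    set A := ∑ i, a i with hA
    set B := ∑ i, bb i with hB
    have hB0 : B ≠ 0 := by
      have h6 : 0 < B * z.im := by
        rw [hB, Finset.sum_mul]
        refine Finset.sum_pos (fun i _ => him2 i Multiset.coe_mem) ?_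
        exact Finset.univ_nonempty_iff.2 (Fintype.card_pos_iff.1 (by omega))
      intro h
      rw [h] at h6
      simp at h6
    set ab : ℝ := (∑ i, a i * bb i) / B with hab
    have habB : ab * B = ∑ i, a i * bb i := by rw [hab]; field_simp
    have key := key_ineq a bb hcard hbpos A B ab hA hB habB
    have hS1re : (S1 s z).re = A := by
      rw [S1, sum_type, Complex.re_sum]
    have hS1im : (S1 s z).im = -B := by
      rw [S1, sum_type, Complex.im_sum, hB, ← Finset.sum_neg_distrib]
      exact Finset.sum_congr rfl fun i _ => by rw [hbb]; simp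
    have hsq : ∀ r : ℂ, 1 / (z - r) ^ 2 = (1 / (z - r)) ^ 2 := fun r => by rw [div_pow, one_pow]
    have hS2re : (S2 s z).re = ∑ i, a i ^ 2 - ∑ i, bb i ^ 2 := by
      rw [S2, sum_type, Complex.re_sum, ← Finset.sum_sub_distrib]
      refine Finset.sum_congr rfl fun i _ => ?_
      rw [hsq, sq, Complex.mul_re, ha, hbb]
      ring
    have hS2im : (S2 s z).im = -2 * ∑ i, a i * bb i := by
      rw [S2, sum_type, Complex.im_sum, Finset.mul_sum]
      refine Finset.sum_congr rfl fun i _ => ?_
      rw [hsq, sq, Complex.mul_im, ha, hbb]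
      ring
    have hre := congrArg Complex.re h2
    have him3 := congrArg Complex.im h2
    rw [show S1 s z ^ 2 = S1 s z * S1 s z by ring] at hre him3
    simp only [add_re, sub_re, one_re, mul_re, ofReal_re, ofReal_im, zero_mul, sub_zero,
      zero_re, hS1re, hS1im, hS2re] at hre
    simp only [add_im, sub_im, one_im, mul_im, ofReal_re, ofReal_im, zero_mul, add_zero,
      zero_im, hS1re, hS1im, hS2im] at him3
    rw [← habB] at him3
    have hb : b = 2 * c * (A - ab) := by
      have : B * (b - 2 * c * (A - ab)) = 0 := by linear_combination him3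
      rcases mul_eq_zero.1 this with h | h
      · exact absurd h hB0
      · linarith
    set W := ∑ i, a i ^ 2 - ab ^ 2 + B ^ 2 - ∑ i, bb i ^ 2 with hW
    have h7 : 1 - c * (A - ab) ^ 2 = c * W := by
      rw [hW]
      rw [hb] at hre
      linear_combination hre
    have hd : (Fintype.card s : ℝ) = p.natDegree := by rw [card_type, hdeg]
    rw [← hd, hb] at hbc
    have h8 : (Fintype.card s : ℝ) * (1 - c * (A - ab) ^ 2) ≤ 1 := by
      have h9 : 4 * c * ((Fintype.card s : ℝ) * (1 - c * (A - ab) ^ 2)) ≤ 4 * c * 1 := by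
        calc _ = (Fintype.card s : ℝ) * (4 * c - (2 * c * (A - ab)) ^ 2) := by ring
          _ ≤ _ := by rw [mul_one]; exact hbc
      exact le_of_mul_le_mul_left h9 (by linarith)
    rw [h7] at h8
    have h10 : ((Fintype.card s : ℝ) - 1) * W ≤ (A - ab) ^ 2 := by
      have h11 : c * (((Fintype.card s : ℝ) - 1) * W) ≤ c * (A - ab) ^ 2 := by
        nlinarith [h8, h7]
      exact le_of_mul_le_mul_left h11 hc
    linarith

/-- symmetric under complex conjugation -/
def Sym (p : ℂ[X]) : Prop := ∀ z : ℂ, p.eval (starRingEnd ℂ z) = starRingEnd ℂ (p.eval z)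

/-- the operator `Q(D)` -/
noncomputable def op (Q : ℂ[X]) : Module.End ℂ ℂ[X] :=
  aeval (R := ℂ) (A := Module.End ℂ ℂ[X]) (Polynomial.derivative (R := ℂ)) Q

lemma op_mul (Q R : ℂ[X]) (p : ℂ[X]) : op (Q * R) p = op Q (op R p) := by
  simp [op, map_mul]

lemma op_C (a : ℂ) (p : ℂ[X]) : op (C a) p = C a * p := by
  simp [op, Polynomial.smul_eq_C_mul]

lemma op_X_sub (a : ℂ) (p : ℂ[X]) : op (X - C a) p = derivative p - C a * p := by
  simp [op, map_sub, Polynomial.smul_eq_C_mul]

lemma sub_deg {p q : ℂ[X]} (hp : p ≠ 0) {k : ℂ} (hk : k ≠ 0) (hq : q.degree < p.degree) :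
    (q + C k * p) ≠ 0 ∧ (q + C k * p).natDegree = p.natDegree := by
  have h1 : (C k * p).degree = p.degree := by
    rw [degree_mul, degree_C hk, zero_add]
  have h2 : (q + C k * p).degree = p.degree := by
    rw [degree_add_eq_right_of_degree_lt (by rw [h1]; exact hq), h1]
  refine ⟨?_, natDegree_eq_of_degree_eq h2⟩
  intro h
  rw [h, degree_zero] at h2
  exact hp (degree_eq_bot.1 h2.symm)

/-- the operator with roots near the real axis preserves real rootedness -/
theorem op_real (d : ℕ) : ∀ (n : ℕ) (Q : ℂ[X]), Q.natDegree = n → Q ≠ 0 → Sym Q →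
    (∀ z : ℂ, Q.eval z = 0 → z ≠ 0 ∧ (d : ℝ) * z.im ^ 2 ≤ ‖z‖ ^ 2) →
    ∀ p : ℂ[X], p ≠ 0 → p.natDegree = d → RealRooted p →
      op Q p ≠ 0 ∧ (op Q p).natDegree = d ∧ RealRooted (op Q p) := by
  intro n
  induction n using Nat.strong_induction_on with
  | _ n ih =>
  intro Q hn hQ hsym hroots p hp hpd hpr
  rcases Nat.eq_zero_or_pos n with h0 | hpos
  · -- constant
    rw [h0] at hn
    obtain ⟨a, rfl⟩ := natDegree_eq_zero.1 hn
    have ha : a ≠ 0 := fun h => hQ (by rw [h, C_0])
    rw [op_C]
    refine ⟨mul_ne_zero (C_ne_zero.2 ha) hp, ?_, ?_⟩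
    · rw [natDegree_C_mul ha, hpd]
    · intro z hz
      rw [eval_mul, eval_C] at hz
      rcases mul_eq_zero.1 hz with h | h
      · exact absurd h ha
      · exact hpr z h
  · obtain ⟨z0, hz0⟩ := Complex.exists_root (f := Q) (by
      rw [degree_eq_natDegree hQ, hn]; exact_mod_cast hpos)
    have hz0' : Q.eval z0 = 0 := hz0
    obtain ⟨hz0ne, hz0b⟩ := hroots z0 hz0'
    have hderlt : (derivative p).degree < p.degree := degree_derivative_lt hp
    by_cases him : z0.im = 0
    · -- real root
      obtain ⟨R, hR⟩ := dvd_iff_isRoot.2 hz0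
      have hR0 : R ≠ 0 := by rintro rfl; exact hQ (by rw [hR, mul_zero])
      have hRn : R.natDegree < n := by
        have h1 : Q.natDegree = (X - C z0).natDegree + R.natDegree := by
          rw [hR, natDegree_mul (X_sub_C_ne_zero z0) hR0]
        rw [natDegree_X_sub_C] at h1
        omega
      have hRsym : Sym R := by
        -- by continuity at z0
        have hcont1 : Continuous fun z : ℂ => R.eval (starRingEnd ℂ z) :=
          R.continuous.comp Complex.continuous_conj
        have hcont2 : Continuous fun z : ℂ => starRingEnd ℂ (R.eval z) :=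
          Complex.continuous_conj.comp R.continuous
        have hdense : Dense ({z0}ᶜ : Set ℂ) := dense_compl_singleton z0
        have : (fun z : ℂ => R.eval (starRingEnd ℂ z)) = fun z : ℂ => starRingEnd ℂ (R.eval z) := by
          refine Continuous.ext_on hdense hcont1 hcont2 ?_
          intro z hz
          have hz' : z ≠ z0 := hz
          have h1 := hsym z
          rw [hR, eval_mul, eval_mul, map_mul] at h1
          simp only [eval_sub, eval_X, eval_C, map_sub] at h1
          have hc : starRingEnd ℂ z0 = z0 := Complex.conj_eq_iff_im.2 him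
          rw [hc] at h1
          have h2 : starRingEnd ℂ z - z0 ≠ 0 := by
            intro h
            apply hz'
            have h3 : starRingEnd ℂ z = z0 := sub_eq_zero.1 h
            have h4 := congrArg (starRingEnd ℂ) h3
            rw [Complex.conj_conj, hc] at h4
            exact h4
          exact mul_left_cancel₀ h2 h1
        exact fun z => congrFun this z
      have hRroots : ∀ z : ℂ, R.eval z = 0 → z ≠ 0 ∧ (d : ℝ) * z.im ^ 2 ≤ ‖z‖ ^ 2 := by
        intro z hz
        exact hroots z (by rw [hR, eval_mul, hz, mul_zero])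
      obtain ⟨i1, i2, i3⟩ := ih R.natDegree hRn R rfl hR0 hRsym hRroots p hp hpd hpr
      set q := op R p with hq
      have hop : op Q p = derivative q + C (-z0) * q := by
        rw [hR, op_mul, ← hq, op_X_sub, C_neg]; ring
      obtain ⟨j1, j2⟩ := sub_deg i1 (neg_ne_zero.2 hz0ne) (degree_derivative_lt i1)
      rw [hop]
      refine ⟨j1, by rw [j2, i2], ?_⟩
      have hre : z0 = (z0.re : ℂ) := by
        apply Complex.ext <;> simp [him]
      have hre0 : z0.re ≠ 0 := by
        intro h
        rw [h] at hre
        exact hz0ne (by rw [hre]; simp)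
      have h2 := lin_op i1 i3 (1 / z0.re)
      intro z hz
      apply h2 z
      have h3 : (derivative q).eval z + (-z0) * q.eval z = 0 := by
        rw [← hz]; simp
      have hc0 : (z0.re : ℂ) ≠ 0 := by exact_mod_cast hre0
      rw [hre] at h3
      rw [eval_sub, eval_mul, eval_C]
      push_cast
      field_simp
      linear_combination -h3
    · -- pair of conjugate roots
      have hconj : Q.eval (starRingEnd ℂ z0) = 0 := by rw [hsym, hz0', map_zero]
      have hne : starRingEnd ℂ z0 ≠ z0 := fun h => him (Complex.conj_eq_iff_im.1 h)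
      obtain ⟨R1, hR1⟩ := dvd_iff_isRoot.2 hz0
      have hR1c : R1.eval (starRingEnd ℂ z0) = 0 := by
        rw [hR1, eval_mul, eval_sub, eval_X, eval_C] at hconj
        rcases mul_eq_zero.1 hconj with h | h
        · exact absurd (sub_eq_zero.1 h) hne
        · exact h
      obtain ⟨R, hR2⟩ := dvd_iff_isRoot.2 (show R1.IsRoot (starRingEnd ℂ z0) from hR1c)
      have hR : Q = (X - C z0) * ((X - C (starRingEnd ℂ z0)) * R) := by rw [← hR2]; exact hR1
      have hR0 : R ≠ 0 := by rintro rfl; exact hQ (by rw [hR]; simp)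
      have hRn : R.natDegree < n := by
        have h1 : Q.natDegree = (X - C z0).natDegree + ((X - C (starRingEnd ℂ z0)).natDegree + R.natDegree) := by
          rw [hR, natDegree_mul (X_sub_C_ne_zero z0) (mul_ne_zero (X_sub_C_ne_zero _) hR0),
            natDegree_mul (X_sub_C_ne_zero _) hR0]
        rw [natDegree_X_sub_C, natDegree_X_sub_C] at h1
        omega
      have hRsym : Sym R := by
        have hcont1 : Continuous fun z : ℂ => R.eval (starRingEnd ℂ z) :=
          R.continuous.comp Complex.continuous_conj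
        have hcont2 : Continuous fun z : ℂ => starRingEnd ℂ (R.eval z) :=
          Complex.continuous_conj.comp R.continuous
        have hdense : Dense (({z0, starRingEnd ℂ z0} : Finset ℂ) : Set ℂ)ᶜ :=
          ((Finset.finite_toSet _).countable).dense_compl ℝ
        have : (fun z : ℂ => R.eval (starRingEnd ℂ z)) = fun z : ℂ => starRingEnd ℂ (R.eval z) := by
          refine Continuous.ext_on hdense hcont1 hcont2 ?_
          intro z hz
          have hz1 : z ≠ z0 := fun h => hz (by simp [h])
          have hz2 : z ≠ starRingEnd ℂ z0 := fun h => hz (by simp [h])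
          have h1 := hsym z
          rw [hR] at h1
          simp only [eval_mul, map_mul, eval_sub, eval_X, eval_C, map_sub, Complex.conj_conj] at h1
          have h2 : starRingEnd ℂ z - z0 ≠ 0 := by
            intro h
            apply hz2
            have h4 := congrArg (starRingEnd ℂ) (sub_eq_zero.1 h)
            rwa [Complex.conj_conj] at h4
          have h3 : starRingEnd ℂ z - starRingEnd ℂ z0 ≠ 0 := by
            intro h
            apply hz1
            have h4 := congrArg (starRingEnd ℂ) (sub_eq_zero.1 h)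
            rwa [Complex.conj_conj, Complex.conj_conj] at h4
          have h5 : (starRingEnd ℂ z - z0) * (starRingEnd ℂ z - starRingEnd ℂ z0) *
              R.eval (starRingEnd ℂ z) =
              (starRingEnd ℂ z - z0) * (starRingEnd ℂ z - starRingEnd ℂ z0) *
              starRingEnd ℂ (R.eval z) := by
            linear_combination h1
          exact mul_left_cancel₀ (mul_ne_zero h2 h3) h5
        exact fun z => congrFun this z
      have hRroots : ∀ z : ℂ, R.eval z = 0 → z ≠ 0 ∧ (d : ℝ) * z.im ^ 2 ≤ ‖z‖ ^ 2 := by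
        intro z hz
        exact hroots z (by rw [hR, eval_mul, eval_mul, hz, mul_zero, mul_zero])
      obtain ⟨i1, i2, i3⟩ := ih R.natDegree hRn R rfl hR0 hRsym hRroots p hp hpd hpr
      set q := op R p with hq
      set N : ℝ := ‖z0‖ ^ 2 with hN
      have hNpos : 0 < N := by
        have := norm_pos_iff.2 hz0ne
        positivity
      have hN0 : (N : ℂ) ≠ 0 := by exact_mod_cast hNpos.ne'
      have hmulc : z0 * starRingEnd ℂ z0 = (N : ℂ) := by
        rw [Complex.mul_conj, Complex.normSq_eq_norm_sq]
      have haddc : z0 + starRingEnd ℂ z0 = ((2 * z0.re : ℝ) : ℂ) := Complex.add_conj z0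
      have hop : op Q p = (derivative (derivative q) - C ((2 * z0.re : ℝ) : ℂ) * derivative q) +
          C (N : ℂ) * q := by
        rw [hR, op_mul, op_mul, ← hq, op_X_sub, op_X_sub, derivative_sub, derivative_C_mul,
          ← hmulc, ← haddc, C_mul, C_add]
        ring
      have hdq : (derivative q).degree < q.degree := degree_derivative_lt i1
      have hlt : (derivative (derivative q) - C ((2 * z0.re : ℝ) : ℂ) * derivative q).degree <
          q.degree := by
        refine lt_of_le_of_lt (degree_sub_le _ _) (max_lt ?_ ?_)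
        · exact lt_of_le_of_lt degree_derivative_le hdq
        · refine lt_of_le_of_lt ?_ hdq
          calc (C ((2 * z0.re : ℝ) : ℂ) * derivative q).degree
              ≤ (C ((2 * z0.re : ℝ) : ℂ)).degree + (derivative q).degree := degree_mul_le _ _
            _ ≤ 0 + (derivative q).degree := by gcongr; exact degree_C_le
            _ = _ := zero_add _
      obtain ⟨j1, j2⟩ := sub_deg i1 hN0 hlt
      rw [hop]
      refine ⟨j1, by rw [j2, i2], ?_⟩
      have hcond : (q.natDegree : ℝ) * (4 * (1 / N) - (2 * z0.re / N) ^ 2) ≤ 4 * (1 / N) := by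
        rw [i2]
        have hN2 : N = z0.re ^ 2 + z0.im ^ 2 := by
          rw [hN, ← Complex.normSq_eq_norm_sq, Complex.normSq_apply]; ring
        have h6 : (4 * (1 / N) - (2 * z0.re / N) ^ 2) = 4 * z0.im ^ 2 / N ^ 2 := by
          field_simp
          rw [hN2]
          ring
        rw [h6]
        have h7 : (d : ℝ) * (4 * z0.im ^ 2 / N ^ 2) = 4 * ((d : ℝ) * z0.im ^ 2) / N ^ 2 := by ring
        rw [h7, div_le_iff₀ (by positivity)]
        calc 4 * ((d : ℝ) * z0.im ^ 2) ≤ 4 * N := by linarith
          _ = 4 * (1 / N) * N ^ 2 := by field_simp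
      have h2 := quad_op i1 i3 (2 * z0.re / N) (1 / N) (by positivity) hcond
      intro z hz
      apply h2 z
      have h3 : (derivative (derivative q)).eval z - ((2 * z0.re : ℝ) : ℂ) * (derivative q).eval z +
          (N : ℂ) * q.eval z = 0 := by
        rw [← hz]; simp
      rw [eval_add, eval_sub, eval_mul, eval_C, eval_mul, eval_C]
      push_cast at h3 ⊢
      field_simp
      linear_combination h3

end Pool.Agent.Helper54.Xm
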