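import Pool.Agent.Helper54.Xm.Alg

set_option autoImplicit false

open Polynomial Complex

namespace Pool.Agent.Helper54.Xm

/-- the value of the Jensen polynomial of degree `d` with coefficients `g` -/
noncomputable def Jv (d : ℕ) (g : ℕ → ℂ) (z : ℂ) : ℂ :=
  ∑ j ∈ Finset.range (d + 1), (d.choose j : ℂ) * g j * z ^ j

lemma op_eq_sum (Q p : ℂ[X]) :
    op Q p = ∑ j ∈ Finset.range (Q.natDegree + 1), C (Q.coeff j) * (derivative^[j] p) := by
  unfold op
  rw [aeval_eq_sum_range]
  rw [LinearMap.sum_apply]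
  refine Finset.sum_congr rfl fun j _ => ?_
  rw [LinearMap.smul_apply, Module.End.pow_apply, Polynomial.smul_eq_C_mul]

lemma op_X_pow (Q : ℂ[X]) (d : ℕ) {z : ℂ} (hz : z ≠ 0) :
    (op Q (X ^ d)).eval z⁻¹ * z ^ d = Jv d (fun j => (j.factorial : ℂ) * Q.coeff j) z := by
  have h1 : ∀ N : ℕ, Q.natDegree + 1 ≤ N →
      op Q (X ^ d) = ∑ j ∈ Finset.range N, C (Q.coeff j) * (derivative^[j] (X ^ d : ℂ[X])) := by
    intro N hN
    rw [op_eq_sum]
    refine Finset.sum_subset (Finset.range_mono hN) fun j _ hj => ?_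
    have : Q.coeff j = 0 := coeff_eq_zero_of_natDegree_lt (by
      rw [Finset.mem_range] at hj; omega)
    rw [this, C_0, zero_mul]
  rw [h1 (max (Q.natDegree + 1) (d + 1)) (le_max_left _ _), eval_finsetSum, Finset.sum_mul, Jv]
  symm
  refine Finset.sum_subset_zero_on_sdiff (Finset.range_mono (le_max_right _ _)) ?_ ?_
  · intro j hj
    rw [Finset.mem_sdiff, Finset.mem_range, Finset.mem_range] at hj
    rw [iterate_derivative_X_pow_eq_natCast_mul, Nat.descFactorial_of_lt (by omega)]
    simp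
  · intro j hj
    rw [Finset.mem_range] at hj
    rw [iterate_derivative_X_pow_eq_natCast_mul, Nat.descFactorial_eq_factorial_mul_choose]
    simp only [eval_mul, eval_C, eval_natCast, eval_pow, eval_X]
    have h2 : z⁻¹ ^ (d - j) * z ^ d = z ^ j := by
      have h3 : z ^ d = z ^ (d - j) * z ^ j := by rw [← pow_add]; congr 1; omega
      rw [h3, ← mul_assoc, ← mul_pow, inv_mul_cancel₀ hz, one_pow, one_mul]
    push_cast
    linear_combination -(Q.coeff j * ((j.factorial : ℂ) * (d.choose j : ℂ))) * h2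

/-- Chasse's criterion -/
theorem chasse (d : ℕ) (Q : ℂ[X]) (hQ : Q ≠ 0) (hsym : Sym Q)
    (hroots : ∀ z : ℂ, Q.eval z = 0 → z ≠ 0 ∧ (d : ℝ) * z.im ^ 2 ≤ ‖z‖ ^ 2) :
    ∀ z : ℂ, Jv d (fun j => (j.factorial : ℂ) * Q.coeff j) z = 0 → z.im = 0 := by
  intro z hz
  by_cases h0 : z = 0
  · rw [h0]; simp
  · obtain ⟨-, -, h3⟩ := op_real d Q.natDegree Q rfl hQ hsym hroots (X ^ d) (pow_ne_zero _ X_ne_zero)
      (natDegree_X_pow d) (by
        intro w hw
        rw [eval_pow, eval_X] at hw
        by_cases hd : d = 0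
        · rw [hd, pow_zero] at hw; exact absurd hw one_ne_zero
        · rw [(pow_eq_zero_iff hd).1 hw]; simp)
    have h4 := op_X_pow Q d h0
    rw [hz] at h4
    rcases mul_eq_zero.1 h4 with h | h
    · have := h3 _ h
      rw [Complex.inv_im] at this
      have hn : Complex.normSq z ≠ 0 := (Complex.normSq_pos.2 h0).ne'
      field_simp at this
      linarith
    · exact absurd h (pow_ne_zero d h0)

/-- a real rooted polynomial is not small off the axis -/
lemma lower_rr {p : ℂ[X]} (hp : p ≠ 0) (hr : RealRooted p) {z : ℂ} (hz : z ≠ 0) {d : ℕ}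
    (hd : p.natDegree ≤ d) : ‖p.eval 0‖ * (|z.im| / ‖z‖) ^ d ≤ ‖p.eval z‖ := by
  have hzn : 0 < ‖z‖ := norm_pos_iff.2 hz
  set q : ℝ := |z.im| / ‖z‖ with hq
  have hq0 : 0 ≤ q := by positivity
  have hq1 : q ≤ 1 := by
    rw [hq, div_le_one hzn]
    exact Complex.abs_im_le_norm z
  have key : ∀ s : Multiset ℂ, (∀ r ∈ s, r.im = 0) →
      ‖(Pr s).eval 0‖ * q ^ (Multiset.card s) ≤ ‖(Pr s).eval z‖ := by
    intro s
    induction s using Multiset.induction_on with
    | empty => intro _; simp [Pr_zero]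
    | cons r s ih =>
      intro hs
      have h1 := ih fun r' h' => hs r' (Multiset.mem_cons_of_mem h')
      have hr0 := hs r (Multiset.mem_cons_self r s)
      rw [Pr_cons, eval_mul, eval_mul, norm_mul, norm_mul, Multiset.card_cons, pow_succ]
      have h2 : ‖(X - C r).eval (0 : ℂ)‖ * q ≤ ‖(X - C r).eval z‖ := by
        simp only [eval_sub, eval_X, eval_C, zero_sub, norm_neg]
        rw [hq, mul_div_assoc', div_le_iff₀ hzn]
        have h3 : ((z - r) * starRingEnd ℂ z).im = r.re * z.im := by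
          simp [Complex.mul_im, hr0]
          ring
        have h4 := Complex.abs_im_le_norm ((z - r) * starRingEnd ℂ z)
        rw [h3, norm_mul, Complex.norm_conj, abs_mul] at h4
        have h5 : ‖r‖ = |r.re| := by
          have : r = (r.re : ℂ) := by apply Complex.ext <;> simp [hr0]
          rw [this, Complex.norm_real]; simp
        rw [h5]
        exact h4
      calc ‖(X - C r).eval (0 : ℂ)‖ * ‖(Pr s).eval 0‖ * (q ^ Multiset.card s * q)
          = (‖(X - C r).eval (0 : ℂ)‖ * q) * (‖(Pr s).eval 0‖ * q ^ Multiset.card s) := by ring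
        _ ≤ ‖(X - C r).eval z‖ * ‖(Pr s).eval z‖ :=
            mul_le_mul h2 h1 (by positivity) (norm_nonneg _)
  have hdeg : Multiset.card p.roots = p.natDegree := splits_iff_card_roots.1 (IsAlgClosed.splits p)
  have h1 := key p.roots fun r hrr => hr r ((mem_roots hp).1 hrr)
  rw [hdeg] at h1
  have e := eq_Pr p
  have e0 : ‖p.eval 0‖ = ‖p.leadingCoeff‖ * ‖(Pr p.roots).eval 0‖ := by
    conv_lhs => rw [e]
    rw [eval_mul, eval_C, norm_mul]
  have e1 : ‖p.eval z‖ = ‖p.leadingCoeff‖ * ‖(Pr p.roots).eval z‖ := by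
    conv_lhs => rw [e]
    rw [eval_mul, eval_C, norm_mul]
  rw [e0, e1, mul_assoc]
  refine mul_le_mul_of_nonneg_left ?_ (norm_nonneg _)
  refine le_trans ?_ h1
  refine mul_le_mul_of_nonneg_left ?_ (norm_nonneg _)
  exact pow_le_pow_of_le_one hq0 hq1 hd

/-- limits of real rooted Jensen polynomials -/
theorem lim_rr (d : ℕ) (g : ℕ → ℕ → ℂ) (h : ℕ → ℂ)
    (hlim : ∀ j, Filter.Tendsto (fun N => g N j) Filter.atTop (nhds (h j))) (h0 : h 0 ≠ 0)
    (hev : ∀ᶠ N in Filter.atTop, ∀ z : ℂ, Jv d (g N) z = 0 → z.im = 0) :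
    ∀ z : ℂ, Jv d h z = 0 → z.im = 0 := by
  intro z hz
  by_contra him
  have hz0 : z ≠ 0 := by rintro rfl; simp at him
  have hJlim : Filter.Tendsto (fun N => Jv d (g N) z) Filter.atTop (nhds (Jv d h z)) := by
    unfold Jv
    refine tendsto_finsetSum _ fun j _ => ?_
    exact ((hlim j).const_mul _).mul_const _
  have hb : ∀ᶠ N in Filter.atTop, ‖g N 0‖ * (|z.im| / ‖z‖) ^ d ≤ ‖Jv d (g N) z‖ := by
    have hne : ∀ᶠ N in Filter.atTop, g N 0 ≠ 0 := (hlim 0).eventually_ne h0
    filter_upwards [hev, hne] with N hN hN0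
    set p : ℂ[X] := ∑ j ∈ Finset.range (d + 1), C ((d.choose j : ℂ) * g N j) * X ^ j with hp
    have hev2 : ∀ w : ℂ, p.eval w = Jv d (g N) w := by
      intro w
      rw [hp, eval_finsetSum, Jv]
      refine Finset.sum_congr rfl fun j _ => ?_
      simp
    have hJ0 : Jv d (g N) 0 = g N 0 := by
      rw [Jv, Finset.sum_range_succ']
      simp
    have hp0 : p ≠ 0 := by
      intro h
      have := hev2 0
      rw [h, eval_zero, hJ0] at this
      exact hN0 this.symm
    have hdeg : p.natDegree ≤ d := by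
      rw [hp]
      refine natDegree_sum_le_of_forall_le _ _ fun j hj => ?_
      refine (natDegree_C_mul_X_pow_le _ _).trans ?_
      rw [Finset.mem_range] at hj
      omega
    have := lower_rr hp0 (fun w hw => hN w (by rw [← hev2]; exact hw)) hz0 hdeg
    rw [hev2, hev2, hJ0] at this
    exact this
  have hl : Filter.Tendsto (fun N => ‖g N 0‖ * (|z.im| / ‖z‖) ^ d) Filter.atTop
      (nhds (‖h 0‖ * (|z.im| / ‖z‖) ^ d)) := ((hlim 0).norm).mul_const _
  have hle := le_of_tendsto_of_tendsto hl hJlim.norm hb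
  rw [hz, norm_zero] at hle
  have h1 : 0 < ‖h 0‖ := norm_pos_iff.2 h0
  have h2 : 0 < |z.im| := abs_pos.2 him
  have h3 : 0 < ‖z‖ := norm_pos_iff.2 hz0
  have : 0 < ‖h 0‖ * (|z.im| / ‖z‖) ^ d := by positivity
  linarith

/-! ### Jensen circles -/

lemma sym_derivative {p : ℂ[X]} (h : Sym p) : Sym (derivative p) := by
  have hmap : p.map (starRingEnd ℂ) = p := by
    apply Polynomial.funext
    intro z
    have := h (starRingEnd ℂ z)
    rw [Complex.conj_conj] at this
    rw [this]
    have h2 : (p.map (starRingEnd ℂ)).eval (starRingEnd ℂ (starRingEnd ℂ z)) =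
        starRingEnd ℂ (p.eval (starRingEnd ℂ z)) := by
      rw [eval_map, eval₂_hom]
    rw [Complex.conj_conj] at h2
    exact h2
  intro z
  have h2 : ((derivative p).map (starRingEnd ℂ)).eval (starRingEnd ℂ z) =
      starRingEnd ℂ ((derivative p).eval z) := by
    rw [eval_map, eval₂_hom]
  rw [← h2, ← derivative_map, hmap]

/-- Jensen: a nonreal critical point lies in a Jensen disc of a nonreal zero -/
theorem jensen_disc {p : ℂ[X]} (hp : p ≠ 0) (hdeg : 0 < p.natDegree) (hsym : Sym p) {z : ℂ}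
    (hz : (derivative p).eval z = 0) (him : z.im ≠ 0) :
    ∃ w : ℂ, p.eval w = 0 ∧ w.im ≠ 0 ∧ z.im ^ 2 + (z.re - w.re) ^ 2 ≤ w.im ^ 2 := by
  by_cases hpz : p.eval z = 0
  · exact ⟨z, hpz, him, by simp⟩
  by_contra hcon
  push Not at hcon
  obtain ⟨h1, -⟩ := ratio_eq hp hpz
  have hS : S1 p.roots z = 0 := by
    rw [hz] at h1
    rcases mul_eq_zero.1 h1.symm with h | h
    · exact absurd h hpz
    · exact h
  have hpz' : p.eval (starRingEnd ℂ z) ≠ 0 := by
    rw [hsym]; intro h
    exact hpz ((map_eq_zero _).1 h)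
  obtain ⟨h2, -⟩ := ratio_eq hp hpz'
  have hS' : S1 p.roots (starRingEnd ℂ z) = 0 := by
    rw [sym_derivative hsym, hz, map_zero] at h2
    rcases mul_eq_zero.1 h2.symm with h | h
    · exact absurd h hpz'
    · exact h
  have hsum : ∑ i : p.roots, ((1 / (z - (i : ℂ))).im * z.im +
      -(1 / (starRingEnd ℂ z - (i : ℂ))).im * z.im) = 0 := by
    have a1 : (∑ i : p.roots, (1 / (z - (i : ℂ)))) = 0 := by rw [← hS, S1, sum_type]
    have a2 : (∑ i : p.roots, (1 / (starRingEnd ℂ z - (i : ℂ)))) = 0 := by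
      rw [← hS', S1, sum_type]
    rw [Finset.sum_add_distrib, ← Finset.sum_mul, ← Finset.sum_mul, Finset.sum_neg_distrib,
      ← Complex.im_sum, ← Complex.im_sum, a1, a2]
    simp
  have hneg : ∑ i : p.roots, ((1 / (z - (i : ℂ))).im * z.im +
      -(1 / (starRingEnd ℂ z - (i : ℂ))).im * z.im) < 0 := by
    refine Finset.sum_neg (fun i _ => ?_) ?_
    · set r : ℂ := (i : ℂ) with hr
      have hroot : p.eval r = 0 := (mem_roots hp).1 (Multiset.coe_mem (x := i))
      have hout : r.im ^ 2 < z.im ^ 2 + (z.re - r.re) ^ 2 := by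
        by_cases hrim : r.im = 0
        · rw [hrim]
          have := sq_nonneg (z.re - r.re)
          have : 0 < z.im ^ 2 := by positivity
          nlinarith
        · exact hcon r hroot hrim
      have hne1 : z - r ≠ 0 := by
        intro h
        have : z = r := sub_eq_zero.1 h
        exact hpz (by rw [this]; exact hroot)
      have hne2 : starRingEnd ℂ z - r ≠ 0 := by
        intro h
        have : starRingEnd ℂ z = r := sub_eq_zero.1 h
        exact hpz' (by rw [this]; exact hroot)
      have n1 : 0 < (z.re - r.re) ^ 2 + (z.im - r.im) ^ 2 := by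
        have := Complex.normSq_pos.2 hne1
        rw [Complex.normSq_apply] at this
        simp only [sub_re, sub_im] at this
        nlinarith
      have n2 : 0 < (z.re - r.re) ^ 2 + (z.im + r.im) ^ 2 := by
        have := Complex.normSq_pos.2 hne2
        rw [Complex.normSq_apply] at this
        simp only [sub_re, sub_im, conj_re, conj_im] at this
        nlinarith
      have e1 : (1 / (z - r)).im = -(z.im - r.im) / ((z.re - r.re) ^ 2 + (z.im - r.im) ^ 2) := by
        rw [one_div, Complex.inv_im, Complex.normSq_apply]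
        simp only [sub_re, sub_im]
        congr 1
        ring
      have e2 : (1 / (starRingEnd ℂ z - r)).im =
          (z.im + r.im) / ((z.re - r.re) ^ 2 + (z.im + r.im) ^ 2) := by
        rw [one_div, Complex.inv_im, Complex.normSq_apply]
        simp only [sub_re, sub_im, conj_re, conj_im]
        congr 1
        · ring
        · ring
      rw [e1, e2]
      have e3 : -(z.im - r.im) / ((z.re - r.re) ^ 2 + (z.im - r.im) ^ 2) * z.im +
          -((z.im + r.im) / ((z.re - r.re) ^ 2 + (z.im + r.im) ^ 2)) * z.im =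
          -(2 * z.im ^ 2 * (z.im ^ 2 + (z.re - r.re) ^ 2 - r.im ^ 2)) /
            (((z.re - r.re) ^ 2 + (z.im - r.im) ^ 2) * ((z.re - r.re) ^ 2 + (z.im + r.im) ^ 2)) := by
        have m1 := n1.ne'
        have m2 := n2.ne'
        field_simp
        ring
      rw [e3]
      apply div_neg_of_neg_of_pos
      · have : 0 < z.im ^ 2 := by positivity
        have h3 : 0 < z.im ^ 2 + (z.re - r.re) ^ 2 - r.im ^ 2 := by linarith
        have := mul_pos this h3
        nlinarith
      · exact mul_pos n1 n2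
    · have hc : Multiset.card p.roots = p.natDegree := splits_iff_card_roots.1 (IsAlgClosed.splits p)
      refine Finset.univ_nonempty_iff.2 (Fintype.card_pos_iff.1 ?_)
      rw [card_type, hc]
      exact hdeg
  linarith

lemma sym_iter {p : ℂ[X]} (h : Sym p) (n : ℕ) : Sym (derivative^[n] p) := by
  induction n with
  | zero => exact h
  | succ n ih => rw [Function.iterate_succ_apply']; exact sym_derivative ih

/-- chain of Jensen discs -/
theorem chain {p : ℂ[X]} (hsym : Sym p) (m : ℕ) : ∀ k : ℕ, m + k < p.natDegree → ∀ z : ℂ,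
    (derivative^[m + (k + 1)] p).eval z = 0 → z.im ≠ 0 →
    ∃ w : ℂ, (derivative^[m] p).eval w = 0 ∧ w.im ≠ 0 ∧
      z.im ^ 2 + (z.re - w.re) ^ 2 / (k + 1) ≤ w.im ^ 2 := by
  have hdeg : ∀ j : ℕ, j < p.natDegree →
      derivative^[j] p ≠ 0 ∧ 0 < (derivative^[j] p).natDegree := by
    intro j hj
    have h1 : (derivative^[j] p).natDegree = p.natDegree - j := by
      clear hj
      induction j with
      | zero => simp
      | succ j ih => rw [Function.iterate_succ_apply', natDegree_derivative, ih]; omega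
    constructor
    · intro h
      rw [h, natDegree_zero] at h1
      omega
    · omega
  intro k
  induction k with
  | zero =>
    intro hk z hz him
    rw [show m + (0 + 1) = m + 1 by ring, Function.iterate_succ_apply'] at hz
    obtain ⟨d1, d2⟩ := hdeg m (by omega)
    obtain ⟨w, hw, hwi, hle⟩ := jensen_disc d1 d2 (sym_iter hsym m) hz him
    exact ⟨w, hw, hwi, by simpa using hle⟩
  | succ k ih =>
    intro hk z hz him
    rw [show m + (k + 1 + 1) = (m + (k + 1)) + 1 by ring, Function.iterate_succ_apply'] at hz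
    obtain ⟨d1, d2⟩ := hdeg (m + (k + 1)) (by omega)
    obtain ⟨v, hv, hvi, hle⟩ := jensen_disc d1 d2 (sym_iter hsym _) hz him
    obtain ⟨w, hw, hwi, hle2⟩ := ih (by omega) v hv hvi
    refine ⟨w, hw, hwi, ?_⟩
    push_cast
    have hk0 : (0 : ℝ) < k + 1 := by positivity
    have h3 : (z.re - w.re) ^ 2 / ((k : ℝ) + 1 + 1) ≤ (z.re - v.re) ^ 2 + (v.re - w.re) ^ 2 / (k + 1) := by
      rw [div_le_iff₀ (by positivity)]
      have e : ((z.re - v.re) ^ 2 + (v.re - w.re) ^ 2 / (k + 1)) * ((k : ℝ) + 1 + 1) -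
          (z.re - w.re) ^ 2 = ((k + 1) * (z.re - v.re) - (v.re - w.re)) ^ 2 / (k + 1) := by
        field_simp
        ring
      have : 0 ≤ ((k + 1) * (z.re - v.re) - (v.re - w.re)) ^ 2 / ((k : ℝ) + 1) := by positivity
      linarith
    linarith

end Pool.Agent.Helper54.Xm
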