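import Pool.Agent.Helper54.Xm.Alg2

set_option autoImplicit false

open Polynomial Complex

namespace Pool.Agent.Helper54.Xm

/-- the parabolic region -/
def KK : Set ℂ := {z : ℂ | z.re + z.im ^ 2 ≤ 1 / 4}

lemma KK_convex : Convex ℝ KK := by
  intro x hx y hy a b ha hb hab
  simp only [KK, Set.mem_ofPred_eq, add_re, add_im, real_smul, mul_re, mul_im, ofReal_re,
    ofReal_im, zero_mul, sub_zero, add_zero] at *
  have hb' : b = 1 - a := by linarith
  subst hb'
  have h1 : (a * x.im + (1 - a) * y.im) ^ 2 ≤ a * x.im ^ 2 + (1 - a) * y.im ^ 2 := by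
    have : a * x.im ^ 2 + (1 - a) * y.im ^ 2 - (a * x.im + (1 - a) * y.im) ^ 2 =
      a * (1 - a) * (x.im - y.im) ^ 2 := by ring
    have h2 : 0 ≤ a * (1 - a) * (x.im - y.im) ^ 2 := by positivity
    linarith
  nlinarith

lemma gl_step {p : ℂ[X]} (hdeg : 0 < p.natDegree) (h : ∀ z, p.eval z = 0 → z ∈ KK) :
    ∀ z, (derivative p).eval z = 0 → z ∈ KK := by
  intro z hz
  have hp : p ≠ 0 := by rintro rfl; simp at hdeg
  have hdp : derivative p ≠ 0 := by
    intro h0
    have := derivative_eq_zero.1 h0
    omega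
  have h1 : z ∈ (derivative p).rootSet ℂ := by
    rw [mem_rootSet]
    exact ⟨hdp, by simpa using hz⟩
  have h2 := rootSet_derivative_subset_convexHull_rootSet (P := p)
    (natDegree_pos_iff_degree_pos.1 hdeg) h1
  refine convexHull_min ?_ KK_convex h2
  intro w hw
  rw [mem_rootSet] at hw
  exact h w (by simpa using hw.2)

lemma natDegree_iter (p : ℂ[X]) (j : ℕ) : (derivative^[j] p).natDegree = p.natDegree - j := by
  induction j with
  | zero => simp
  | succ j ih => rw [Function.iterate_succ_apply', natDegree_derivative, ih]; omega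

lemma iter_ne_zero {p : ℂ[X]} (hp : p ≠ 0) {j : ℕ} (hj : j ≤ p.natDegree) :
    derivative^[j] p ≠ 0 := by
  rcases Nat.lt_or_ge j p.natDegree with h | h
  · intro h0
    have h1 := natDegree_iter p j
    rw [h0, natDegree_zero] at h1
    omega
  · have : j = p.natDegree := by omega
    subst this
    rcases Nat.eq_zero_or_pos p.natDegree with h0 | h0
    · rw [h0]; exact hp
    · intro h1
      obtain ⟨k, hk⟩ : ∃ k, p.natDegree = k + 1 := ⟨p.natDegree - 1, by omega⟩
      rw [hk, Function.iterate_succ_apply'] at h1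
      have h2 := derivative_eq_zero.1 h1
      rw [natDegree_iter] at h2
      omega

lemma gl {p : ℂ[X]} (h : ∀ z, p.eval z = 0 → z ∈ KK) : ∀ n : ℕ, n ≤ p.natDegree →
    ∀ z, (derivative^[n] p).eval z = 0 → z ∈ KK := by
  intro n
  induction n with
  | zero => intro _; exact h
  | succ n ih =>
    intro hn z hz
    rw [Function.iterate_succ_apply'] at hz
    refine gl_step ?_ (ih (by omega)) z hz
    rw [natDegree_iter]
    omega

/-- basic facts about one polynomial at the point `1` -/
lemma at_one {q : ℂ[X]} (hsym : Sym q) (hroots : ∀ z, q.eval z = 0 → z ∈ KK)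
    (hdeg : 0 < q.natDegree) (hpos : 0 < (q.eval 1).re) :
    0 < ((derivative q).eval 1).re ∧
    ((derivative (derivative q)).eval 1).re * (q.eval 1).re ≤ ((derivative q).eval 1).re ^ 2 ∧
    (∀ z, q.eval z = 0 → (1 / (1 - z)).re * (q.eval 1).re ≤ ((derivative q).eval 1).re) ∧
    (∀ z, q.eval z = 0 → 0 < (1 / (1 - z)).re) ∧
    ((S1 q.roots 1).re * (q.eval 1).re = ((derivative q).eval 1).re) := by
  have hq : q ≠ 0 := by rintro rfl; simp at hdeg
  have hne : q.eval 1 ≠ 0 := by intro h; rw [h] at hpos; simp at hpos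
  obtain ⟨h1, h2⟩ := ratio_eq hq hne
  have him : ∀ p : ℂ[X], Sym p → (p.eval 1).im = 0 := by
    intro p hp
    have := hp 1
    rw [map_one] at this
    exact Complex.conj_eq_iff_im.1 this.symm
  have i0 := him q hsym
  have i1 := him _ (sym_derivative hsym)
  have i2 := him _ (sym_derivative (sym_derivative hsym))
  have hroot : ∀ z, q.eval z = 0 → 0 < (1 / (1 - z)).re ∧ 0 ≤ (1 / (1 - z) ^ 2).re := by
    intro z hz
    have hk := hroots z hz
    simp only [KK, Set.mem_ofPred_eq] at hk
    have hx : 0 < 1 - z.re := by nlinarith [sq_nonneg z.im]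
    have hne1 : (1 : ℂ) - z ≠ 0 := by
      intro h
      have := congrArg Complex.re h
      simp at this
      linarith
    have hn : 0 < Complex.normSq (1 - z) := Complex.normSq_pos.2 hne1
    constructor
    · rw [one_div, Complex.inv_re]
      have : (1 - z).re = 1 - z.re := by simp
      rw [this]
      positivity
    · rw [one_div, Complex.inv_re]
      apply div_nonneg _ (Complex.normSq_nonneg _)
      rw [sq, Complex.mul_re]
      simp only [sub_re, one_re, sub_im, one_im]
      nlinarith [sq_nonneg (z.re - 1/2), sq_nonneg z.im]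
  have hS1re : 0 < (S1 q.roots 1).re := by
    rw [S1, sum_type, Complex.re_sum]
    refine Finset.sum_pos (fun i _ => (hroot _ ((mem_roots hq).1 Multiset.coe_mem)).1) ?_
    refine Finset.univ_nonempty_iff.2 (Fintype.card_pos_iff.1 ?_)
    rw [card_type, splits_iff_card_roots.1 (IsAlgClosed.splits q)]
    exact hdeg
  have hS2re : 0 ≤ (S2 q.roots 1).re := by
    rw [S2, sum_type, Complex.re_sum]
    exact Finset.sum_nonneg fun i _ => (hroot _ ((mem_roots hq).1 Multiset.coe_mem)).2
  have hd1 : ((derivative q).eval 1).re = (q.eval 1).re * (S1 q.roots 1).re := by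
    rw [h1, Complex.mul_re, i0]; ring
  have hS1im : (S1 q.roots 1).im = 0 := by
    have := congrArg Complex.im h1
    rw [i1, Complex.mul_im, i0] at this
    have h3 : (q.eval 1).re * (S1 q.roots 1).im = 0 := by linarith
    rcases mul_eq_zero.1 h3 with h | h
    · exact absurd h hpos.ne'
    · exact h
  have hd2 : ((derivative (derivative q)).eval 1).re =
      (q.eval 1).re * ((S1 q.roots 1).re ^ 2 - (S2 q.roots 1).re) := by
    rw [h2, Complex.mul_re, i0, sub_re, sq, Complex.mul_re, hS1im]; ring
  refine ⟨by rw [hd1]; positivity, ?_, ?_, fun z hz => (hroot z hz).1, by rw [hd1]; ring⟩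
  · rw [hd2, hd1]
    have h3 : (q.eval 1).re * ((S1 q.roots 1).re ^ 2 - (S2 q.roots 1).re) * (q.eval 1).re =
      ((q.eval 1).re * (S1 q.roots 1).re) ^ 2 - (q.eval 1).re ^ 2 * (S2 q.roots 1).re := by ring
    rw [h3]
    have : 0 ≤ (q.eval 1).re ^ 2 * (S2 q.roots 1).re := by positivity
    linarith
  · intro z hz
    rw [hd1, mul_comm]
    refine mul_le_mul_of_nonneg_left ?_ hpos.le
    rw [S1, sum_type, Complex.re_sum]
    have hmem : z ∈ q.roots := (mem_roots hq).2 hz
    obtain ⟨i, hi⟩ : ∃ i : q.roots, (i : ℂ) = z := by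
      have := Multiset.map_univ_coe q.roots
      rw [← this] at hmem
      obtain ⟨i, -, hi⟩ := Multiset.mem_map.1 hmem
      exact ⟨i, hi⟩
    have := Finset.single_le_sum (f := fun i : q.roots => (1 / (1 - (i : ℂ))).re)
      (fun i _ => (hroot _ ((mem_roots hq).1 Multiset.coe_mem)).1.le) (Finset.mem_univ i)
    refine le_trans (le_of_eq ?_) this
    show _ = (1 / (1 - (i : ℂ))).re
    rw [hi]

/-- hypotheses on approximating polynomials -/
structure Good (p : ℂ[X]) : Prop where
  sym : Sym p
  roots : ∀ z, p.eval z = 0 → z ∈ KK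
  pos : 0 < (p.eval 1).re

/-- the value of the `j`-th derivative at one -/
noncomputable def rr (p : ℂ[X]) (j : ℕ) : ℝ := ((derivative^[j] p).eval 1).re

lemma Good.ne_zero {p : ℂ[X]} (h : Good p) : p ≠ 0 := by
  rintro rfl
  have := h.pos
  simp at this

lemma Good.rr_pos {p : ℂ[X]} (h : Good p) : ∀ j : ℕ, j ≤ p.natDegree → 0 < rr p j := by
  intro j
  induction j with
  | zero => intro _; exact h.pos
  | succ j ih =>
    intro hj
    have h1 := at_one (sym_iter h.sym j) (gl h.roots j (by omega)) (by rw [natDegree_iter]; omega)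
      (ih (by omega))
    unfold rr
    rw [Function.iterate_succ_apply']
    exact h1.1

lemma Good.rr_nonneg {p : ℂ[X]} (h : Good p) (j : ℕ) : 0 ≤ rr p j := by
  rcases Nat.lt_or_ge p.natDegree j with h1 | h1
  · have : derivative^[j] p = 0 := iterate_derivative_eq_zero h1
    unfold rr
    rw [this]; simp
  · exact (h.rr_pos j h1).le

lemma Good.rr_log {p : ℂ[X]} (h : Good p) (j : ℕ) : rr p (j + 2) * rr p j ≤ rr p (j + 1) ^ 2 := by
  rcases Nat.lt_or_ge j p.natDegree with h1 | h1
  · have h2 := at_one (sym_iter h.sym j) (gl h.roots j (by omega)) (by rw [natDegree_iter]; omega)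
      (h.rr_pos j h1.le)
    have h3 := h2.2.1
    unfold rr
    rw [Function.iterate_succ_apply', Function.iterate_succ_apply']
    exact h3
  · have : derivative^[j + 2] p = 0 := iterate_derivative_eq_zero (by omega)
    unfold rr
    rw [this]
    simp
    positivity

/-- the logarithmic derivative at one of the `j`-th derivative -/
noncomputable def SS (p : ℂ[X]) (j : ℕ) : ℝ := rr p (j + 1) / rr p j

lemma Good.SS_pos {p : ℂ[X]} (h : Good p) {j : ℕ} (hj : j < p.natDegree) : 0 < SS p j :=
  div_pos (h.rr_pos _ (by omega)) (h.rr_pos _ (by omega))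

lemma Good.SS_anti {p : ℂ[X]} (h : Good p) {j : ℕ} (hj : j < p.natDegree) : SS p (j + 1) ≤ SS p j := by
  unfold SS
  rw [div_le_div_iff₀ (h.rr_pos _ (by omega)) (h.rr_pos _ (by omega))]
  have := h.rr_log j
  linarith [this, sq (rr p (j + 1))]

lemma Good.SS_anti' {p : ℂ[X]} (h : Good p) {j : ℕ} : ∀ k : ℕ, j + k ≤ p.natDegree →
    SS p (j + k) ≤ SS p j := by
  intro k
  induction k with
  | zero => intro _; exact le_refl _
  | succ k ih =>
    intro hk
    rw [← Nat.add_assoc]
    exact (h.SS_anti (j := j + k) (by omega)).trans (ih (by omega))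

lemma Good.rr_lower {p : ℂ[X]} (h : Good p) {n : ℕ} (hn : n < p.natDegree) :
    rr p 0 * SS p n ^ n ≤ rr p n := by
  have key : ∀ j : ℕ, j ≤ n → rr p 0 * SS p n ^ j ≤ rr p j := by
    intro j
    induction j with
    | zero => intro _; simp
    | succ j ih =>
      intro hj
      have h1 := ih (by omega)
      have h2 : SS p n ≤ SS p j := by
        have := h.SS_anti' (j := j) (n - j) (by omega)
        rwa [show j + (n - j) = n by omega] at this
      have h3 : rr p (j + 1) = rr p j * SS p j := by
        unfold SS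
        have := (h.rr_pos j (by omega)).ne'
        field_simp
      rw [h3, pow_succ, ← mul_assoc]
      exact mul_le_mul h1 h2 (h.SS_pos hn).le (h.rr_nonneg j)
  exact key n le_rfl

lemma Good.upper {p : ℂ[X]} (h : Good p) {n : ℕ} {ρ : ℝ} (hρ : 0 ≤ ρ) :
    rr p n * ρ ^ n ≤ n.factorial * (p.eval ((1 : ℂ) + ρ)).re := by
  have h1 : p.eval ((1 : ℂ) + ρ) = ∑ i ∈ Finset.range ((taylor 1 p).natDegree + 1),
      (taylor 1 p).coeff i * (ρ : ℂ) ^ i := by
    rw [← eval_eq_sum_range, taylor_eval, add_comm]
  have hc : ∀ i, (i.factorial : ℂ) * (taylor 1 p).coeff i = (derivative^[i] p).eval 1 := by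
    intro i
    rw [taylor_coeff]
    have := congrArg (fun f => (f p).eval (1 : ℂ)) (factorial_smul_hasseDeriv (R := ℂ) (k := i))
    simp only [LinearMap.smul_apply, eval_smul] at this
    rw [← nsmul_eq_mul]
    exact this
  have hre : ∀ i, ((taylor 1 p).coeff i * (ρ : ℂ) ^ i).re = rr p i / i.factorial * ρ ^ i := by
    intro i
    have h2 : (taylor 1 p).coeff i = (derivative^[i] p).eval 1 / (i.factorial : ℂ) := by
      rw [← hc i]
      have : (i.factorial : ℂ) ≠ 0 := by exact_mod_cast i.factorial_ne_zero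
      field_simp
    rw [h2, ← ofReal_pow, Complex.re_mul_ofReal]
    congr 1
    have : ((i.factorial : ℝ) : ℂ) = (i.factorial : ℂ) := by push_cast; rfl
    rw [← this, Complex.div_ofReal_re]
    rfl
  have h3 : (p.eval ((1 : ℂ) + ρ)).re = ∑ i ∈ Finset.range ((taylor 1 p).natDegree + 1),
      rr p i / i.factorial * ρ ^ i := by
    rw [h1, Complex.re_sum]
    exact Finset.sum_congr rfl fun i _ => hre i
  have hnn : ∀ i, 0 ≤ rr p i / i.factorial * ρ ^ i := fun i => by
    have := h.rr_nonneg i
    positivity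
  by_cases hn : n < (taylor 1 p).natDegree + 1
  · have h4 : rr p n / n.factorial * ρ ^ n ≤ (p.eval ((1 : ℂ) + ρ)).re := by
      rw [h3]
      exact Finset.single_le_sum (f := fun i => rr p i / i.factorial * ρ ^ i) (fun i _ => hnn i)
        (Finset.mem_range.2 hn)
    have hf : (0 : ℝ) < n.factorial := by exact_mod_cast n.factorial_pos
    calc rr p n * ρ ^ n = n.factorial * (rr p n / n.factorial * ρ ^ n) := by field_simp
      _ ≤ _ := by gcongr
  · have h5 : rr p n = 0 := by
      have h6 : derivative^[n] p = 0 := iterate_derivative_eq_zero (by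
        rw [natDegree_taylor] at hn; omega)
      unfold rr
      rw [h6]; simp
    rw [h5, zero_mul]
    have : 0 ≤ (p.eval ((1 : ℂ) + ρ)).re := by
      rw [h3]
      exact Finset.sum_nonneg fun i _ => hnn i
    positivity

/-- zeros of the `n`-th derivative are far from the origin -/
theorem Good.far {p : ℂ[X]} (h : Good p) {n : ℕ} (hn : n < p.natDegree) {z : ℂ}
    (hz : (derivative^[n] p).eval z = 0) : 1 ≤ 2 * SS p n * (1 - z.re) := by
  have h1 := at_one (sym_iter h.sym n) (gl h.roots n (by omega)) (by rw [natDegree_iter]; omega)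
      (h.rr_pos n hn.le)
  have h2 := h1.2.2.1 z hz
  have hk := gl h.roots n (by omega) z hz
  simp only [KK, Set.mem_ofPred_eq] at hk
  have hx : 0 < 1 - z.re := by nlinarith [sq_nonneg z.im]
  have h3 : 1 / (2 * (1 - z.re)) ≤ (1 / (1 - z)).re := by
    rw [one_div (1 - z), Complex.inv_re, Complex.normSq_apply]
    simp only [sub_re, one_re, sub_im, one_im]
    rw [div_le_div_iff₀ (by positivity) (by nlinarith)]
    nlinarith [sq_nonneg (z.re - 1/2), sq_nonneg z.im]
  have h4 : SS p n = ((derivative (derivative^[n] p)).eval 1).re / ((derivative^[n] p).eval 1).re := by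
    unfold SS rr
    rw [Function.iterate_succ_apply']
  have h5 : (1 / (1 - z)).re ≤ SS p n := by
    have hp0 : 0 < ((derivative^[n] p).eval 1).re := h.rr_pos n hn.le
    rw [h4, le_div_iff₀ hp0]
    exact h2
  have h6 := h3.trans h5
  rw [div_le_iff₀ (by positivity)] at h6
  linarith

/-- the value at the origin is not much smaller than the value at one -/
theorem Good.at_zero {p : ℂ[X]} (h : Good p) {n : ℕ} (hn : n < p.natDegree)
    (hS : SS p n ≤ 1 / 4) :
    rr p n * Real.exp (-(2 * SS p n)) ≤ ‖(derivative^[n] p).eval 0‖ := by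
  have h1 := at_one (sym_iter h.sym n) (gl h.roots n (by omega)) (by rw [natDegree_iter]; omega)
      (h.rr_pos n hn.le)
  set q := derivative^[n] p with hq
  have hq0 : q ≠ 0 := iter_ne_zero h.ne_zero (by omega)
  have hrpos : 0 < (q.eval 1).re := h.rr_pos n hn.le
  have h4 : SS p n = ((derivative q).eval 1).re / (q.eval 1).re := by
    unfold SS rr
    rw [Function.iterate_succ_apply']
  have hSS : SS p n = (S1 q.roots 1).re := by
    rw [h4, ← h1.2.2.2.2]
    field_simp
  have hsmall : ∀ z ∈ q.roots, 0 < (1 / (1 - z)).re ∧ (1 / (1 - z)).re ≤ 1 / 4 := by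
    intro z hz
    have hz' : q.eval z = 0 := (mem_roots hq0).1 hz
    refine ⟨h1.2.2.2.1 z hz', ?_⟩
    refine le_trans ?_ hS
    rw [h4, le_div_iff₀ hrpos]
    exact h1.2.2.1 z hz'
  have key : ∀ s : Multiset ℂ, (∀ z ∈ s, 0 < (1 / (1 - z)).re ∧ (1 / (1 - z)).re ≤ 1 / 4) →
      ‖(Pr s).eval 1‖ * Real.exp (-(2 * (S1 s 1).re)) ≤ ‖(Pr s).eval 0‖ := by
    intro s
    induction s using Multiset.induction_on with
    | empty => intro _; simp [Pr_zero, S1_zero]
    | cons r s ih =>
      intro hs
      have h5 := ih fun r' h' => hs r' (Multiset.mem_cons_of_mem h')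
      obtain ⟨h6, h7⟩ := hs r (Multiset.mem_cons_self r s)
      rw [Pr_cons, S1_cons, eval_mul, eval_mul, norm_mul, norm_mul, add_re]
      have h8 : ‖(X - C r).eval (1 : ℂ)‖ * Real.exp (-(2 * (1 / (1 - r)).re)) ≤
          ‖(X - C r).eval (0 : ℂ)‖ := by
        simp only [eval_sub, eval_X, eval_C, zero_sub, norm_neg]
        set u := 1 / (1 - r) with hu
        have hne1 : (1 : ℂ) - r ≠ 0 := by
          intro h0
          rw [hu, h0] at h6
          simp at h6
        have hr2 : ‖r‖ = ‖1 - r‖ * ‖1 - u‖ * 1 := by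
          have e : (1 - r) * (1 - u) = -r := by rw [hu]; field_simp; ring
          rw [← norm_mul, e, norm_neg, mul_one]
        rw [hr2, mul_one]
        refine mul_le_mul_of_nonneg_left ?_ (norm_nonneg _)
        have h9 : 1 - 2 * u.re ≤ ‖1 - u‖ ^ 2 := by
          rw [← Complex.normSq_eq_norm_sq, Complex.normSq_apply]
          simp only [sub_re, one_re, sub_im, one_im]
          nlinarith [sq_nonneg u.re, sq_nonneg u.im]
        have h10 : Real.exp (-(4 * u.re)) ≤ 1 - 2 * u.re := by
          -- convexity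
          have h11 : Real.exp (-(4 * u.re)) * (1 + 4 * u.re) ≤ 1 := by
            have := Real.add_one_le_exp (4 * u.re)
            calc Real.exp (-(4 * u.re)) * (1 + 4 * u.re) ≤
                Real.exp (-(4 * u.re)) * Real.exp (4 * u.re) := by
                  refine mul_le_mul_of_nonneg_left ?_ (Real.exp_pos _).le
                  linarith
              _ = 1 := by rw [← Real.exp_add]; simp
          have h12 : 1 ≤ (1 - 2 * u.re) * (1 + 4 * u.re) := by nlinarith
          have h13 : 0 < 1 + 4 * u.re := by linarith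
          by_contra hcon
          push Not at hcon
          have := mul_lt_mul_of_pos_right hcon h13
          linarith
        have h14 : Real.exp (-(2 * u.re)) ^ 2 ≤ ‖1 - u‖ ^ 2 := by
          rw [← Real.exp_nat_mul]
          refine le_trans (le_of_eq ?_) (h10.trans h9)
          congr 1
          push_cast
          ring
        exact le_of_sq_le_sq h14 (norm_nonneg _)
      rw [show -(2 * ((1 / (1 - r)).re + (S1 s 1).re)) = -(2 * (1 / (1 - r)).re) + -(2 * (S1 s 1).re) by
        ring, Real.exp_add]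
      calc ‖(X - C r).eval (1 : ℂ)‖ * ‖(Pr s).eval 1‖ *
            (Real.exp (-(2 * (1 / (1 - r)).re)) * Real.exp (-(2 * (S1 s 1).re)))
          = (‖(X - C r).eval (1 : ℂ)‖ * Real.exp (-(2 * (1 / (1 - r)).re))) *
            (‖(Pr s).eval 1‖ * Real.exp (-(2 * (S1 s 1).re))) := by ring
        _ ≤ _ := mul_le_mul h8 h5 (by positivity) (norm_nonneg _)
  have h5 := key q.roots hsmall
  have e := eq_Pr q
  have e0 : ‖q.eval 0‖ = ‖q.leadingCoeff‖ * ‖(Pr q.roots).eval 0‖ := by
    conv_lhs => rw [e]
    rw [eval_mul, eval_C, norm_mul]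
  have e1 : ‖q.eval 1‖ = ‖q.leadingCoeff‖ * ‖(Pr q.roots).eval 1‖ := by
    conv_lhs => rw [e]
    rw [eval_mul, eval_C, norm_mul]
  have e2 : rr p n ≤ ‖q.eval 1‖ := Complex.re_le_norm _
  rw [hSS]
  calc rr p n * Real.exp (-(2 * (S1 q.roots 1).re)) ≤
      ‖q.eval 1‖ * Real.exp (-(2 * (S1 q.roots 1).re)) := by gcongr
    _ = ‖q.leadingCoeff‖ * (‖(Pr q.roots).eval 1‖ * Real.exp (-(2 * (S1 q.roots 1).re))) := by
        rw [e1]; ring
    _ ≤ ‖q.leadingCoeff‖ * ‖(Pr q.roots).eval 0‖ := by gcongr
    _ = _ := by rw [e0]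

end Pool.Agent.Helper54.Xm
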