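import Pool.Agent.Helper54.Xm.Approx

set_option autoImplicit false

open Polynomial Complex Filter Topology Metric

namespace Pool.Agent.Helper54.Xm

lemma Good.rr_succ_le {p : ℂ[X]} (h : Good p) (j : ℕ) : ∀ k : ℕ,
    rr p (j + k) ≤ rr p j * SS p j ^ k := by
  have hS0 : 0 ≤ SS p j := div_nonneg (h.rr_nonneg _) (h.rr_nonneg _)
  intro k
  induction k with
  | zero => simp
  | succ k ih =>
    rcases Nat.lt_or_ge (j + k) p.natDegree with h1 | h1
    · have h2 := h.SS_anti' (j := j) k (by omega)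
      have h3 : rr p (j + k + 1) = rr p (j + k) * SS p (j + k) := by
        unfold SS
        have := (h.rr_pos (j + k) (by omega)).ne'
        field_simp
      rw [← Nat.add_assoc, h3, pow_succ, ← mul_assoc]
      exact mul_le_mul ih h2 (h.SS_pos h1).le (by have := h.rr_nonneg j; positivity)
    · have : derivative^[j + (k + 1)] p = 0 := iterate_derivative_eq_zero (by omega)
      unfold rr
      rw [this]
      have := h.rr_nonneg j
      have h5 : 0 ≤ ((derivative^[j] p).eval 1).re := this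
      simp only [eval_zero, zero_re]
      positivity

/-- the conclusion of `approx` -/
structure Conv (F : ℂ → ℂ) (P : ℕ → ℂ[X]) : Prop where
  diff : Differentiable ℂ F
  good : ∀ N, Good (P N)
  conv : TendstoLocallyUniformlyOn (fun N z => (P N).eval z) F atTop Set.univ
  pos : 0 < (F 1).re
  np : ∀ n, ∃ z, iteratedDeriv n F z ≠ 0

variable {F : ℂ → ℂ} {P : ℕ → ℂ[X]}

lemma Conv.iter (h : Conv F P) (j : ℕ) :
    TendstoLocallyUniformlyOn (fun N z => (derivative^[j] (P N)).eval z) (iteratedDeriv j F)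
      atTop Set.univ := by
  induction j with
  | zero => simpa using h.conv
  | succ j ih =>
    have h1 := ih.deriv (Eventually.of_forall fun N =>
      ((derivative^[j] (P N)).differentiable.differentiableOn)) isOpen_univ
    rw [iteratedDeriv_succ]
    refine h1.congr fun N z _ => ?_
    show deriv (fun z => (derivative^[j] (P N)).eval z) z = _
    rw [Function.iterate_succ_apply']
    exact Polynomial.deriv _

lemma Conv.at_pt (h : Conv F P) (j : ℕ) (z : ℂ) :
    Tendsto (fun N => (derivative^[j] (P N)).eval z) atTop (𝓝 (iteratedDeriv j F z)) :=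
  (h.iter j).tendsto_at (Set.mem_univ z)

lemma Conv.at_one (h : Conv F P) (j : ℕ) :
    Tendsto (fun N => rr (P N) j) atTop (𝓝 (iteratedDeriv j F 1).re) :=
  (Complex.continuous_re.tendsto _).comp (h.at_pt j 1)

lemma Conv.nonneg (h : Conv F P) (j : ℕ) : 0 ≤ (iteratedDeriv j F 1).re :=
  ge_of_tendsto' (h.at_one j) fun N => (h.good N).rr_nonneg j

lemma Conv.im_zero (h : Conv F P) (j : ℕ) : (iteratedDeriv j F 1).im = 0 := by
  have h1 : Tendsto (fun N => ((derivative^[j] (P N)).eval 1).im) atTop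
      (𝓝 (iteratedDeriv j F 1).im) := (Complex.continuous_im.tendsto _).comp (h.at_pt j 1)
  have h2 : ∀ N, ((derivative^[j] (P N)).eval 1).im = 0 := by
    intro N
    have := sym_iter (h.good N).sym j 1
    rw [map_one] at this
    exact Complex.conj_eq_iff_im.1 this.symm
  simp_rw [h2] at h1
  exact (tendsto_nhds_unique h1 tendsto_const_nhds)

lemma Conv.entire (h : Conv F P) (j : ℕ) : Differentiable ℂ (iteratedDeriv j F) := by
  induction j with
  | zero => simpa using h.diff
  | succ j ih =>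
    rw [iteratedDeriv_succ]
    exact fun z => (ih.analyticAt z).deriv.differentiableAt

lemma Conv.pos_iter (h : Conv F P) (j : ℕ) : 0 < (iteratedDeriv j F 1).re := by
  induction j with
  | zero => simpa using h.pos
  | succ j ih =>
    by_contra hcon
    have h0 : (iteratedDeriv (j + 1) F 1).re = 0 := le_antisymm (not_lt.1 hcon) (h.nonneg _)
    have hSS : Tendsto (fun N => SS (P N) j) atTop (𝓝 0) := by
      have h1 := (h.at_one (j + 1)).div (h.at_one j) ih.ne'
      rw [h0, zero_div] at h1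
      exact h1
    have hall : ∀ k, iteratedDeriv (j + 1 + k) F 1 = 0 := by
      intro k
      have h2 : Tendsto (fun N => rr (P N) j * SS (P N) j ^ (k + 1)) atTop (𝓝 0) := by
        have := (h.at_one j).mul (hSS.pow (k + 1))
        simpa using this
      have h3 : (iteratedDeriv (j + 1 + k) F 1).re ≤ 0 := by
        refine le_of_tendsto_of_tendsto' (h.at_one (j + 1 + k)) h2 fun N => ?_
        have := (h.good N).rr_succ_le j (k + 1)
        rwa [show j + (k + 1) = j + 1 + k by ring] at this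
      apply Complex.ext
      · exact le_antisymm h3 (h.nonneg _)
      · exact h.im_zero _
    obtain ⟨z, hz⟩ := h.np (j + 1)
    apply hz
    have h4 := Complex.taylorSeries_eq_of_entire' (c := 1) (z := z) (h.entire (j + 1))
    rw [← h4]
    have : ∀ k, iteratedDeriv k (iteratedDeriv (j + 1) F) 1 = 0 := by
      intro k
      have h5 := hall k
      rw [iteratedDeriv_eq_iterate, add_comm, Function.iterate_add_apply] at h5
      rw [iteratedDeriv_eq_iterate, iteratedDeriv_eq_iterate]
      exact h5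
    simp [this]

lemma Conv.deg (h : Conv F P) (n : ℕ) : ∀ᶠ N in atTop, n < (P N).natDegree := by
  filter_upwards [(h.at_one (n + 1)).eventually (lt_mem_nhds (h.pos_iter (n + 1)))] with N hN
  by_contra hcon
  have : derivative^[n + 1] (P N) = 0 := iterate_derivative_eq_zero (by omega)
  unfold rr at hN
  rw [this] at hN
  simp at hN

/-- bound for the logarithmic derivative at one -/
lemma Conv.SS_le (h : Conv F P) {C : ℝ} (hC : 0 ≤ C)
    (hgr : ∀ z, ‖F z‖ ≤ Real.exp (C * (1 + ‖z‖) ^ (3 / 5 : ℝ))) :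
    ∃ K : ℝ, 1 ≤ K ∧ ∀ n : ℕ, 1 ≤ n → ∀ᶠ N in atTop, SS (P N) n ≤ K * (n : ℝ) ^ (-(2 / 3 : ℝ)) := by
  set a := (F 1).re with ha
  have ha0 : 0 < a := h.pos
  set K0 := max 1 (4 / a) with hK0
  refine ⟨K0 * Real.exp (2 * C), ?_, ?_⟩
  · have h1 : 1 ≤ K0 := le_max_left _ _
    have h2 : 1 ≤ Real.exp (2 * C) := Real.one_le_exp (by positivity)
    nlinarith
  intro n hn
  have hn1 : (1 : ℝ) ≤ n := by exact_mod_cast hn
  have hn0 : (0 : ℝ) < n := by linarith
  set ρ : ℝ := (n : ℝ) ^ (5 / 3 : ℝ) with hρ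
  have hρ1 : 1 ≤ ρ := Real.one_le_rpow hn1 (by norm_num)
  have hFρ : (F (1 + (ρ : ℂ))).re ≤ Real.exp (2 * C * n) := by
    refine (Complex.re_le_norm _).trans ((hgr _).trans (Real.exp_le_exp.2 ?_))
    have h1 : 1 + ‖(1 : ℂ) + ρ‖ ≤ 3 * ρ := by
      have : ‖(1 : ℂ) + ρ‖ ≤ 1 + ρ := by
        refine (norm_add_le _ _).trans ?_
        rw [norm_one, Complex.norm_real, Real.norm_of_nonneg (by linarith)]
      linarith
    have h2 : (1 + ‖(1 : ℂ) + ρ‖) ^ (3 / 5 : ℝ) ≤ 2 * n := by
      refine (Real.rpow_le_rpow (by positivity) h1 (by norm_num)).trans ?_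
      rw [Real.mul_rpow (by norm_num) (by linarith), hρ, ← Real.rpow_mul hn0.le]
      norm_num
      have : (3 : ℝ) ^ (3 / 5 : ℝ) ≤ 2 := by
        have h3 : ((3 : ℝ) ^ (3 / 5 : ℝ)) ^ (5 : ℕ) ≤ 2 ^ (5 : ℕ) := by
          rw [← Real.rpow_natCast, ← Real.rpow_mul (by norm_num)]
          norm_num
        exact le_of_pow_le_pow_left₀ (by norm_num) (by norm_num) h3
      nlinarith
    calc C * (1 + ‖(1 : ℂ) + ρ‖) ^ (3 / 5 : ℝ) ≤ C * (2 * n) := by gcongr
      _ = 2 * C * n := by ring
  have hlim : Tendsto (fun N => ((P N).eval (1 + (ρ : ℂ))).re) atTop (𝓝 (F (1 + (ρ : ℂ))).re) := by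
    have := (Complex.continuous_re.tendsto _).comp (h.at_pt 0 (1 + (ρ : ℂ)))
    simpa [Function.comp_def] using this
  have hlim1 : Tendsto (fun N => rr (P N) 0) atTop (𝓝 a) := by
    have := h.at_one 0
    simpa using this
  have e2 : 0 < Real.exp (2 * C * n) := Real.exp_pos _
  filter_upwards [h.deg n, hlim.eventually (gt_mem_nhds (show (F (1 + (ρ : ℂ))).re <
    2 * Real.exp (2 * C * n) by linarith)), hlim1.eventually (lt_mem_nhds (show a / 2 < a by linarith))]
    with N b1 b2 b3
  have hg := h.good N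
  have c1 := hg.rr_lower b1
  have c2 := hg.upper (n := n) (ρ := ρ) (by linarith)
  have hSp := hg.SS_pos b1
  by_contra hcon
  push Not at hcon
  set S := SS (P N) n with hS
  have hfac : (n.factorial : ℝ) ≤ (n : ℝ) ^ n := by exact_mod_cast Nat.factorial_le_pow n
  have c3 : a / 2 * S ^ n * ρ ^ n < (n : ℝ) ^ n * (2 * Real.exp (2 * C * n)) := by
    calc a / 2 * S ^ n * ρ ^ n ≤ rr (P N) 0 * S ^ n * ρ ^ n := by gcongr
      _ ≤ rr (P N) n * ρ ^ n := by gcongr
      _ ≤ n.factorial * ((P N).eval (1 + (ρ : ℂ))).re := c2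
      _ < n.factorial * (2 * Real.exp (2 * C * n)) := by
          have : (0 : ℝ) < n.factorial := by exact_mod_cast n.factorial_pos
          gcongr
      _ ≤ _ := by gcongr
  have c4 : (K0 * Real.exp (2 * C) * (n : ℝ) ^ (-(2 / 3 : ℝ))) ^ n ≤ S ^ n := by
    have : 0 ≤ K0 := le_trans zero_le_one (le_max_left _ _)
    exact pow_le_pow_left₀ (by positivity) hcon.le n
  have c5 : (K0 * Real.exp (2 * C) * (n : ℝ) ^ (-(2 / 3 : ℝ))) ^ n * ρ ^ n =
      K0 ^ n * Real.exp (2 * C * n) * (n : ℝ) ^ n := by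
    rw [← mul_pow, hρ, mul_assoc, ← Real.rpow_add hn0]
    have : (-(2 / 3 : ℝ) + 5 / 3) = 1 := by norm_num
    rw [this, Real.rpow_one, mul_pow, mul_pow, ← Real.exp_nat_mul]
    congr 2
    congr 1
    ring
  have c6 : 4 / a ≤ K0 ^ n := by
    have h1 : 1 ≤ K0 := le_max_left _ _
    calc 4 / a ≤ K0 := le_max_right _ _
      _ = K0 ^ 1 := (pow_one _).symm
      _ ≤ K0 ^ n := pow_le_pow_right₀ h1 hn
  have c7 : 4 / a * Real.exp (2 * C * n) * (n : ℝ) ^ n ≤ S ^ n * ρ ^ n := by
    calc 4 / a * Real.exp (2 * C * n) * (n : ℝ) ^ n ≤ K0 ^ n * Real.exp (2 * C * n) * (n : ℝ) ^ n := by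
          gcongr
      _ = (K0 * Real.exp (2 * C) * (n : ℝ) ^ (-(2 / 3 : ℝ))) ^ n * ρ ^ n := c5.symm
      _ ≤ S ^ n * ρ ^ n := by gcongr
  have c8 : a / 2 * (4 / a * Real.exp (2 * C * n) * (n : ℝ) ^ n) ≤ a / 2 * (S ^ n * ρ ^ n) := by gcongr
  have c9 : a / 2 * (4 / a * Real.exp (2 * C * n) * (n : ℝ) ^ n) =
      (n : ℝ) ^ n * (2 * Real.exp (2 * C * n)) := by
    field_simp
    ring
  rw [c9] at c8
  linarith

/-- Hurwitz type statement for real simple zeros -/
lemma Conv.hurwitz (h : Conv F P) (m : ℕ) {A : Set ℂ} (hA : IsCompact A)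
    (hz : ∀ z ∈ A, iteratedDeriv m F z = 0 → z.im = 0 ∧ iteratedDeriv (m + 1) F z ≠ 0) :
    ∀ᶠ N in atTop, ∀ z ∈ A, (derivative^[m] (P N)).eval z = 0 → z.im = 0 := by
  have hloc : ∀ a ∈ A, ∃ U ∈ 𝓝 a, ∀ᶠ N in atTop, ∀ z ∈ U,
      (derivative^[m] (P N)).eval z = 0 → z.im = 0 := by
    intro a ha
    by_cases hFa : iteratedDeriv m F a = 0
    · obtain ⟨him, hne⟩ := hz a ha hFa
      set b := iteratedDeriv (m + 1) F a with hb
      have hbn : 0 < ‖b‖ := norm_pos_iff.2 hne
      have h1 := (Metric.tendstoLocallyUniformlyOn_iff.1 (h.iter (m + 1))) (‖b‖ / 4) (by positivity) a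
        (Set.mem_univ a)
      obtain ⟨U, hU, hUN⟩ := h1
      rw [nhdsWithin_univ] at hU
      have h2 : ∀ᶠ z in 𝓝 a, dist (iteratedDeriv (m + 1) F z) b < ‖b‖ / 4 :=
        ((h.entire (m + 1)).continuous.tendsto a).eventually (ball_mem_nhds _ (by positivity))
      obtain ⟨δ, hδ, hball⟩ := Metric.eventually_nhds_iff_ball.1
        (h2.and (eventually_mem_set.2 hU))
      refine ⟨ball a δ, ball_mem_nhds a hδ, ?_⟩
      filter_upwards [hUN] with N hN
      intro z hzb hroot
      by_contra himz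
      have hsym := sym_iter (h.good N).sym m
      have hzc : starRingEnd ℂ z ∈ ball a δ := by
        rw [mem_ball, dist_eq_norm] at hzb ⊢
        have : starRingEnd ℂ z - a = starRingEnd ℂ (z - a) := by
          rw [map_sub, Complex.conj_eq_iff_im.2 him]
        rw [this, Complex.norm_conj]
        exact hzb
      have hrootc : (derivative^[m] (P N)).eval (starRingEnd ℂ z) = 0 := by
        rw [hsym, hroot, map_zero]
      have hder : ∀ x ∈ ball a δ, HasDerivWithinAt
          (fun y => (derivative^[m] (P N)).eval y - b * y)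
          ((derivative^[m + 1] (P N)).eval x - b * 1) (ball a δ) x := by
        intro x _
        have e1 : HasDerivAt (fun y => (derivative^[m] (P N)).eval y)
            ((derivative^[m + 1] (P N)).eval x) x := by
          rw [Function.iterate_succ_apply']
          exact Polynomial.hasDerivAt _ x
        exact (e1.sub ((hasDerivAt_id x).const_mul b)).hasDerivWithinAt
      have hbd : ∀ x ∈ ball a δ, ‖(derivative^[m + 1] (P N)).eval x - b * 1‖ ≤ ‖b‖ / 2 := by
        intro x hx
        obtain ⟨a1, a2⟩ := hball x hx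
        have a3 := hN x a2
        rw [dist_eq_norm] at a1 a3
        have : (derivative^[m + 1] (P N)).eval x - b * 1 =
          -(iteratedDeriv (m + 1) F x - (derivative^[m + 1] (P N)).eval x) +
            (iteratedDeriv (m + 1) F x - b) := by ring
        rw [this]
        refine (norm_add_le _ _).trans ?_
        rw [norm_neg]
        linarith
      have := (convex_ball a δ).norm_image_sub_le_of_norm_hasDerivWithin_le hder hbd hzc hzb
      rw [hroot, hrootc] at this
      have e : (0 - b * z - (0 - b * starRingEnd ℂ z)) = -(b * (z - starRingEnd ℂ z)) := by ring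
      rw [e, norm_neg, norm_mul] at this
      have hpos : 0 < ‖z - starRingEnd ℂ z‖ := by
        apply norm_pos_iff.2
        intro h0
        exact himz (Complex.conj_eq_iff_im.1 (sub_eq_zero.1 h0).symm)
      have h3 : ‖b‖ * ‖z - starRingEnd ℂ z‖ > ‖b‖ / 2 * ‖z - starRingEnd ℂ z‖ := by
        apply mul_lt_mul_of_pos_right _ hpos
        linarith
      linarith
    · have hbn : 0 < ‖iteratedDeriv m F a‖ := norm_pos_iff.2 hFa
      have h1 := (Metric.tendstoLocallyUniformlyOn_iff.1 (h.iter m)) (‖iteratedDeriv m F a‖ / 4)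
        (by positivity) a (Set.mem_univ a)
      obtain ⟨U, hU, hUN⟩ := h1
      rw [nhdsWithin_univ] at hU
      have h2 : ∀ᶠ z in 𝓝 a, dist (iteratedDeriv m F z) (iteratedDeriv m F a) <
          ‖iteratedDeriv m F a‖ / 4 :=
        ((h.entire m).continuous.tendsto a).eventually (ball_mem_nhds _ (by positivity))
      refine ⟨U ∩ {z | dist (iteratedDeriv m F z) (iteratedDeriv m F a) <
          ‖iteratedDeriv m F a‖ / 4}, inter_mem hU h2, ?_⟩
      filter_upwards [hUN] with N hN
      intro z hzU hroot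
      exfalso
      have a1 := hN z hzU.1
      have a2 : dist (iteratedDeriv m F z) (iteratedDeriv m F a) < ‖iteratedDeriv m F a‖ / 4 := hzU.2
      rw [hroot, dist_eq_norm, sub_zero] at a1
      rw [dist_eq_norm] at a2
      have : ‖iteratedDeriv m F a‖ ≤ ‖iteratedDeriv m F z‖ +
          ‖iteratedDeriv m F z - iteratedDeriv m F a‖ := by
        calc ‖iteratedDeriv m F a‖ = ‖iteratedDeriv m F z -
            (iteratedDeriv m F z - iteratedDeriv m F a)‖ := by congr 1; ring
          _ ≤ _ := norm_sub_le _ _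
      linarith
  refine hA.induction_on (p := fun S => ∀ᶠ N in atTop, ∀ z ∈ S,
      (derivative^[m] (P N)).eval z = 0 → z.im = 0) ?_ ?_ ?_ ?_
  · simp
  · intro s t hst ht
    filter_upwards [ht] with N hN z hz
    exact hN z (hst hz)
  · intro s t hs ht
    filter_upwards [hs, ht] with N h1 h2 z hz
    rcases hz with hz | hz
    · exact h1 z hz
    · exact h2 z hz
  · intro x hx
    obtain ⟨U, hU, hUN⟩ := hloc x hx
    exact ⟨U, mem_nhdsWithin_of_mem_nhds hU, hUN⟩

end Pool.Agent.Helper54.Xm
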