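import Mathlib

set_option autoImplicit false
set_option maxHeartbeats 1000000

/-!
A smoothing kernel and its weights.
-/

open Complex Filter Topology Set MeasureTheory

namespace Pool.Agent.Helper54.Xm

/-- `(e^{Yζ} - 1)/(Yζ)`, as an entire function -/
noncomputable def kY (Y : ℝ) (ζ : ℂ) : ℂ := (1 / (Y : ℂ)) * dslope (fun ζ : ℂ => cexp (Y * ζ)) 0 ζ

lemma kY_diff (Y : ℝ) : Differentiable ℂ (kY Y) := by
  have h : Differentiable ℂ (fun ζ : ℂ => cexp (Y * ζ)) := by fun_prop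
  have := (Complex.differentiableOn_dslope (s := Set.univ) (c := (0 : ℂ))
    (f := fun ζ : ℂ => cexp (Y * ζ)) univ_mem).2 h.differentiableOn
  exact (differentiableOn_univ.1 this).const_mul _

lemma kY_of_ne {Y : ℝ} (hY : Y ≠ 0) {ζ : ℂ} (hζ : ζ ≠ 0) :
    kY Y ζ = (cexp (Y * ζ) - 1) / (Y * ζ) := by
  unfold kY
  rw [dslope_of_ne _ hζ, slope_def_field]
  have : (Y : ℂ) ≠ 0 := by exact_mod_cast hY
  simp only [mul_zero, Complex.exp_zero, sub_zero]
  field_simp

lemma kY_zero {Y : ℝ} (hY : Y ≠ 0) : kY Y 0 = 1 := by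
  unfold kY
  rw [dslope_same]
  have h1 : HasDerivAt (fun ζ : ℂ => cexp (Y * ζ)) (cexp (Y * 0) * (Y * 1)) 0 :=
    ((hasDerivAt_id (0 : ℂ)).const_mul (Y : ℂ)).cexp
  rw [h1.deriv]
  have : (Y : ℂ) ≠ 0 := by exact_mod_cast hY
  simp
  field_simp

/-- the ramp -/
noncomputable def om (Y b : ℝ) : ℝ := if b ≤ 0 then 1 else 1 - b / Y

lemma om_nonneg {Y b : ℝ} (hY : 0 < Y) (hb : b ≤ Y) : 0 ≤ om Y b := by
  unfold om
  split_ifs with h
  · norm_num
  · rw [sub_nonneg, div_le_one hY]; exact hb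

lemma om_le {Y b : ℝ} (hY : 0 < Y) : om Y b ≤ 1 := by
  unfold om
  split_ifs with h
  · norm_num
  · push Not at h
    have : 0 ≤ b / Y := by positivity
    linarith

lemma om_meas (Y : ℝ) : Measurable (om Y) := by
  unfold om
  apply Measurable.ite measurableSet_Iic measurable_const
  fun_prop

/-- the Gaussian density with variance 2 -/
noncomputable def gd2 (a : ℝ) : ℝ := 1 / (2 * Real.sqrt Real.pi) * Real.exp (-a ^ 2 / 4)

lemma gd2_nonneg (a : ℝ) : 0 ≤ gd2 a := by unfold gd2; positivity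

lemma gd2_int : Integrable gd2 := by
  unfold gd2
  have := (integrable_exp_neg_mul_sq (b := 1 / 4) (by norm_num)).const_mul (1 / (2 * Real.sqrt Real.pi))
  refine this.congr (Eventually.of_forall fun x => ?_)
  simp only; congr 2; ring

lemma gd2_total : ∫ a, gd2 a = 1 := by
  unfold gd2
  rw [integral_const_mul]
  have h : ∫ a : ℝ, Real.exp (-a ^ 2 / 4) = Real.sqrt (Real.pi / (1 / 4)) := by
    rw [← integral_gaussian (1 / 4)]
    congr 1
    funext a; congr 1; ring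
  rw [h, show Real.pi / (1 / 4) = 4 * Real.pi by ring, Real.sqrt_mul (by norm_num),
    show (4 : ℝ) = 2 ^ 2 by norm_num, Real.sqrt_sq (by norm_num)]
  have := Real.sqrt_pos.2 Real.pi_pos
  field_simp

/-- the weights -/
noncomputable def wt (Y ℓ : ℝ) : ℝ := ∫ b in Iic Y, om Y b * gd2 (b - ℓ)

lemma gd2_shift_int (ℓ : ℝ) : Integrable (fun b => gd2 (b - ℓ)) := gd2_int.comp_sub_right ℓ

lemma wt_nonneg {Y : ℝ} (hY : 0 < Y) (ℓ : ℝ) : 0 ≤ wt Y ℓ := by
  unfold wt
  refine setIntegral_nonneg measurableSet_Iic fun b hb => ?_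
  exact mul_nonneg (om_nonneg hY hb) (gd2_nonneg _)

lemma wt_le_tail {Y : ℝ} (hY : 0 < Y) (ℓ : ℝ) : wt Y ℓ ≤ ∫ b in Iic Y, gd2 (b - ℓ) := by
  unfold wt
  refine setIntegral_mono_on ?_ (gd2_shift_int ℓ).integrableOn measurableSet_Iic ?_
  · refine Integrable.mono' (gd2_shift_int ℓ).integrableOn ?_ ?_
    · exact ((om_meas Y).mul (by
        have : Continuous gd2 := by unfold gd2; fun_prop
        exact (this.comp (continuous_id.sub continuous_const)).measurable)).aestronglyMeasurable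
    · refine (ae_restrict_mem measurableSet_Iic).mono fun b hb => ?_
      rw [Real.norm_eq_abs, abs_mul, abs_of_nonneg (om_nonneg hY hb), abs_of_nonneg (gd2_nonneg _)]
      exact mul_le_of_le_one_left (gd2_nonneg _) (om_le hY)
  · intro b hb
    exact mul_le_of_le_one_left (gd2_nonneg _) (om_le hY)

lemma wt_le_one {Y : ℝ} (hY : 0 < Y) (ℓ : ℝ) : wt Y ℓ ≤ 1 := by
  refine (wt_le_tail hY ℓ).trans ?_
  refine (setIntegral_le_integral (gd2_shift_int ℓ)
    (Eventually.of_forall fun b => gd2_nonneg _)).trans ?_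
  rw [integral_sub_right_eq_self (fun b => gd2 b) ℓ, gd2_total]

/-- decay of the weights -/
lemma wt_decay {Y ℓ : ℝ} (hY : 0 < Y) (hℓ : 2 * Y ≤ ℓ) :
    wt Y ℓ ≤ 2 * Real.exp (-ℓ ^ 2 / 32) := by
  refine (wt_le_tail hY ℓ).trans ?_
  have hint : Integrable (fun b : ℝ => Real.exp (-ℓ ^ 2 / 32) *
      (1 / (2 * Real.sqrt Real.pi) * Real.exp (-(1 / 8) * (b - ℓ) ^ 2))) :=
    (((integrable_exp_neg_mul_sq (b := 1 / 8) (by norm_num)).comp_sub_right ℓ).const_mul _).const_mul _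
  have h1 : ∫ b in Iic Y, gd2 (b - ℓ) ≤ ∫ b in Iic Y, Real.exp (-ℓ ^ 2 / 32) *
      (1 / (2 * Real.sqrt Real.pi) * Real.exp (-(1 / 8) * (b - ℓ) ^ 2)) := by
    refine setIntegral_mono_on (gd2_shift_int ℓ).integrableOn hint.integrableOn
      measurableSet_Iic fun b hb => ?_
    rw [mem_Iic] at hb
    unfold gd2
    rw [mul_left_comm]
    refine mul_le_mul_of_nonneg_left ?_ (by positivity)
    rw [← Real.exp_add]
    apply Real.exp_le_exp.2
    have h2 : ℓ / 2 ≤ ℓ - b := by linarith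
    have h3 : 0 ≤ ℓ := by linarith
    nlinarith
  refine h1.trans ?_
  refine (setIntegral_le_integral hint (Eventually.of_forall fun b => by positivity)).trans ?_
  rw [integral_const_mul, integral_const_mul,
    integral_sub_right_eq_self (fun b : ℝ => Real.exp (-(1 / 8) * b ^ 2)) ℓ, integral_gaussian,
    mul_comm]
  refine mul_le_mul_of_nonneg_right ?_ (Real.exp_pos _).le
  rw [show Real.pi / (1 / 8) = 8 * Real.pi by ring, Real.sqrt_mul (by norm_num)]
  have h4 := Real.sqrt_pos.2 Real.pi_pos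
  have h5 : Real.sqrt 8 ≤ 4 := by
    rw [show (4 : ℝ) = Real.sqrt 16 by rw [show (16 : ℝ) = 4 ^ 2 by norm_num]; simp]
    exact Real.sqrt_le_sqrt (by norm_num)
  rw [show 1 / (2 * Real.sqrt Real.pi) * (Real.sqrt 8 * Real.sqrt Real.pi) = Real.sqrt 8 / 2 by
    field_simp]
  linarith

/-- the Laplace transform of the ramp -/
lemma ramp_int {Y : ℝ} (hY : 0 < Y) {ζ : ℂ} (hζ : 0 < ζ.re) :
    IntegrableOn (fun b : ℝ => (om Y b : ℂ) * cexp (ζ * b)) (Iic Y) ∧
    ∫ b in Iic Y, (om Y b : ℂ) * cexp (ζ * b) = (cexp (Y * ζ) - 1) / (Y * ζ ^ 2) := by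
  have hζ0 : ζ ≠ 0 := by rintro rfl; simp at hζ
  have hYc : (Y : ℂ) ≠ 0 := by exact_mod_cast hY.ne'
  have hun : Iic Y = Iic 0 ∪ Ioc 0 Y := (Iic_union_Ioc_eq_Iic hY.le).symm
  have hdis : Disjoint (Iic (0 : ℝ)) (Ioc 0 Y) := Iic_disjoint_Ioc le_rfl
  have i1 : IntegrableOn (fun b : ℝ => (om Y b : ℂ) * cexp (ζ * b)) (Iic 0) := by
    refine (integrableOn_exp_mul_complex_Iic hζ 0).congr_fun ?_ measurableSet_Iic
    intro b hb
    simp only [om, if_pos (mem_Iic.1 hb)]
    simp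
  have i2 : IntegrableOn (fun b : ℝ => (om Y b : ℂ) * cexp (ζ * b)) (Ioc 0 Y) := by
    have h1 : IntegrableOn (fun b : ℝ => (1 - (b : ℂ) / Y) * cexp (ζ * b)) (Ioc 0 Y) := by
      apply Continuous.integrableOn_Ioc
      fun_prop
    refine h1.congr_fun ?_ measurableSet_Ioc
    intro b hb
    simp only [om, if_neg (not_le.2 hb.1)]
    push_cast
    ring
  refine ⟨by rw [hun]; exact i1.union i2, ?_⟩
  rw [hun, setIntegral_union hdis measurableSet_Ioc i1 i2]
  have e1 : ∫ b in Iic (0 : ℝ), (om Y b : ℂ) * cexp (ζ * b) = 1 / ζ := by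
    rw [setIntegral_congr_fun (g := fun b : ℝ => cexp (ζ * b)) measurableSet_Iic (by
      intro b hb
      simp only [om, if_pos (mem_Iic.1 hb)]
      simp), integral_exp_mul_complex_Iic hζ]
    simp
  have e2 : ∫ b in Ioc 0 Y, (om Y b : ℂ) * cexp (ζ * b) =
      (cexp (Y * ζ) - 1) / (Y * ζ ^ 2) - 1 / ζ := by
    rw [setIntegral_congr_fun (g := fun b : ℝ => (1 - (b : ℂ) / Y) * cexp (ζ * b)) measurableSet_Ioc (by
      intro b hb
      simp only [om, if_neg (not_le.2 hb.1)]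
      push_cast
      ring), ← intervalIntegral.integral_of_le hY.le]
    have hd : ∀ x ∈ uIcc 0 Y, HasDerivAt
        (fun b : ℝ => ((1 - (b : ℂ) / Y) / ζ + 1 / (Y * ζ ^ 2)) * cexp (ζ * b))
        ((1 - (x : ℂ) / Y) * cexp (ζ * x)) x := by
      intro x _
      have h1 : HasDerivAt (fun b : ℝ => (b : ℂ)) 1 x := Complex.ofRealCLM.hasDerivAt
      have h2 : HasDerivAt (fun b : ℝ => ((1 - (b : ℂ) / Y) / ζ + 1 / (Y * ζ ^ 2))) (-(1 / Y) / ζ) x := by
        have := (((h1.div_const (Y : ℂ)).const_sub 1).div_const ζ).add_const (1 / (Y * ζ ^ 2))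
        exact this
      have h3 : HasDerivAt (fun b : ℝ => cexp (ζ * b)) (cexp (ζ * x) * (ζ * 1)) x :=
        (h1.const_mul ζ).cexp
      refine (h2.mul h3).congr_deriv ?_
      field_simp
      ring
    rw [intervalIntegral.integral_eq_sub_of_hasDerivAt hd
      (Continuous.intervalIntegrable (by fun_prop) _ _)]
    simp only [ofReal_zero, zero_div, sub_zero, mul_zero, Complex.exp_zero, mul_one]
    rw [div_self hYc, mul_comm ζ (Y : ℂ)]
    field_simp
    ring
  rw [e1, e2]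
  ring

/-- the Gaussian integral on a vertical line -/
lemma gauss_vert (c a : ℝ) : ∫ y : ℝ, cexp (((c : ℂ) + y * I) ^ 2 + a * ((c : ℂ) + y * I)) =
    ((2 * Real.pi * gd2 a : ℝ) : ℂ) := by
  have h := integral_cexp_quadratic (b := -1) (by norm_num) (I * (2 * c + a)) (c ^ 2 + a * c)
  have e : (fun y : ℝ => cexp (((c : ℂ) + y * I) ^ 2 + a * ((c : ℂ) + y * I))) =
      fun x : ℝ => cexp (-1 * (x : ℂ) ^ 2 + I * (2 * c + a) * x + (c ^ 2 + a * c)) := by
    funext y
    congr 1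
    ring_nf
    rw [I_sq]
    ring
  rw [e, h]
  have e2 : ((Real.pi : ℂ) / -(-1)) ^ (1 / 2 : ℂ) = (Real.sqrt Real.pi : ℂ) := by
    rw [neg_neg, div_one, Real.sqrt_eq_rpow, Complex.ofReal_cpow Real.pi_pos.le]
    norm_num
  rw [e2]
  have e3 : ((c : ℂ) ^ 2 + a * c - (I * (2 * c + a)) ^ 2 / (4 * (-1))) = ((-a ^ 2 / 4 : ℝ) : ℂ) := by
    rw [mul_pow, I_sq]
    push_cast
    ring
  rw [e3, ← Complex.ofReal_exp, ← Complex.ofReal_mul]
  congr 1
  unfold gd2
  have h4 := Real.sqrt_pos.2 Real.pi_pos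
  have h5 : Real.sqrt Real.pi * Real.sqrt Real.pi = Real.pi := Real.mul_self_sqrt Real.pi_pos.le
  field_simp
  nlinarith [h5]

/-- **The line integral of the kernel.** -/
theorem line_int {Y c : ℝ} (hY : 0 < Y) (hc : 0 < c) (ℓ : ℝ) :
    ∫ y : ℝ, cexp (-(ℓ : ℂ) * ((c : ℂ) + y * I)) * (cexp (((c : ℂ) + y * I) ^ 2) *
      ((cexp (Y * ((c : ℂ) + y * I)) - 1) / (Y * ((c : ℂ) + y * I) ^ 2))) =
    ((2 * Real.pi * wt Y ℓ : ℝ) : ℂ) := by
  set Φ : ℝ → ℝ → ℂ := fun y b => (om Y b : ℂ) *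
    cexp (((c : ℂ) + y * I) ^ 2 + ((b - ℓ : ℝ) : ℂ) * ((c : ℂ) + y * I)) with hΦ
  have hre : ∀ y : ℝ, 0 < ((c : ℂ) + y * I).re := by intro y; simpa using hc
  have hF : ∀ y : ℝ, ∫ b in Iic Y, Φ y b = cexp (-(ℓ : ℂ) * ((c : ℂ) + y * I)) *
      (cexp (((c : ℂ) + y * I) ^ 2) *
      ((cexp (Y * ((c : ℂ) + y * I)) - 1) / (Y * ((c : ℂ) + y * I) ^ 2))) := by
    intro y
    rw [← (ramp_int hY (hre y)).2, ← mul_assoc, ← integral_const_mul]
    refine integral_congr_ae (Eventually.of_forall fun b => ?_)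
    simp only [hΦ]
    rw [← Complex.exp_add, mul_left_comm, ← Complex.exp_add]
    congr 2
    push_cast
    ring
  have hint : Integrable (Function.uncurry Φ) (volume.prod (volume.restrict (Iic Y))) := by
    have h1 : Integrable (fun y : ℝ => Real.exp (c ^ 2 - ℓ * c) * Real.exp (-1 * y ^ 2)) :=
      (integrable_exp_neg_mul_sq one_pos).const_mul _
    have h2 : Integrable (fun b : ℝ => Real.exp (c * b)) (volume.restrict (Iic Y)) :=
      integrableOn_exp_mul_Iic hc Y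
    have h3 := h1.mul_prod h2
    refine Integrable.mono' h3 ?_ ?_
    · apply Measurable.aestronglyMeasurable
      simp only [hΦ]
      apply Measurable.mul
      · exact Complex.measurable_ofReal.comp ((om_meas Y).comp measurable_snd)
      · apply Continuous.measurable
        fun_prop
    · have hm : ∀ᵐ z : ℝ × ℝ ∂(volume.prod (volume.restrict (Iic Y))), z.2 ≤ Y := by
        have : volume.prod (volume.restrict (Iic Y)) =
            ((volume : Measure ℝ).prod (volume : Measure ℝ)).restrict (univ ×ˢ Iic Y) := by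
          rw [← Measure.prod_restrict, Measure.restrict_univ]
        rw [this]
        refine (ae_restrict_mem (MeasurableSet.univ.prod measurableSet_Iic)).mono fun z hz => hz.2
      refine hm.mono fun z hz => ?_
      obtain ⟨y, b⟩ := z
      simp only [Function.uncurry, hΦ] at hz ⊢
      rw [norm_mul, Complex.norm_real, Real.norm_eq_abs, abs_of_nonneg (om_nonneg hY hz),
        Complex.norm_exp]
      have e : (((c : ℂ) + y * I) ^ 2 + ((b - ℓ : ℝ) : ℂ) * ((c : ℂ) + y * I)).re =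
          (c ^ 2 - ℓ * c) + -1 * y ^ 2 + c * b := by
        simp only [sq, add_re, mul_re, ofReal_re, ofReal_im, I_re, I_im, add_im, mul_im]
        ring
      rw [e, Real.exp_add, Real.exp_add]
      exact mul_le_of_le_one_left (by positivity) (om_le hY)
  have key := integral_integral_swap (f := Φ) hint
  rw [← integral_congr_ae (Eventually.of_forall hF), key]
  have hin : ∀ b : ℝ, ∫ y : ℝ, Φ y b = ((2 * Real.pi * (om Y b * gd2 (b - ℓ)) : ℝ) : ℂ) := by
    intro b
    simp only [hΦ]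
    rw [integral_const_mul, gauss_vert]
    push_cast
    ring
  rw [integral_congr_ae (Eventually.of_forall hin)]
  have e9 : ∫ a in Iic Y, ((2 * Real.pi * (om Y a * gd2 (a - ℓ)) : ℝ) : ℂ) =
      ((∫ a in Iic Y, 2 * Real.pi * (om Y a * gd2 (a - ℓ)) : ℝ) : ℂ) := integral_ofReal
  rw [e9, integral_const_mul]
  rfl

end Pool.Agent.Helper54.Xm
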