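import Pool.Agent.Helper54.Xm.Res
import Pool.Agent.Helper54.Xm.Gk
import Pool.Graph.R_seed8.H370R2.EF

set_option autoImplicit false
set_option maxHeartbeats 1000000

/-!
A local explicit formula for `F'/F(s)`.
-/

open Complex Filter Topology Set MeasureTheory H370

namespace Pool.Agent.Helper54.Xm

/-- the kernel `e^{(z-s)^2} (e^{Y(z-s)} - 1)/(Y(z-s))` -/
noncomputable def hk (Y : ℝ) (s z : ℂ) : ℂ := cexp ((z - s) ^ 2) * kY Y (z - s)

lemma hk_diff (Y : ℝ) (s : ℂ) : Differentiable ℂ (hk Y s) := by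
  unfold hk
  exact (by fun_prop : Differentiable ℂ fun z : ℂ => cexp ((z - s) ^ 2)).mul
    ((kY_diff Y).comp (differentiable_id.sub_const s))

lemma hk_self {Y : ℝ} (hY : Y ≠ 0) (s : ℂ) : hk Y s s = 1 := by
  unfold hk
  rw [sub_self, kY_zero hY]; simp

lemma hk_eq {Y : ℝ} (hY : Y ≠ 0) {s z : ℂ} (hz : z ≠ s) :
    hk Y s z * (z - s)⁻¹ = cexp ((z - s) ^ 2) * ((cexp (Y * (z - s)) - 1) / (Y * (z - s) ^ 2)) := by
  unfold hk
  have h := sub_ne_zero.2 hz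
  rw [kY_of_ne hY h]
  have : (Y : ℂ) ≠ 0 := by exact_mod_cast hY
  field_simp

lemma hk_norm {Y : ℝ} (hY : 0 < Y) {s z : ℂ} (hz : z ≠ s) :
    ‖hk Y s z * (z - s)⁻¹‖ ≤ Real.exp ((z.re - s.re) ^ 2 - (z.im - s.im) ^ 2) *
      ((Real.exp (Y * (z.re - s.re)) + 1) / (Y * ‖z - s‖ ^ 2)) := by
  rw [hk_eq hY.ne' hz, norm_mul, norm_div, norm_mul, norm_pow, Complex.norm_real,
    Real.norm_of_nonneg hY.le, Complex.norm_exp]
  have h := norm_pos_iff.2 (sub_ne_zero.2 hz)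
  have e : ((z - s) ^ 2).re = (z.re - s.re) ^ 2 - (z.im - s.im) ^ 2 := by
    rw [sq, mul_re, sub_re, sub_im]; ring
  rw [e]
  refine mul_le_mul_of_nonneg_left ?_ (Real.exp_pos _).le
  refine div_le_div_of_nonneg_right ?_ (by positivity)
  refine (norm_sub_le _ _).trans ?_
  rw [norm_one, Complex.norm_exp]
  have e2 : ((Y : ℂ) * (z - s)).re = Y * (z.re - s.re) := by
    rw [re_ofReal_mul, sub_re]
  rw [e2]

/-- the kernel at a point of the right line -/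
lemma hk_right {Y : ℝ} (hY : 1 ≤ Y) {s : ℂ} (h1 : 1 / 2 ≤ s.re) (h2 : s.re ≤ 1.1) (v : ℝ) :
    ‖hk Y s ⟨3 / 2, v⟩ * ((⟨3 / 2, v⟩ : ℂ) - s)⁻¹‖ ≤
      (34 * Real.exp Y) * Real.exp (-(v - s.im) ^ 2 / 2) := by
  have hz : (⟨3 / 2, v⟩ : ℂ) ≠ s := by
    intro h
    have := congrArg Complex.re h
    simp only at this
    rw [← this] at h2
    norm_num at h2
  have hY0 : 0 < Y := by linarith
  refine (hk_norm hY0 hz).trans ?_
  have hn : 16 / 100 ≤ ‖(⟨3 / 2, v⟩ : ℂ) - s‖ ^ 2 := by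
    have h3 := Complex.abs_re_le_norm ((⟨3 / 2, v⟩ : ℂ) - s)
    rw [sub_re] at h3
    have h4 : 4 / 10 ≤ |(3 / 2 : ℝ) - s.re| := by
      rw [abs_of_nonneg (by linarith)]; linarith
    have h5 : 4 / 10 ≤ ‖(⟨3 / 2, v⟩ : ℂ) - s‖ := h4.trans h3
    nlinarith
  have hE := Real.exp_pos Y
  have h6 : (Real.exp (Y * (3 / 2 - s.re)) + 1) / (Y * ‖(⟨3 / 2, v⟩ : ℂ) - s‖ ^ 2) ≤
      (2 * Real.exp Y) / (16 / 100) := by
    apply div_le_div₀ (by positivity)
    · have h7 : Real.exp (Y * (3 / 2 - s.re)) ≤ Real.exp Y := by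
        apply Real.exp_le_exp.2
        nlinarith
      have h8 : 1 ≤ Real.exp Y := Real.one_le_exp hY0.le
      linarith
    · norm_num
    · nlinarith
  have h9 : Real.exp ((3 / 2 - s.re) ^ 2 - (v - s.im) ^ 2) ≤
      2.72 * Real.exp (-(v - s.im) ^ 2 / 2) := by
    have h10 : Real.exp 1 ≤ 2.72 := by
      have := Real.exp_one_lt_d9
      linarith
    calc Real.exp ((3 / 2 - s.re) ^ 2 - (v - s.im) ^ 2) ≤ Real.exp (1 + -(v - s.im) ^ 2 / 2) := by
          apply Real.exp_le_exp.2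
          nlinarith [sq_nonneg (v - s.im)]
      _ = Real.exp 1 * Real.exp (-(v - s.im) ^ 2 / 2) := Real.exp_add _ _
      _ ≤ _ := by gcongr
  calc Real.exp ((3 / 2 - s.re) ^ 2 - (v - s.im) ^ 2) *
        ((Real.exp (Y * (3 / 2 - s.re)) + 1) / (Y * ‖(⟨3 / 2, v⟩ : ℂ) - s‖ ^ 2))
      ≤ (2.72 * Real.exp (-(v - s.im) ^ 2 / 2)) * ((2 * Real.exp Y) / (16 / 100)) := by
        apply mul_le_mul h9 h6 (by positivity) (by positivity)
    _ = 34 * Real.exp Y * Real.exp (-(v - s.im) ^ 2 / 2) := by ring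

/-- the kernel at a point of the left line -/
lemma hk_left {Y : ℝ} (hY : 1 ≤ Y) {s : ℂ} (h1 : 1 / 2 ≤ s.re) (h2 : s.re ≤ 1.1) (v : ℝ) :
    ‖hk Y s ⟨-1 / 2, v⟩ * ((⟨-1 / 2, v⟩ : ℂ) - s)⁻¹‖ ≤
      (30 / Y) * Real.exp (-(v - s.im) ^ 2 / 2) := by
  have hz : (⟨-1 / 2, v⟩ : ℂ) ≠ s := by
    intro h
    have := congrArg Complex.re h
    simp only at this
    rw [← this] at h1
    norm_num at h1
  have hY0 : 0 < Y := by linarith
  refine (hk_norm hY0 hz).trans ?_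
  have hn : 1 ≤ ‖(⟨-1 / 2, v⟩ : ℂ) - s‖ ^ 2 := by
    have h3 := Complex.abs_re_le_norm ((⟨-1 / 2, v⟩ : ℂ) - s)
    rw [sub_re] at h3
    have h4 : 1 ≤ |(-1 / 2 : ℝ) - s.re| := by
      rw [abs_of_nonpos (by linarith)]; linarith
    have h5 : 1 ≤ ‖(⟨-1 / 2, v⟩ : ℂ) - s‖ := h4.trans h3
    nlinarith
  have h6 : (Real.exp (Y * (-1 / 2 - s.re)) + 1) / (Y * ‖(⟨-1 / 2, v⟩ : ℂ) - s‖ ^ 2) ≤
      2 / Y := by
    apply div_le_div₀ (by positivity)
    · have h7 : Real.exp (Y * (-1 / 2 - s.re)) ≤ 1 := by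
        rw [Real.exp_le_one_iff]
        nlinarith
      linarith
    · exact hY0
    · nlinarith
  have h9 : Real.exp ((-1 / 2 - s.re) ^ 2 - (v - s.im) ^ 2) ≤
      15 * Real.exp (-(v - s.im) ^ 2 / 2) := by
    have h10 : Real.exp 2.56 ≤ 15 := by
      have h11 : Real.exp 2.56 ≤ Real.exp 1 * Real.exp 1 * Real.exp (0.56) := by
        rw [← Real.exp_add, ← Real.exp_add]
        apply Real.exp_le_exp.2; norm_num
      have h12 : Real.exp 0.56 ≤ 2 := by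
        have h13 : Real.exp 0.56 ≤ Real.exp (Real.log 2) := by
          apply Real.exp_le_exp.2
          have := Real.log_two_gt_d9
          linarith
        rwa [Real.exp_log (by norm_num)] at h13
      have h14 := Real.exp_one_lt_d9
      have h15 := Real.exp_pos 1
      nlinarith [Real.exp_pos 0.56]
    calc Real.exp ((-1 / 2 - s.re) ^ 2 - (v - s.im) ^ 2) ≤ Real.exp (2.56 + -(v - s.im) ^ 2 / 2) := by
          apply Real.exp_le_exp.2
          nlinarith [sq_nonneg (v - s.im)]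
      _ = Real.exp 2.56 * Real.exp (-(v - s.im) ^ 2 / 2) := Real.exp_add _ _
      _ ≤ _ := by gcongr
  calc Real.exp ((-1 / 2 - s.re) ^ 2 - (v - s.im) ^ 2) *
        ((Real.exp (Y * (-1 / 2 - s.re)) + 1) / (Y * ‖(⟨-1 / 2, v⟩ : ℂ) - s‖ ^ 2))
      ≤ (15 * Real.exp (-(v - s.im) ^ 2 / 2)) * (2 / Y) := by
        apply mul_le_mul h9 h6 (by positivity) (by positivity)
    _ = 30 / Y * Real.exp (-(v - s.im) ^ 2 / 2) := by ring

/-- the kernel on the horizontal sides -/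
lemma hk_hor {Y : ℝ} (hY : 1 ≤ Y) {s : ℂ} (h1 : 1 / 2 ≤ s.re) (h2 : s.re ≤ 1.1) {x U W : ℝ}
    (hx : x ∈ Set.Icc (-1 / 2 : ℝ) (3 / 2)) (hW : 1 ≤ W) (hU : W ≤ |U - s.im|) :
    ‖hk Y s ⟨x, U⟩ * ((⟨x, U⟩ : ℂ) - s)⁻¹‖ ≤ 30 * Real.exp Y * Real.exp (-W ^ 2) := by
  have hn0 : W ≤ ‖(⟨x, U⟩ : ℂ) - s‖ := by
    have h3 := Complex.abs_im_le_norm ((⟨x, U⟩ : ℂ) - s)
    rw [sub_im] at h3
    exact hU.trans h3
  have hz : (⟨x, U⟩ : ℂ) ≠ s := by
    intro h
    rw [h, sub_self, norm_zero] at hn0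
    linarith
  have hY0 : 0 < Y := by linarith
  refine (hk_norm hY0 hz).trans ?_
  have hn : 1 ≤ ‖(⟨x, U⟩ : ℂ) - s‖ ^ 2 := by nlinarith
  have hxs : x - s.re ≤ 1 := by linarith [hx.2]
  have hxs2 : -1.6 ≤ x - s.re := by linarith [hx.1]
  have h6 : (Real.exp (Y * (x - s.re)) + 1) / (Y * ‖(⟨x, U⟩ : ℂ) - s‖ ^ 2) ≤ 2 * Real.exp Y := by
    rw [div_le_iff₀ (by positivity)]
    have h7 : Real.exp (Y * (x - s.re)) ≤ Real.exp Y := by
      apply Real.exp_le_exp.2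
      nlinarith
    have h8 : 1 ≤ Real.exp Y := Real.one_le_exp hY0.le
    have h9 : 1 ≤ Y * ‖(⟨x, U⟩ : ℂ) - s‖ ^ 2 := by nlinarith
    nlinarith [Real.exp_pos Y]
  have h9 : Real.exp ((x - s.re) ^ 2 - (U - s.im) ^ 2) ≤ 15 * Real.exp (-W ^ 2) := by
    have h10 : Real.exp 2.56 ≤ 15 := by
      have h11 : Real.exp 2.56 ≤ Real.exp 1 * Real.exp 1 * Real.exp (0.56) := by
        rw [← Real.exp_add, ← Real.exp_add]
        apply Real.exp_le_exp.2; norm_num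
      have h12 : Real.exp 0.56 ≤ 2 := by
        have h13 : Real.exp 0.56 ≤ Real.exp (Real.log 2) := by
          apply Real.exp_le_exp.2
          have := Real.log_two_gt_d9
          linarith
        rwa [Real.exp_log (by norm_num)] at h13
      have h14 := Real.exp_one_lt_d9
      have h15 := Real.exp_pos 1
      nlinarith [Real.exp_pos 0.56]
    calc Real.exp ((x - s.re) ^ 2 - (U - s.im) ^ 2) ≤ Real.exp (2.56 + -W ^ 2) := by
          apply Real.exp_le_exp.2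
          have h12 : W ^ 2 ≤ (U - s.im) ^ 2 := by
            rw [← sq_abs (U - s.im)]; nlinarith
          have h13 : (x - s.re) ^ 2 ≤ 2.56 := by nlinarith
          linarith
      _ = Real.exp 2.56 * Real.exp (-W ^ 2) := Real.exp_add _ _
      _ ≤ _ := by gcongr
  calc Real.exp ((x - s.re) ^ 2 - (U - s.im) ^ 2) *
        ((Real.exp (Y * (x - s.re)) + 1) / (Y * ‖(⟨x, U⟩ : ℂ) - s‖ ^ 2))
      ≤ (15 * Real.exp (-W ^ 2)) * (2 * Real.exp Y) := by
        apply mul_le_mul h9 h6 (by positivity) (by positivity)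
    _ = 30 * Real.exp Y * Real.exp (-W ^ 2) := by ring

/-- the kernel at a zero -/
lemma hk_zero {Y : ℝ} (hY : 1 ≤ Y) {s ρ : ℂ} (h1 : 1 / 2 ≤ s.re) (h2 : s.re ≤ 1.1)
    (hρ0 : 0 < ρ.re) (hρ1 : ρ.re < 1) (hρ : ρ ≠ s) :
    ‖hk Y s ρ * (ρ - s)⁻¹‖ ≤ 4 / Y * ((1 + Real.exp (Y * (ρ.re - s.re))) / ‖ρ - s‖ ^ 2) := by
  have hY0 : 0 < Y := by linarith
  refine (hk_norm hY0 hρ).trans ?_
  have hn := norm_pos_iff.2 (sub_ne_zero.2 hρ)
  have h9 : Real.exp ((ρ.re - s.re) ^ 2 - (ρ.im - s.im) ^ 2) ≤ 4 := by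
    have h10 : Real.exp 1.21 ≤ 4 := by
      have h11 : Real.exp 1.21 ≤ Real.exp 1 * Real.exp (0.21) := by
        rw [← Real.exp_add]
        apply Real.exp_le_exp.2; norm_num
      have h12 : Real.exp 0.21 ≤ 1.25 := by
        have := Real.exp_bound' (x := 0.21) (by norm_num) (by norm_num) (n := 3) (by norm_num)
        refine this.trans ?_
        norm_num [Finset.sum_range_succ, Nat.factorial]
      have h14 := Real.exp_one_lt_d9
      have h15 := Real.exp_pos 1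
      nlinarith [Real.exp_pos 0.21]
    refine le_trans (Real.exp_le_exp.2 ?_) h10
    nlinarith [sq_nonneg (ρ.im - s.im)]
  calc _ ≤ 4 * ((Real.exp (Y * (ρ.re - s.re)) + 1) / (Y * ‖ρ - s‖ ^ 2)) := by
        apply mul_le_mul_of_nonneg_right h9 (by positivity)
    _ = _ := by
        field_simp
        ring

end Pool.Agent.Helper54.Xm
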