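import Pool.Agent.Helper54.Xm.Expl

set_option autoImplicit false
set_option maxHeartbeats 2000000

open Complex Filter Topology Set MeasureTheory H370

namespace Pool.Agent.Helper54.Xm

/-- the smoothed Dirichlet series -/
noncomputable def PS (a : ℕ → ℂ) (Y : ℝ) (s : ℂ) : ℂ :=
  ∑' n : ℕ, a n * (n : ℂ) ^ (-s) * (wt Y (Real.log n) : ℂ)

lemma vert_cont (c : ℝ) : Continuous (fun v : ℝ => (⟨c, v⟩ : ℂ)) := by
  have : (fun v : ℝ => (⟨c, v⟩ : ℂ)) = fun v : ℝ => (c : ℂ) + v * I := by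
    funext v; exact mk_eq c v
  rw [this]; fun_prop

lemma hk_cont_line {Y : ℝ} {s : ℂ} (h2 : s.re ≤ 1.1) :
    Continuous (fun v : ℝ => hk Y s ⟨3 / 2, v⟩ * ((⟨3 / 2, v⟩ : ℂ) - s)⁻¹) := by
  refine ((hk_diff Y s).continuous.comp (vert_cont _)).mul ?_
  apply Continuous.inv₀ ((vert_cont _).sub continuous_const)
  intro v h
  have := congrArg Complex.re (sub_eq_zero.1 h)
  simp only at this
  rw [← this] at h2
  norm_num at h2

lemma PS_integral (a : ℕ → ℂ) (ha : ∀ n, ‖a n‖ ≤ ArithmeticFunction.vonMangoldt n) {Y : ℝ}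
    (hY : 1 ≤ Y) {s : ℂ} (h1 : 1 / 2 ≤ s.re) (h2 : s.re ≤ 1.1) :
    (∫ v : ℝ, DD a (⟨3 / 2, v⟩ : ℂ) * (hk Y s ⟨3 / 2, v⟩ * ((⟨3 / 2, v⟩ : ℂ) - s)⁻¹)) =
      2 * Real.pi * PS a Y s := by
  have hY0 : 0 < Y := by linarith
  set K : ℝ → ℂ := fun v => hk Y s ⟨3 / 2, v⟩ * ((⟨3 / 2, v⟩ : ℂ) - s)⁻¹ with hK
  have hKc : Continuous K := hk_cont_line h2
  set f : ℕ → ℝ → ℂ := fun n v => a n * (n : ℂ) ^ (-(⟨3 / 2, v⟩ : ℂ)) * K v with hf
  have hnb : ∀ n v, ‖f n v‖ ≤ (ArithmeticFunction.vonMangoldt n * (n : ℝ) ^ (-(3 / 2 : ℝ))) *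
      ((34 * Real.exp Y) * Real.exp (-(1 / 2) * (v - s.im) ^ 2)) := by
    intro n v
    simp only [hf]
    rw [norm_mul]
    apply mul_le_mul (norm_npow n v (a n) (ha n)) _ (norm_nonneg _)
      (mul_nonneg ArithmeticFunction.vonMangoldt_nonneg (by positivity))
    refine (hk_right hY h1 h2 v).trans (le_of_eq ?_)
    congr 2; ring
  have hcont : ∀ n, Continuous (f n) := by
    intro n
    rcases Nat.eq_zero_or_pos n with h | h
    · have h0 : a n = 0 := by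
        have h0 : ‖a n‖ ≤ 0 := by simpa [h] using ha n
        exact norm_le_zero_iff.1 h0
      simp only [hf, h0, zero_mul]
      exact continuous_const
    · simp only [hf]
      have : (fun v : ℝ => a n * (n : ℂ) ^ (-(⟨3 / 2, v⟩ : ℂ))) =
          fun v : ℝ => a n * cexp (-((Real.log n : ℝ) : ℂ) * ((3 / 2 : ℝ) + v * I)) := by
        funext v
        rw [H370.term_eq n h, mk_eq]
      refine Continuous.mul ?_ hKc
      rw [this]
      fun_prop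
  have hG : Integrable (fun v : ℝ => (34 * Real.exp Y) * Real.exp (-(1 / 2) * (v - s.im) ^ 2)) :=
    (gauss_int s.im (1 / 2) (by norm_num)).const_mul _
  have hint : ∀ n, Integrable (f n) := fun n =>
    (hG.const_mul (ArithmeticFunction.vonMangoldt n * (n : ℝ) ^ (-(3 / 2 : ℝ)))).mono'
      (hcont n).aestronglyMeasurable (Eventually.of_forall (hnb n))
  have hsum : Summable fun n => ∫ v, ‖f n v‖ := by
    refine Summable.of_nonneg_of_le (fun n => integral_nonneg fun v => norm_nonneg _) (fun n => ?_)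
      (lam_summable.mul_right (∫ v : ℝ, (34 * Real.exp Y) * Real.exp (-(1 / 2) * (v - s.im) ^ 2)))
    rw [← integral_const_mul]
    exact integral_mono (hint n).norm (hG.const_mul _) (fun v => hnb n v)
  have key := hasSum_integral_of_summable_integral_norm hint hsum
  have e1 : (fun v : ℝ => DD a (⟨3 / 2, v⟩ : ℂ) * K v) = fun v => ∑' n, f n v := by
    funext v
    simp only [hf, DD]
    rw [tsum_mul_right]
  rw [e1, ← key.tsum_eq]
  unfold PS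
  rw [← tsum_mul_left]
  congr 1
  funext n
  rcases Nat.eq_zero_or_pos n with h | h
  · have h0 : a n = 0 := by
      have h0 : ‖a n‖ ≤ 0 := by simpa [h] using ha n
      exact norm_le_zero_iff.1 h0
    simp [hf, h0]
  · set c : ℝ := 3 / 2 - s.re with hc
    have hc0 : 0 < c := by rw [hc]; linarith
    have hli := line_int hY0 hc0 (Real.log n)
    have e2 : ∀ v : ℝ, f n (v + s.im) = (a n * (n : ℂ) ^ (-s)) *
        (cexp (-((Real.log n : ℝ) : ℂ) * ((c : ℂ) + v * I)) * (cexp (((c : ℂ) + v * I) ^ 2) *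
        ((cexp (Y * ((c : ℂ) + v * I)) - 1) / (Y * ((c : ℂ) + v * I) ^ 2)))) := by
      intro v
      simp only [hf, hK]
      have hz : (⟨3 / 2, v + s.im⟩ : ℂ) - s = (c : ℂ) + v * I := by
        apply Complex.ext <;> simp [hc]
      have hne : (⟨3 / 2, v + s.im⟩ : ℂ) ≠ s := by
        intro hh
        rw [hh, sub_self] at hz
        have := congrArg Complex.re hz
        simp at this
        linarith
      rw [hk_eq hY0.ne' hne, hz, H370.term_eq n h, H370.term_eq n h]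
      have e3 : cexp (-((Real.log n : ℝ) : ℂ) * (⟨3 / 2, v + s.im⟩ : ℂ)) =
          cexp (-((Real.log n : ℝ) : ℂ) * s) * cexp (-((Real.log n : ℝ) : ℂ) * ((c : ℂ) + v * I)) := by
        rw [← Complex.exp_add, ← hz]
        congr 1
        ring
      rw [e3]
      ring
    rw [← integral_add_right_eq_self (fun v => f n v) s.im]
    simp_rw [e2]
    rw [integral_const_mul, hli]
    push_cast
    ring

/-- exponential smallness -/
lemma small_W {L T W : ℝ} (hL : 20 ≤ L) (hT : T = Real.exp L) (hW : W = T / 2 - 1) :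
    Real.exp L * (L ^ 2 * Real.exp (-W ^ 2 / 4)) ≤ 1 := by
  have h1 : L ^ 2 ≤ Real.exp (2 * L) := by
    have h := Real.add_one_le_exp L
    have h2 : L ≤ Real.exp L := by linarith
    calc L ^ 2 ≤ (Real.exp L) ^ 2 := by
          apply pow_le_pow_left₀ (by linarith) h2
      _ = Real.exp (2 * L) := by rw [← Real.exp_nat_mul]; norm_num
  have hLT : 4 * L ≤ T := by
    rw [hT]
    have h3 := Real.quadratic_le_exp_of_nonneg (show 0 ≤ L by linarith)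
    nlinarith
  have hWL : 2 * L - 1 ≤ W := by rw [hW]; linarith
  calc Real.exp L * (L ^ 2 * Real.exp (-W ^ 2 / 4))
      ≤ Real.exp L * (Real.exp (2 * L) * Real.exp (-W ^ 2 / 4)) := by gcongr
    _ = Real.exp (L + (2 * L + -W ^ 2 / 4)) := by rw [← Real.exp_add, ← Real.exp_add]
    _ ≤ 1 := by
        rw [Real.exp_le_one_iff]
        nlinarith

theorem expl {F : ℂ → ℂ} (hF : GoodL F) :
    ∃ a : ℕ → ℂ, (∀ n, ‖a n‖ ≤ ArithmeticFunction.vonMangoldt n) ∧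
    ∃ C T0 : ℝ, 0 < C ∧ 10 ≤ T0 ∧ ∀ T : ℝ, T0 ≤ T → ∀ s : ℂ, T ≤ s.im → s.im ≤ 2 * T →
      1 / 2 ≤ s.re → s.re ≤ 1.1 → F s ≠ 0 → ∀ Y : ℝ, 1 ≤ Y → Y ≤ Real.log T →
      ∃ U1 U2 : ℝ, T / 2 ≤ U1 ∧ U2 ≤ 3 * T ∧ 1 ≤ U1 ∧
        ‖deriv F s / F s + PS a Y s‖ ≤
          4 / Y * ∑ᶠ ρ ∈ zset F U1 U2, (mult F ρ : ℝ) *
            ((1 + Real.exp (Y * (ρ.re - s.re))) / ‖ρ - s‖ ^ 2) + C * (Real.log T / Y + 1) := by
  obtain ⟨a, ha, hld⟩ := hF.ld
  obtain ⟨C1, hC1, hgh⟩ := good_height hF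
  obtain ⟨C2', hleft'⟩ := hF.left
  set C2 := max C2' 0 with hC2
  have hC20 : 0 ≤ C2 := le_max_right _ _
  have hleft : ∀ s : ℂ, -1 / 2 ≤ s.re → s.re ≤ 1 / 2 → 1 ≤ s.im → F s ≠ 0 →
    ‖deriv F s / F s + Real.log s.im +
      (starRingEnd ℂ) (deriv F (1 - (starRingEnd ℂ) s) / F (1 - (starRingEnd ℂ) s))‖ ≤ C2 :=
    fun s h1 h2 h3 h4 => (hleft' s h1 h2 h3 h4).trans (le_max_left _ _)
  have hD0 := D0_nonneg
  refine ⟨a, ha, 480 * C1 + 136 * D0 + 120 * (3 + C2 + D0) + 1, Real.exp 20, by positivity, ?_, ?_⟩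
  · have := Real.add_one_le_exp (20 : ℝ)
    linarith
  intro T hT s ht1 ht2 hs1 hs2 hFs Y hY hYL
  have hTpos : 0 < T := (Real.exp_pos _).trans_le hT
  have hY0 : 0 < Y := by linarith
  set L := Real.log T with hL
  have hTL : T = Real.exp L := (Real.exp_log hTpos).symm
  have hL20 : 20 ≤ L := by
    rw [hL, Real.le_log_iff_exp_le hTpos]; exact hT
  have hT21 : 21 ≤ T := by
    have := Real.add_one_le_exp (20 : ℝ)
    linarith
  set W := T / 2 - 1 with hW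
  have hsm := small_W hL20 hTL hW
  obtain ⟨U1, hU1, hg1⟩ := hgh (T / 2) (by linarith)
  obtain ⟨U2, hU2, hg2⟩ := hgh (3 * T - 1) (by linarith)
  have hU2' : U2 ≤ 3 * T := by linarith [hU2.2]
  refine ⟨U1, U2, hU1.1, hU2', by linarith [hU1.1], ?_⟩
  have hU12 : U1 < U2 := by linarith [hU1.2, hU2.1]
  have hW1 : U1 ≤ s.im - W := by linarith [hU1.2]
  have hW2 : s.im + W ≤ U2 := by linarith [hU2.1]
  have hW0 : 1 ≤ W := by linarith
  have hK : ∀ z ∈ Set.Icc (-1 / 2 : ℝ) (3 / 2) ×ℂ Set.Icc U1 U2, 1 ≤ z.im ∧ U1 ≤ z.im ∧ z.im ≤ U2 ∧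
      -1 / 2 ≤ z.re ∧ z.re ≤ 3 / 2 := by
    intro z hs
    obtain ⟨h1, h2⟩ := hs
    rw [mem_preimage] at h1 h2
    exact ⟨by linarith [h2.1, hU1.1], h2.1, h2.2, h1.1, h1.2⟩
  have hzero : ∀ z ∈ Set.Icc (-1 / 2 : ℝ) (3 / 2) ×ℂ Set.Icc U1 U2, F z = 0 →
      0 < z.re ∧ z.re < 1 ∧ U1 < z.im ∧ z.im < U2 := by
    intro z hs h0
    obtain ⟨h1, h2, h3, h4, h5⟩ := hK z hs
    refine ⟨?_, ?_, ?_, ?_⟩
    · by_contra hc
      exact hF.nzl z (not_lt.1 hc) h1 h0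
    · by_contra hc
      exact hF.nzr z (not_lt.1 hc) h1 h0
    · refine lt_of_le_of_ne h2 (fun he => ?_)
      have := (hg1 z.re ⟨h4, h5⟩).1
      rw [he] at this
      exact this h0
    · refine lt_of_le_of_ne h3 (fun he => ?_)
      have := (hg2 z.re ⟨h4, h5⟩).1
      rw [← he] at this
      exact this h0
  have hFan : AnalyticOnNhd ℂ F (Set.Icc (-1 / 2 : ℝ) (3 / 2) ×ℂ Set.Icc U1 U2) :=
    fun z hs => hF.an z (by linarith [(hK z hs).1])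
  have hbd : ∀ z ∈ Set.Icc (-1 / 2 : ℝ) (3 / 2) ×ℂ Set.Icc U1 U2, F z = 0 →
      z ∈ Set.Ioo (-1 / 2 : ℝ) (3 / 2) ×ℂ Set.Ioo U1 U2 := by
    intro z hs h0
    obtain ⟨h1, h2, h3, h4⟩ := hzero z hs h0
    exact ⟨⟨by linarith, by linarith⟩, ⟨h3, h4⟩⟩
  have hsin : s ∈ Set.Ioo (-1 / 2 : ℝ) (3 / 2) ×ℂ Set.Ioo U1 U2 :=
    ⟨⟨by linarith, by linarith⟩, ⟨by linarith, by linarith⟩⟩
  have hres := rect_residue_pole F (hk Y s) (-1 / 2) (3 / 2) U1 U2 (by norm_num) hU12 hFan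
    (hk_diff Y s) hbd hsin hFs
  have hset : {z | z ∈ Set.Ioo (-1 / 2 : ℝ) (3 / 2) ×ℂ Set.Ioo U1 U2 ∧ F z = 0} = zset F U1 U2 := by
    ext z
    constructor
    · rintro ⟨h1, h2⟩
      obtain ⟨h3, h4, h5, h6⟩ := hzero z ⟨Ioo_subset_Icc_self h1.1, Ioo_subset_Icc_self h1.2⟩ h2
      exact ⟨h3, h4, h5, h6.le, h2⟩
    · rintro ⟨h3, h4, h5, h6, h7⟩
      obtain ⟨k1, k2, k3, k4⟩ := hzero z ⟨⟨by linarith, by linarith⟩, ⟨h5.le, h6⟩⟩ h7
      exact ⟨⟨⟨by linarith, by linarith⟩, ⟨k3, k4⟩⟩, h7⟩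
  rw [hset, hk_self hY0.ne', mul_one] at hres
  unfold RI at hres
  set Kf : ℂ → ℂ := fun z => hk Y s z * (z - s)⁻¹ with hKf
  set HB := ∫ x in (-1 / 2 : ℝ)..(3 / 2), deriv F (⟨x, U1⟩ : ℂ) / F ⟨x, U1⟩ * Kf ⟨x, U1⟩ with hHB
  set HT := ∫ x in (-1 / 2 : ℝ)..(3 / 2), deriv F (⟨x, U2⟩ : ℂ) / F ⟨x, U2⟩ * Kf ⟨x, U2⟩ with hHT
  set R := ∫ y in U1..U2, deriv F (⟨3 / 2, y⟩ : ℂ) / F ⟨3 / 2, y⟩ * Kf ⟨3 / 2, y⟩ with hR
  set Lf := ∫ y in U1..U2, deriv F (⟨-1 / 2, y⟩ : ℂ) / F ⟨-1 / 2, y⟩ * Kf ⟨-1 / 2, y⟩ with hLf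
  set Z := ∑ᶠ z ∈ zset F U1 U2, (mult F z : ℂ) * Kf z with hZ
  have hres2 : HB - HT + I * R - I * Lf = 2 * Real.pi * I * (Z + deriv F s / F s) := hres
  -- horizontal sides
  have hEY : Real.exp Y ≤ Real.exp L := Real.exp_le_exp.2 hYL
  have hlogb : ∀ x : ℝ, 1 ≤ x → x ≤ 3 * T → Real.log x ≤ 2 * L := by
    intro x hx hx3
    have : Real.log x ≤ Real.log (T ^ 2) := by
      apply Real.log_le_log (by linarith)
      nlinarith
    rw [Real.log_pow] at this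
    exact_mod_cast this
  have hhor : ∀ V U : ℝ, 1 ≤ V → V ≤ 3 * T → W ≤ |U - s.im| →
      (∀ σ ∈ Set.Icc (-1 / 2 : ℝ) (3 / 2), F (⟨σ, U⟩ : ℂ) ≠ 0 ∧
        ‖deriv F (⟨σ, U⟩ : ℂ) / F (⟨σ, U⟩ : ℂ)‖ ≤ C1 * (Real.log V) ^ 2) →
      ‖∫ x in (-1 / 2 : ℝ)..(3 / 2), deriv F (⟨x, U⟩ : ℂ) / F ⟨x, U⟩ * Kf ⟨x, U⟩‖ ≤ 240 * C1 := by
    intro V U hV1 hV3 hU hg
    have : ‖∫ x in (-1 / 2 : ℝ)..(3 / 2), deriv F (⟨x, U⟩ : ℂ) / F ⟨x, U⟩ * Kf ⟨x, U⟩‖ ≤
        (C1 * (2 * L) ^ 2 * (30 * Real.exp L * Real.exp (-W ^ 2 / 4))) *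
        |(3 / 2 : ℝ) - (-1 / 2)| := by
      apply intervalIntegral.norm_integral_le_of_norm_le_const
      intro x hx
      rw [uIoc_of_le (by norm_num)] at hx
      have hx' : x ∈ Set.Icc (-1 / 2 : ℝ) (3 / 2) := ⟨hx.1.le, hx.2⟩
      rw [norm_mul]
      apply mul_le_mul _ _ (norm_nonneg _) (by positivity)
      · refine (hg x hx').2.trans ?_
        apply mul_le_mul_of_nonneg_left _ hC1.le
        exact pow_le_pow_left₀ (Real.log_nonneg hV1) (hlogb V hV1 hV3) 2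
      · refine (hk_hor hY hs1 hs2 hx' hW0 hU).trans ?_
        have h5 : Real.exp (-W ^ 2) ≤ Real.exp (-W ^ 2 / 4) := by
          apply Real.exp_le_exp.2
          nlinarith
        gcongr
    rw [show |(3 / 2 : ℝ) - (-1 / 2)| = 2 by norm_num] at this
    calc _ ≤ _ := this
      _ = 240 * C1 * (Real.exp L * (L ^ 2 * Real.exp (-W ^ 2 / 4))) := by ring
      _ ≤ 240 * C1 * 1 := by
          apply mul_le_mul_of_nonneg_left hsm (by positivity)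
      _ = 240 * C1 := by ring
  have hHBb : ‖HB‖ ≤ 240 * C1 := hhor (T / 2) U1 (by linarith) (by linarith) (by
    rw [abs_of_nonpos (by linarith)]; linarith) hg1
  have hHTb : ‖HT‖ ≤ 240 * C1 := hhor (3 * T - 1) U2 (by linarith) (by linarith) (by
    rw [abs_of_nonneg (by linarith)]; linarith) hg2
  -- right side
  have hRD : ∀ y ∈ Icc U1 U2, deriv F (⟨3 / 2, y⟩ : ℂ) / F ⟨3 / 2, y⟩ = - DD a (⟨3 / 2, y⟩ : ℂ) := by
    intro y hy
    exact hld _ (by norm_num) (by show (1 : ℝ) ≤ y; linarith [hy.1, hU1.1])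
  have hReq : R = - ∫ y in U1..U2, DD a (⟨3 / 2, y⟩ : ℂ) * Kf ⟨3 / 2, y⟩ := by
    rw [hR, ← intervalIntegral.integral_neg]
    apply intervalIntegral.integral_congr
    intro y hy
    rw [uIcc_of_le hU12.le] at hy
    simp only
    rw [hRD y hy]; ring
  have heR : ‖(∫ v : ℝ, DD a (⟨3 / 2, v⟩ : ℂ) * Kf (⟨3 / 2, v⟩ : ℂ)) -
      ∫ y in U1..U2, DD a (⟨3 / 2, y⟩ : ℂ) * Kf ⟨3 / 2, y⟩‖ ≤ 136 * D0 := by
    have hb : ∀ v : ℝ, ‖DD a (⟨3 / 2, v⟩ : ℂ) * Kf (⟨3 / 2, v⟩ : ℂ)‖ ≤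
        (D0 * (34 * Real.exp Y)) * Real.exp (-(v - s.im) ^ 2 / 2) := by
      intro v
      rw [norm_mul, mul_assoc D0]
      exact mul_le_mul (norm_DD a ha v) (hk_right hY hs1 hs2 v) (norm_nonneg _) hD0
    have := tail_bound (((DD_cont a ha).mul (hk_cont_line hs2)).aestronglyMeasurable)
      (by positivity) hb (by linarith : (0 : ℝ) ≤ W) hW1 hW2
    refine this.trans ?_
    have h1 : 1 ≤ L ^ 2 := by nlinarith
    calc D0 * (34 * Real.exp Y) * (4 * Real.exp (-W ^ 2 / 4))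
        ≤ D0 * (34 * Real.exp L) * (4 * (L ^ 2 * Real.exp (-W ^ 2 / 4))) := by
          have h6 : Real.exp (-W ^ 2 / 4) ≤ L ^ 2 * Real.exp (-W ^ 2 / 4) :=
            le_mul_of_one_le_left (Real.exp_pos _).le h1
          gcongr
      _ = 136 * D0 * (Real.exp L * (L ^ 2 * Real.exp (-W ^ 2 / 4))) := by ring
      _ ≤ 136 * D0 * 1 := mul_le_mul_of_nonneg_left hsm (by positivity)
      _ = _ := by ring
  rw [PS_integral a ha hY hs1 hs2] at heR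
  -- left side
  have hFl : ∀ y ∈ Icc U1 U2, F (⟨-1 / 2, y⟩ : ℂ) ≠ 0 := by
    intro y hy
    exact hF.nzl _ (by norm_num) (by show (1 : ℝ) ≤ y; linarith [hy.1, hU1.1])
  have hlb : ∀ y ∈ Icc U1 U2, ‖deriv F (⟨-1 / 2, y⟩ : ℂ) / F ⟨-1 / 2, y⟩‖ ≤ 2 * L + C2 + D0 := by
    intro y hy
    have hy1 : 1 ≤ y := by linarith [hy.1, hU1.1]
    have h1 := hleft (⟨-1 / 2, y⟩ : ℂ) (by norm_num) (by norm_num) hy1 (hFl y hy)
    have h2 : (1 : ℂ) - (starRingEnd ℂ) (⟨-1 / 2, y⟩ : ℂ) = ⟨3 / 2, y⟩ := by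
      apply Complex.ext <;> simp <;> norm_num
    rw [h2, hRD y hy] at h1
    have h3 : ‖(starRingEnd ℂ) (-DD a (⟨3 / 2, y⟩ : ℂ))‖ ≤ D0 := by
      rw [RCLike.norm_conj, norm_neg]
      exact norm_DD a ha y
    have h4 : ‖((Real.log y : ℝ) : ℂ)‖ ≤ 2 * L := by
      rw [Complex.norm_real, Real.norm_of_nonneg (Real.log_nonneg hy1)]
      exact hlogb y hy1 (hy.2.trans hU2')
    have h5 : deriv F (⟨-1 / 2, y⟩ : ℂ) / F ⟨-1 / 2, y⟩ =
        (deriv F (⟨-1 / 2, y⟩ : ℂ) / F ⟨-1 / 2, y⟩ + (Real.log (⟨-1 / 2, y⟩ : ℂ).im : ℂ) +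
        (starRingEnd ℂ) (-DD a (⟨3 / 2, y⟩ : ℂ))) - (starRingEnd ℂ) (-DD a (⟨3 / 2, y⟩ : ℂ))
        - ((Real.log y : ℝ) : ℂ) := by
      simp only
      ring
    rw [h5]
    calc ‖_‖ ≤ _ := (norm_sub_le _ _).trans (add_le_add_left (norm_sub_le _ _) _)
      _ ≤ C2 + D0 + 2 * L := add_le_add (add_le_add h1 h3) h4
      _ = _ := by ring
  have hLfb : ‖Lf‖ ≤ (2 * L + C2 + D0) * (30 / Y) * 4 := by
    apply int_bound (t := s.im) hU12.le (by positivity)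
    intro v hv
    rw [norm_mul, mul_assoc]
    exact mul_le_mul (hlb v (Ioc_subset_Icc_self hv)) (hk_left hY hs1 hs2 v) (norm_nonneg _)
      (by positivity)
  -- zeros
  have hfin : (zset F U1 U2).Finite := by
    rw [← hset]
    exact (rect_residue F (hk Y s) (-1 / 2) (3 / 2) U1 U2 (by norm_num) hU12 hFan
      (hk_diff Y s) hbd).1
  have hZb : ‖Z‖ ≤ 4 / Y * ∑ᶠ ρ ∈ zset F U1 U2, (mult F ρ : ℝ) *
            ((1 + Real.exp (Y * (ρ.re - s.re))) / ‖ρ - s‖ ^ 2) := by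
    rw [hZ, finsum_mem_eq_finite_toFinset_sum _ hfin, finsum_mem_eq_finite_toFinset_sum _ hfin,
      Finset.mul_sum]
    refine (norm_sum_le _ _).trans (Finset.sum_le_sum fun ρ hρ => ?_)
    rw [Set.Finite.mem_toFinset] at hρ
    rw [norm_mul, Complex.norm_natCast]
    have hne : ρ ≠ s := by
      rintro rfl
      exact hFs hρ.2.2.2.2
    have := hk_zero hY hs1 hs2 hρ.1 hρ.2.1 hne
    calc (mult F ρ : ℝ) * ‖Kf ρ‖ ≤ (mult F ρ : ℝ) *
          (4 / Y * ((1 + Real.exp (Y * (ρ.re - s.re))) / ‖ρ - s‖ ^ 2)) := by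
          exact mul_le_mul_of_nonneg_left this (Nat.cast_nonneg _)
      _ = _ := by ring
  -- assembling
  set IR := ∫ y in U1..U2, DD a (⟨3 / 2, y⟩ : ℂ) * Kf ⟨3 / 2, y⟩ with hIR
  have hpi0 : (Real.pi : ℂ) ≠ 0 := by exact_mod_cast Real.pi_ne_zero
  have hmain : deriv F s / F s + PS a Y s =
      (1 / (2 * Real.pi)) * ((-I) * (HB - HT) + (2 * Real.pi * PS a Y s - IR) - Lf) - Z := by
    have hI : I ≠ 0 := I_ne_zero
    rw [hReq] at hres2
    have h5 : I * (2 * Real.pi * (Z + deriv F s / F s)) = I * (-(I * (HB - HT)) + (-IR) - Lf) := by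
      linear_combination (HB - HT) * I_sq - hres2
    have h6 := mul_left_cancel₀ hI h5
    clear h5
    generalize deriv F s / F s = q at h6 ⊢
    have h7 : q = (1 / (2 * Real.pi)) * (-(I * (HB - HT)) + (-IR) - Lf) - Z := by
      field_simp
      linear_combination h6
    rw [h7]
    field_simp
    ring
  rw [hmain]
  have hn1 : ‖(1 / (2 * Real.pi) : ℂ)‖ ≤ 1 := by
    rw [norm_div, norm_mul]
    simp only [norm_one, Complex.norm_ofNat, Complex.norm_real, Real.norm_eq_abs, abs_of_pos Real.pi_pos]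
    rw [div_le_one (by positivity)]
    have := Real.pi_gt_three
    linarith
  have hn2 : ‖(-I) * (HB - HT) + (2 * Real.pi * PS a Y s - IR) - Lf‖ ≤
      480 * C1 + 136 * D0 + (2 * L + C2 + D0) * (30 / Y) * 4 := by
    have h1 : ‖(-I) * (HB - HT)‖ ≤ 240 * C1 + 240 * C1 := by
      rw [norm_mul, norm_neg, norm_I, one_mul]
      exact (norm_sub_le _ _).trans (add_le_add hHBb hHTb)
    calc ‖_‖ ≤ ‖(-I) * (HB - HT) + (2 * Real.pi * PS a Y s - IR)‖ + ‖Lf‖ := norm_sub_le _ _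
      _ ≤ (‖(-I) * (HB - HT)‖ + ‖(2 * Real.pi * PS a Y s - IR)‖) + ‖Lf‖ := by
          gcongr; exact norm_add_le _ _
      _ ≤ (240 * C1 + 240 * C1 + 136 * D0) + (2 * L + C2 + D0) * (30 / Y) * 4 := by gcongr
      _ = _ := by ring
  have hn3 : ‖(1 / (2 * Real.pi) : ℂ) * ((-I) * (HB - HT) + (2 * Real.pi * PS a Y s - IR) - Lf)‖ ≤
      480 * C1 + 136 * D0 + (2 * L + C2 + D0) * (30 / Y) * 4 := by
    rw [norm_mul]
    calc ‖(1 / (2 * Real.pi) : ℂ)‖ * ‖_‖ ≤ 1 * _ := by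
          apply mul_le_mul hn1 hn2 (norm_nonneg _) zero_le_one
      _ = _ := one_mul _
  have hn4 : (2 * L + C2 + D0) * (30 / Y) * 4 ≤ 120 * (3 + C2 + D0) * (L / Y) := by
    have h1 : (2 * L + C2 + D0) ≤ (3 + C2 + D0) * L := by nlinarith
    calc (2 * L + C2 + D0) * (30 / Y) * 4 ≤ ((3 + C2 + D0) * L) * (30 / Y) * 4 := by gcongr
      _ = _ := by ring
  have hLY : 0 ≤ L / Y := by positivity
  refine (norm_sub_le _ _).trans ?_
  have h9 : (480 * C1 + 136 * D0 + 120 * (3 + C2 + D0) + 1) * (L / Y + 1) ≥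
      480 * C1 + 136 * D0 + 120 * (3 + C2 + D0) * (L / Y) := by
    have q1 : 0 ≤ (480 * C1 + 136 * D0 + 1) * (L / Y) := by positivity
    have q2 : 0 ≤ 120 * (3 + C2 + D0) := by positivity
    nlinarith
  linarith

end Pool.Agent.Helper54.Xm
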