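import Pool.Agent.Helper54.Xm.Expl2
import Pool.Graph.R_seed8.Helper256.KM.Mertens

set_option autoImplicit false
set_option maxHeartbeats 1000000

/-!
Reduction of the smoothed Dirichlet series to primes.
-/

open Complex Filter Topology Set MeasureTheory H370

namespace Pool.Agent.Helper54.Xm

open ArithmeticFunction (vonMangoldt)

/-- primes up to `N` -/
abbrev PP (N : ℕ) : Finset ℕ := (Finset.Icc 1 N).filter Nat.Prime

lemma inv_sqrt_prime {p : ℕ} (hp : p.Prime) : 0 < (Real.sqrt p)⁻¹ ∧ (Real.sqrt p)⁻¹ ≤ 71 / 100 := by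
  have h2 : (2 : ℝ) ≤ p := by exact_mod_cast hp.two_le
  have h3 : 0 < Real.sqrt p := Real.sqrt_pos.2 (by linarith)
  refine ⟨by positivity, ?_⟩
  rw [inv_le_comm₀ h3 (by norm_num)]
  apply Real.le_sqrt_of_sq_le
  norm_num
  linarith

lemma geo_le {r : ℝ} (h0 : 0 ≤ r) (h1 : r ≤ 71 / 100) (N : ℕ) :
    ∑ k ∈ Finset.Icc 2 N, r ^ k ≤ 4 * r ^ 2 := by
  have hs : Summable (fun k : ℕ => r ^ (k + 2)) := by
    have := (summable_geometric_of_lt_one h0 (by linarith)).mul_right (r ^ 2)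
    exact this.congr fun k => (pow_add r k 2).symm
  have h2 : ∑ k ∈ Finset.Icc 2 N, r ^ k ≤ ∑' k : ℕ, r ^ (k + 2) := by
    have e : ∑ k ∈ Finset.Icc 2 N, r ^ k ≤ ∑ k ∈ Finset.range N, r ^ (k + 2) := by
      have : Finset.Icc 2 N ⊆ (Finset.range N).image (fun k => k + 2) := by
        intro k hk
        rw [Finset.mem_Icc] at hk
        rw [Finset.mem_image]
        exact ⟨k - 2, by rw [Finset.mem_range]; omega, by omega⟩
      refine (Finset.sum_le_sum_of_subset_of_nonneg this fun _ _ _ => by positivity).trans ?_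
      rw [Finset.sum_image (by intro x _ y _ h; simpa using h)]
    exact e.trans (hs.sum_le_tsum _ fun _ _ => by positivity)
  refine h2.trans ?_
  have h3 : ∑' k : ℕ, r ^ (k + 2) = (1 - r)⁻¹ * r ^ 2 := by
    simp_rw [pow_add]
    rw [tsum_mul_right, tsum_geometric_of_lt_one h0 (by linarith)]
  rw [h3]
  have h4 : (1 - r)⁻¹ ≤ 4 := by
    rw [inv_le_comm₀ (by linarith) (by norm_num)]
    linarith
  exact mul_le_mul_of_nonneg_right h4 (by positivity)

/-- the contribution of the proper prime powers -/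
lemma nonprime_sum (N : ℕ) :
    ∑ n ∈ (Finset.Icc 1 N).filter (fun n => ¬ n.Prime), vonMangoldt n * (Real.sqrt n)⁻¹ ≤
      4 * ∑ p ∈ PP (Nat.sqrt N), Real.log p / p := by
  classical
  set S : Finset ℕ := ((Finset.Icc 1 N).filter (fun n => ¬ n.Prime)).filter IsPrimePow with hS
  have e1 : ∑ n ∈ (Finset.Icc 1 N).filter (fun n => ¬ n.Prime), vonMangoldt n * (Real.sqrt n)⁻¹ =
      ∑ n ∈ S, vonMangoldt n * (Real.sqrt n)⁻¹ := by
    rw [hS, Finset.sum_filter (p := IsPrimePow)]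
    refine Finset.sum_congr rfl fun n _ => ?_
    split_ifs with h
    · rfl
    · rw [ArithmeticFunction.vonMangoldt_eq_zero_iff.2 h, zero_mul]
  rw [e1]
  set ψ : ℕ → ℕ × ℕ := fun n => (n.minFac, n.factorization n.minFac) with hψ
  set g : ℕ × ℕ → ℝ := fun x => Real.log x.1 * ((Real.sqrt x.1)⁻¹) ^ x.2 with hg
  have hmem : ∀ n ∈ S, n.minFac.Prime ∧ 2 ≤ n.factorization n.minFac ∧
      n.minFac ^ (n.factorization n.minFac) = n ∧ 1 ≤ n ∧ n ≤ N := by
    intro n hn
    rw [hS, Finset.mem_filter, Finset.mem_filter, Finset.mem_Icc] at hn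
    obtain ⟨⟨⟨h1, h2⟩, h3⟩, h4⟩ := hn
    have hne : n ≠ 1 := h4.ne_one
    have hmp := Nat.minFac_prime hne
    have h5 := h4.minFac_pow_factorization_eq
    refine ⟨hmp, ?_, h5, h1, h2⟩
    by_contra hc
    push Not at hc
    interval_cases h : n.factorization n.minFac
    · rw [pow_zero] at h5
      exact hne h5.symm
    · rw [pow_one] at h5
      rw [← h5] at h3
      exact h3 hmp
  have hinj : Set.InjOn ψ S := by
    intro x hx y hy hxy
    obtain ⟨_, _, h1, _, _⟩ := hmem x hx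
    obtain ⟨_, _, h2, _, _⟩ := hmem y hy
    simp only [hψ, Prod.mk.injEq] at hxy
    calc x = x.minFac ^ (x.factorization x.minFac) := h1.symm
      _ = y.minFac ^ (y.factorization y.minFac) := by rw [hxy.2, hxy.1]
      _ = y := h2
  have e2 : ∑ n ∈ S, vonMangoldt n * (Real.sqrt n)⁻¹ = ∑ x ∈ S.image ψ, g x := by
    rw [Finset.sum_image hinj]
    refine Finset.sum_congr rfl fun n hn => ?_
    obtain ⟨hp, hk, h1, _, _⟩ := hmem n hn
    simp only [hψ, hg]
    set p := n.minFac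
    set k := n.factorization p
    rw [← h1, ArithmeticFunction.vonMangoldt_apply_pow (by omega),
      ArithmeticFunction.vonMangoldt_apply_prime hp]
    congr 1
    rw [inv_pow]
    congr 1
    push_cast
    rw [← Real.sqrt_sq (show (0 : ℝ) ≤ Real.sqrt p ^ k by positivity)]
    congr 1
    rw [← pow_mul, mul_comm k 2, pow_mul, Real.sq_sqrt (Nat.cast_nonneg _)]
  rw [e2]
  have hsub : S.image ψ ⊆ PP (Nat.sqrt N) ×ˢ Finset.Icc 2 N := by
    intro x hx
    rw [Finset.mem_image] at hx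
    obtain ⟨n, hn, rfl⟩ := hx
    obtain ⟨hp, hk, h1, h2, h3⟩ := hmem n hn
    simp only [hψ, Finset.mem_product, Finset.mem_filter, Finset.mem_Icc]
    refine ⟨⟨⟨hp.one_lt.le, ?_⟩, hp⟩, hk, ?_⟩
    · rw [Nat.le_sqrt]
      calc n.minFac * n.minFac = n.minFac ^ 2 := (sq _).symm
        _ ≤ n.minFac ^ (n.factorization n.minFac) := Nat.pow_le_pow_right hp.pos hk
        _ = n := h1
        _ ≤ N := h3
    · have : n.factorization n.minFac < n.minFac ^ (n.factorization n.minFac) :=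
        Nat.lt_pow_self hp.one_lt
      omega
  refine (Finset.sum_le_sum_of_subset_of_nonneg hsub ?_).trans ?_
  · intro x hx _
    rw [Finset.mem_product, Finset.mem_filter] at hx
    simp only [hg]
    exact mul_nonneg (Real.log_natCast_nonneg _) (by positivity)
  · rw [Finset.sum_product, Finset.mul_sum]
    refine Finset.sum_le_sum fun p hp => ?_
    rw [Finset.mem_filter] at hp
    simp only [hg]
    rw [← Finset.mul_sum]
    obtain ⟨h1, h2⟩ := inv_sqrt_prime hp.2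
    have h3 := geo_le h1.le h2 N
    have h4 : ((Real.sqrt p)⁻¹) ^ 2 = (p : ℝ)⁻¹ := by
      rw [inv_pow, Real.sq_sqrt (Nat.cast_nonneg _)]
    rw [h4] at h3
    calc Real.log p * ∑ k ∈ Finset.Icc 2 N, ((Real.sqrt p)⁻¹) ^ k ≤ Real.log p * (4 * (p : ℝ)⁻¹) :=
          mul_le_mul_of_nonneg_left h3 (Real.log_natCast_nonneg _)
      _ = 4 * (Real.log p / p) := by ring

/-- a convergent majorant for the tail -/
lemma tail_term (n : ℕ) (hn : 1 ≤ n) :
    vonMangoldt n * (Real.sqrt n)⁻¹ * (2 * Real.exp (-(Real.log n) ^ 2 / 32)) ≤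
      2 * Real.exp 50 * ((n : ℝ) ^ 2)⁻¹ := by
  have hn0 : (0 : ℝ) < n := by exact_mod_cast hn
  set ℓ := Real.log n with hℓ
  have hℓ0 : 0 ≤ ℓ := Real.log_natCast_nonneg _
  have h1 : vonMangoldt n ≤ ℓ := ArithmeticFunction.vonMangoldt_le_log
  have h2 : ℓ ≤ Real.exp ℓ := by linarith [Real.add_one_le_exp ℓ]
  have h3 : (Real.sqrt n)⁻¹ = Real.exp (-ℓ / 2) := by
    rw [hℓ, Real.sqrt_eq_rpow, ← Real.rpow_neg hn0.le, Real.rpow_def_of_pos hn0]
    congr 1; ring
  have h4 : ((n : ℝ) ^ 2)⁻¹ = Real.exp (-(2 * ℓ)) := by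
    rw [Real.exp_neg, show 2 * ℓ = ((2 : ℕ) : ℝ) * ℓ by norm_num, Real.exp_nat_mul, hℓ,
      Real.exp_log hn0]
  rw [h3, h4]
  calc vonMangoldt n * Real.exp (-ℓ / 2) * (2 * Real.exp (-ℓ ^ 2 / 32))
      ≤ Real.exp ℓ * Real.exp (-ℓ / 2) * (2 * Real.exp (-ℓ ^ 2 / 32)) := by
        gcongr; exact h1.trans h2
    _ = 2 * Real.exp (ℓ + -ℓ / 2 + -ℓ ^ 2 / 32) := by
        rw [Real.exp_add, Real.exp_add]; ring
    _ ≤ 2 * Real.exp (50 + -(2 * ℓ)) := by
        apply mul_le_mul_of_nonneg_left _ (by norm_num)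
        apply Real.exp_le_exp.2
        nlinarith [sq_nonneg (ℓ - 40)]
    _ = _ := by rw [Real.exp_add]; ring

theorem PS_primes : ∃ C : ℝ, 0 < C ∧ ∀ a : ℕ → ℂ, (∀ n, ‖a n‖ ≤ vonMangoldt n) → ∀ Y : ℝ, 1 ≤ Y →
    ∀ N : ℕ, (N : ℝ) ≤ Real.exp (2 * Y) → Real.exp (2 * Y) ≤ N + 1 → ∀ s : ℂ, 1 / 2 ≤ s.re →
    ‖PS a Y s - ∑ p ∈ PP N, a p * (p : ℂ) ^ (-s) * (wt Y (Real.log p) : ℂ)‖ ≤ C * Y := by
  classical
  obtain ⟨C, hC⟩ := Pool.Agent.Helper256.KM.Mert.mertens_log
  have hC0 : 0 ≤ C := (abs_nonneg _).trans (hC 1 le_rfl)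
  have hsq : Summable (fun n : ℕ => ((n : ℝ) ^ 2)⁻¹) := Real.summable_nat_pow_inv.2 (by norm_num)
  refine ⟨4 * (C + 1) + 2 * Real.exp 50 * ∑' n : ℕ, ((n : ℝ) ^ 2)⁻¹ + 1, ?_, ?_⟩
  · have : 0 ≤ ∑' n : ℕ, ((n : ℝ) ^ 2)⁻¹ := tsum_nonneg fun n => by positivity
    positivity
  intro a ha Y hY N hN1 hN2 s hs
  have hY0 : 0 < Y := by linarith
  set f : ℕ → ℂ := fun n => a n * (n : ℂ) ^ (-s) * (wt Y (Real.log n) : ℂ) with hf
  have hfb : ∀ n, ‖f n‖ ≤ vonMangoldt n * (Real.sqrt n)⁻¹ * wt Y (Real.log n) := by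
    intro n
    rcases Nat.eq_zero_or_pos n with h | h
    · subst h
      have h0 : a 0 = 0 := by
        have h0 : ‖a 0‖ ≤ 0 := by simpa using ha 0
        exact norm_le_zero_iff.1 h0
      simp [hf, h0]
    · simp only [hf]
      rw [norm_mul, norm_mul, Complex.norm_natCast_cpow_of_pos h, Complex.norm_real,
        Real.norm_of_nonneg (wt_nonneg hY0 _)]
      have hn1 : (1 : ℝ) ≤ n := by exact_mod_cast h
      apply mul_le_mul_of_nonneg_right _ (wt_nonneg hY0 _)
      apply mul_le_mul (ha n) _ (by positivity) ArithmeticFunction.vonMangoldt_nonneg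
      rw [neg_re, Real.sqrt_eq_rpow, ← Real.rpow_neg (by positivity)]
      exact Real.rpow_le_rpow_of_exponent_le hn1 (by linarith)
  have hN0 : 1 ≤ N := by
    have h1 : (1 : ℝ) < Real.exp (2 * Y) := Real.one_lt_exp_iff.2 (by linarith)
    have h2 : Real.exp (2 * Y) ≥ 2 * Y + 1 := Real.add_one_le_exp _
    have : (1 : ℝ) < N + 1 := by linarith
    have : (0 : ℝ) < N := by linarith
    exact_mod_cast this
  have htail : ∀ n, N < n → ‖f n‖ ≤ 2 * Real.exp 50 * ((n : ℝ) ^ 2)⁻¹ := by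
    intro n hn
    have hn1 : 1 ≤ n := by omega
    have hn0 : (0 : ℝ) < n := by exact_mod_cast hn1
    have h1 : 2 * Y ≤ Real.log n := by
      rw [Real.le_log_iff_exp_le hn0]
      refine hN2.trans ?_
      exact_mod_cast hn
    refine (hfb n).trans (le_trans ?_ (tail_term n hn1))
    exact mul_le_mul_of_nonneg_left (wt_decay hY0 h1)
      (mul_nonneg ArithmeticFunction.vonMangoldt_nonneg (by positivity))
  set g : ℕ → ℂ := fun n => if n ∈ PP N then 0 else f n with hg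
  set b : ℕ → ℝ := fun n => (if n ∈ (Finset.Icc 1 N).filter (fun n => ¬ n.Prime) then
      vonMangoldt n * (Real.sqrt n)⁻¹ else 0) + 2 * Real.exp 50 * ((n : ℝ) ^ 2)⁻¹ with hb
  have hgb : ∀ n, ‖g n‖ ≤ b n := by
    intro n
    simp only [hg, hb]
    have hpos : 0 ≤ 2 * Real.exp 50 * ((n : ℝ) ^ 2)⁻¹ := by positivity
    have hpos2 : 0 ≤ (if n ∈ (Finset.Icc 1 N).filter (fun n => ¬ n.Prime) then
      vonMangoldt n * (Real.sqrt n)⁻¹ else 0) := by
      split_ifs
      · exact mul_nonneg ArithmeticFunction.vonMangoldt_nonneg (by positivity)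
      · exact le_rfl
    split_ifs with h1 h2 h2
    · rw [norm_zero]
      have := ArithmeticFunction.vonMangoldt_nonneg (n := n)
      positivity
    · rw [norm_zero]; linarith
    · refine (hfb n).trans ?_
      have := mul_le_of_le_one_right (mul_nonneg (ArithmeticFunction.vonMangoldt_nonneg (n := n))
        (by positivity : 0 ≤ (Real.sqrt (n : ℝ))⁻¹)) (wt_le_one hY0 (Real.log n))
      linarith
    · rcases Nat.eq_zero_or_pos n with h | h
      · subst h
        have := hfb 0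
        simp at this
        rw [this]
        simp
      · have hlt : N < n := by
          by_contra hc
          push Not at hc
          by_cases hp : n.Prime
          · exact h1 (Finset.mem_filter.2 ⟨Finset.mem_Icc.2 ⟨h, hc⟩, hp⟩)
          · exact h2 (Finset.mem_filter.2 ⟨Finset.mem_Icc.2 ⟨h, hc⟩, hp⟩)
        have := htail n hlt
        linarith
  have hbs : HasSum b (∑ n ∈ (Finset.Icc 1 N).filter (fun n => ¬ n.Prime),
      vonMangoldt n * (Real.sqrt n)⁻¹ + 2 * Real.exp 50 * ∑' n : ℕ, ((n : ℝ) ^ 2)⁻¹) := by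
    apply HasSum.add _ (hsq.hasSum.mul_left _)
    have h1 : HasSum (fun n : ℕ => (if n ∈ (Finset.Icc 1 N).filter (fun n => ¬ n.Prime) then
      vonMangoldt n * (Real.sqrt n)⁻¹ else 0)) _ :=
      hasSum_sum_of_ne_finset_zero (s := (Finset.Icc 1 N).filter (fun n => ¬ n.Prime)) (by
        intro n hn
        rw [if_neg hn])
    have h2 : ∑ b ∈ (Finset.Icc 1 N).filter (fun n => ¬ n.Prime), (if b ∈ (Finset.Icc 1 N).filter
        (fun n => ¬ n.Prime) then vonMangoldt b * (Real.sqrt b)⁻¹ else 0) =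
        ∑ n ∈ (Finset.Icc 1 N).filter (fun n => ¬ n.Prime), vonMangoldt n * (Real.sqrt n)⁻¹ :=
      Finset.sum_congr rfl fun n hn => by rw [if_pos hn]
    rw [h2] at h1
    exact h1
  have hbsum : Summable b := hbs.summable
  have hgs : Summable g := Summable.of_norm_bounded hbsum hgb
  have hfin : HasSum (fun n => if n ∈ PP N then f n else 0) (∑ p ∈ PP N, f p) := by
    have h1 : HasSum (fun n : ℕ => if n ∈ PP N then f n else 0) _ :=
      hasSum_sum_of_ne_finset_zero (s := PP N) (by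
        intro n hn
        rw [if_neg hn])
    have h2 : ∑ b ∈ PP N, (if b ∈ PP N then f b else 0) = ∑ p ∈ PP N, f p :=
      Finset.sum_congr rfl fun n hn => by rw [if_pos hn]
    rw [h2] at h1
    exact h1
  have hfe : f = fun n => g n + (if n ∈ PP N then f n else 0) := by
    funext n
    simp only [hg]
    split_ifs <;> simp
  have hPS : PS a Y s = ∑' n, g n + ∑ p ∈ PP N, f p := by
    have h1 : PS a Y s = ∑' n, f n := rfl
    rw [h1]
    have h2 : ∑' n, (g n + (if n ∈ PP N then f n else 0)) = ∑' n, g n + ∑ p ∈ PP N, f p :=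
      (hgs.hasSum.add hfin).tsum_eq
    rw [← h2, ← hfe]
  rw [hPS, add_sub_cancel_right]
  have hbound : ‖∑' n, g n‖ ≤ _ := tsum_of_norm_bounded hbs hgb
  refine hbound.trans ?_
  have hnp := nonprime_sum N
  have hsN : 1 ≤ Nat.sqrt N := by
    rw [Nat.le_sqrt]; omega
  have hm := (abs_le.1 (hC (Nat.sqrt N) hsN)).2
  have hlog : Real.log (Nat.sqrt N : ℕ) ≤ Y := by
    have h1 : ((Nat.sqrt N : ℕ) : ℝ) ^ 2 ≤ Real.exp (2 * Y) := by
      refine le_trans ?_ hN1
      have := Nat.sqrt_le' N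
      exact_mod_cast this
    have h0 : (0 : ℝ) < (Nat.sqrt N : ℕ) := by exact_mod_cast hsN
    have h2 := Real.log_le_log (by positivity) h1
    rw [Real.log_exp, Real.log_pow] at h2
    push_cast at h2
    linarith
  have hT : 0 ≤ 2 * Real.exp 50 * ∑' n : ℕ, ((n : ℝ) ^ 2)⁻¹ := by
    have : 0 ≤ ∑' n : ℕ, ((n : ℝ) ^ 2)⁻¹ := tsum_nonneg fun n => by positivity
    positivity
  have h5 : ∑ p ∈ PP (Nat.sqrt N), Real.log p / p ≤ Y + C := by
    have : ∑ p ∈ PP (Nat.sqrt N), Real.log p / p - Real.log (Nat.sqrt N : ℕ) ≤ C := hm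
    linarith
  nlinarith

end Pool.Agent.Helper54.Xm
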