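import Pool.Graph.R_seed8.H370R2.Rect

set_option autoImplicit false
set_option maxHeartbeats 1000000

/-!
The residue theorem for `F'/F * h/(s - p)` on a rectangle, `h` entire, `p` inside, `F p ≠ 0`.
-/

open Complex Filter Topology Set MeasureTheory H370

namespace Pool.Agent.Helper54.Xm

lemma RI_cauchy_on {a b c d : ℝ} (hab : a < b) (hcd : c < d) {h : ℂ → ℂ}
    (hh : DifferentiableOn ℂ h (Set.Icc a b ×ℂ Set.Icc c d))
    {p : ℂ} (hp : p ∈ Set.Ioo a b ×ℂ Set.Ioo c d) :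
    RI a b c d (fun s => h s * (s - p)⁻¹) = 2 * Real.pi * I * h p := by
  have hnb : (Set.Icc a b ×ℂ Set.Icc c d) ∈ 𝓝 p := by
    refine Filter.mem_of_superset ((isOpen_Ioo.reProdIm isOpen_Ioo).mem_nhds hp) ?_
    intro s hs
    exact ⟨Ioo_subset_Icc_self hs.1, Ioo_subset_Icc_self hs.2⟩
  have hds : DifferentiableOn ℂ (dslope h p) (Set.Icc a b ×ℂ Set.Icc c d) :=
    (Complex.differentiableOn_dslope hnb).2 hh
  have hB : ∀ s ∈ Bd a b c d, s ≠ p := fun s hs he => Bd_not_Ioo hs (he ▸ hp)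
  have hci : ContinuousOn (fun s : ℂ => (s - p)⁻¹) (Bd a b c d) := by
    apply ContinuousOn.inv₀ (by fun_prop)
    intro s hs
    exact sub_ne_zero.2 (hB s hs)
  have e1 : RI a b c d (fun s => h s * (s - p)⁻¹) =
      RI a b c d (fun s => dslope h p s + h p * (s - p)⁻¹) := by
    apply RI_congr hab.le hcd.le
    intro s hs
    rw [dslope_of_ne _ (hB s hs), slope_def_field]
    ring
  rw [e1, RI_add hab.le hcd.le (g := fun s => h p * (s - p)⁻¹)
    (hds.continuousOn.mono (Bd_sub hab.le hcd.le)) (continuousOn_const.mul hci),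
    RI_zero hab.le hcd.le hds, RI_const_mul, RI_inv hp]
  ring

/-- the residue theorem with an additional simple pole, induction form -/
lemma residue_pole_aux {a b c d : ℝ} (hab : a < b) (hcd : c < d) {h : ℂ → ℂ}
    (hh : Differentiable ℂ h) {p : ℂ} (hp : p ∈ Set.Ioo a b ×ℂ Set.Ioo c d)
    (n : ℕ) : ∀ (F : ℂ → ℂ) (Z : Finset ℂ), Z.card = n →
      AnalyticOnNhd ℂ F (Set.Icc a b ×ℂ Set.Icc c d) →
      (∀ s ∈ Set.Icc a b ×ℂ Set.Icc c d, F s = 0 ↔ s ∈ Z) →
      (∀ s ∈ Z, s ∈ Set.Ioo a b ×ℂ Set.Ioo c d ∧ analyticOrderAt F s ≠ ⊤) → F p ≠ 0 →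
      RI a b c d (fun s => deriv F s / F s * (h s * (s - p)⁻¹)) =
        2 * Real.pi * I * (∑ s ∈ Z, (mult F s : ℂ) * (h s * (s - p)⁻¹) +
          deriv F p / F p * h p) := by
  induction n with
  | zero =>
    intro F Z hZ hF hz _ hFp
    rw [Finset.card_eq_zero] at hZ
    subst hZ
    simp only [Finset.sum_empty, zero_add]
    have := RI_cauchy_on (h := fun s => deriv F s / F s * h s) hab hcd (by
      intro s hs
      have h0 : F s ≠ 0 := fun h => by simpa using (hz s hs).1 h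
      exact (((hF s hs).deriv.differentiableAt.div (hF s hs).differentiableAt h0).mul
        (hh s)).differentiableWithinAt) hp
    rw [← this]
    congr 1
    funext s
    ring
  | succ n ih =>
    intro F Z hZ hF hz hz2 hFp
    obtain ⟨ρ, hρ⟩ : Z.Nonempty := Finset.card_pos.1 (by omega)
    obtain ⟨hρI, hρo⟩ := hz2 ρ hρ
    have hρK : ρ ∈ Set.Icc a b ×ℂ Set.Icc c d :=
      ⟨Ioo_subset_Icc_self hρI.1, Ioo_subset_Icc_self hρI.2⟩
    have hpK : p ∈ Set.Icc a b ×ℂ Set.Icc c d :=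
      ⟨Ioo_subset_Icc_self hp.1, Ioo_subset_Icc_self hp.2⟩
    have hpρ : p ≠ ρ := by
      rintro rfl
      exact hFp ((hz p hpK).2 hρ)
    have hFρ := hF ρ hρK
    set m := mult F ρ with hm
    have hmo : analyticOrderAt F ρ = (m : ℕ∞) := by
      rw [hm, mult, Nat.cast_analyticOrderNatAt hρo]
    obtain ⟨g0, hg0, hg0ne, hg0e⟩ := (hFρ.analyticOrderAt_eq_natCast).1 hmo
    set G : ℂ → ℂ := Function.update (fun z => F z / (z - ρ) ^ m) ρ (g0 ρ) with hG
    have hGne : ∀ s, s ≠ ρ → G s = F s / (s - ρ) ^ m := by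
      intro s hs; rw [hG, Function.update_of_ne hs]
    have hGρ : G ρ = g0 ρ := by rw [hG, Function.update_self]
    have hFG : ∀ s, s ≠ ρ → F s = (s - ρ) ^ m * G s := by
      intro s hs
      rw [hGne s hs, mul_div_cancel₀]
      exact pow_ne_zero _ (sub_ne_zero.2 hs)
    have hGe : G =ᶠ[𝓝 ρ] g0 := by
      filter_upwards [hg0e] with z hzz
      by_cases hzρ : z = ρ
      · rw [hzρ, hGρ]
      · rw [hGne z hzρ, hzz, smul_eq_mul, mul_div_cancel_left₀]
        exact pow_ne_zero _ (sub_ne_zero.2 hzρ)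
    have hGe2 : ∀ s, s ≠ ρ → G =ᶠ[𝓝 s] fun z => F z / (z - ρ) ^ m := by
      intro s hs
      filter_upwards [isOpen_ne.mem_nhds hs] with z hz
      exact hGne z hz
    have hFe2 : ∀ s, s ≠ ρ → F =ᶠ[𝓝 s] fun z => (z - ρ) ^ m * G z := by
      intro s hs
      filter_upwards [isOpen_ne.mem_nhds hs] with z hz
      exact hFG z hz
    have hpow : ∀ s : ℂ, AnalyticAt ℂ (fun z => (z - ρ) ^ m) s := fun s => by fun_prop
    have hGan : AnalyticOnNhd ℂ G (Set.Icc a b ×ℂ Set.Icc c d) := by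
      intro s hs
      by_cases hsρ : s = ρ
      · subst hsρ; exact hg0.congr hGe.symm
      · exact ((hF s hs).div (hpow s) (pow_ne_zero _ (sub_ne_zero.2 hsρ))).congr (hGe2 s hsρ).symm
    have hZ' : (Z.erase ρ).card = n := by rw [Finset.card_erase_of_mem hρ, hZ]; rfl
    have hz' : ∀ s ∈ Set.Icc a b ×ℂ Set.Icc c d, G s = 0 ↔ s ∈ Z.erase ρ := by
      intro s hs
      rw [Finset.mem_erase]
      by_cases hsρ : s = ρ
      · subst hsρ
        simp only [ne_eq, not_true_eq_false, false_and, iff_false]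
        rw [hGρ]; exact hg0ne
      · rw [hGne s hsρ, div_eq_zero_iff, hz s hs]
        simp [hsρ, sub_ne_zero.2 hsρ]
    have hord : ∀ s, s ≠ ρ → s ∈ Set.Icc a b ×ℂ Set.Icc c d →
        analyticOrderAt F s = analyticOrderAt G s := by
      intro s hs hsK
      rw [analyticOrderAt_congr (hFe2 s hs)]
      have : (fun z => (z - ρ) ^ m * G z) = (fun z => (z - ρ) ^ m) * G := rfl
      rw [this, analyticOrderAt_mul (hpow s) (hGan s hsK)]
      have h0 : analyticOrderAt (fun z => (z - ρ) ^ m) s = 0 :=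
        (hpow s).analyticOrderAt_eq_zero.2 (pow_ne_zero _ (sub_ne_zero.2 hs))
      rw [h0, zero_add]
    have hz2' : ∀ s ∈ Z.erase ρ, s ∈ Set.Ioo a b ×ℂ Set.Ioo c d ∧ analyticOrderAt G s ≠ ⊤ := by
      intro s hs
      rw [Finset.mem_erase] at hs
      obtain ⟨h1, h2⟩ := hz2 s hs.2
      refine ⟨h1, ?_⟩
      rw [← hord s hs.1 ⟨Ioo_subset_Icc_self h1.1, Ioo_subset_Icc_self h1.2⟩]
      exact h2
    have hGp : G p ≠ 0 := by
      rw [hGne p hpρ]
      exact div_ne_zero hFp (pow_ne_zero _ (sub_ne_zero.2 hpρ))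
    have IH := ih G (Z.erase ρ) hZ' hGan hz' hz2' hGp
    -- the logarithmic derivative
    have hld : ∀ s ∈ Set.Icc a b ×ℂ Set.Icc c d, s ≠ ρ → G s ≠ 0 →
        deriv F s / F s = deriv G s / G s + m * (s - ρ)⁻¹ := by
      intro s hsK hsρ hGs
      have hsub := sub_ne_zero.2 hsρ
      have h1 : deriv F s = m * (s - ρ) ^ (m - 1) * G s + (s - ρ) ^ m * deriv G s := by
        rw [(hFe2 s hsρ).deriv_eq]
        have hd1 : HasDerivAt (fun z : ℂ => (z - ρ) ^ m) (m * (s - ρ) ^ (m - 1)) s := by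
          have h3 := ((hasDerivAt_id s).sub_const ρ).fun_pow m
          simpa using h3
        exact (hd1.mul (hGan s hsK).differentiableAt.hasDerivAt).deriv
      rw [h1, hFG s hsρ]
      rcases Nat.eq_zero_or_pos m with h0 | hpos
      · rw [h0]; simp
      · obtain ⟨k, hk⟩ : ∃ k, m = k + 1 := ⟨m - 1, by omega⟩
        rw [hk]
        simp only [Nat.add_sub_cancel, pow_succ]
        field_simp
        ring
    -- splitting on the boundary
    have hBK := Bd_sub hab.le hcd.le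
    have hBρ : ∀ s ∈ Bd a b c d, s ≠ ρ := fun s hs he => Bd_not_Ioo hs (he ▸ hρI)
    have hBp : ∀ s ∈ Bd a b c d, s ≠ p := fun s hs he => Bd_not_Ioo hs (he ▸ hp)
    have hBG : ∀ s ∈ Bd a b c d, G s ≠ 0 := by
      intro s hs h0
      have := (hz' s (hBK hs)).1 h0
      exact Bd_not_Ioo hs (hz2' s this).1
    have hci : ∀ q : ℂ, (∀ s ∈ Bd a b c d, s ≠ q) →
        ContinuousOn (fun s : ℂ => (s - q)⁻¹) (Bd a b c d) := by
      intro q hq
      apply ContinuousOn.inv₀ (by fun_prop)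
      intro s hs
      exact sub_ne_zero.2 (hq s hs)
    have hsplit : RI a b c d (fun s => deriv F s / F s * (h s * (s - p)⁻¹)) =
        RI a b c d (fun s => deriv G s / G s * (h s * (s - p)⁻¹) +
          ((m : ℂ) * (ρ - p)⁻¹) * (h s * (s - ρ)⁻¹ + (-1) * (h s * (s - p)⁻¹))) := by
      apply RI_congr hab.le hcd.le
      intro s hs
      rw [hld s (hBK hs) (hBρ s hs) (hBG s hs)]
      have h1 := sub_ne_zero.2 (hBρ s hs)
      have h2 := sub_ne_zero.2 (hBp s hs)
      have h3 := sub_ne_zero.2 hpρ.symm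
      field_simp
      ring
    have hcont1 : ContinuousOn (fun s => deriv G s / G s * (h s * (s - p)⁻¹)) (Bd a b c d) := by
      apply ContinuousOn.mul
      · intro s hs
        exact ((hGan s (hBK hs)).deriv.continuousAt.div (hGan s (hBK hs)).continuousAt
          (hBG s hs)).continuousWithinAt
      · exact hh.continuous.continuousOn.mul (hci p hBp)
    have hcont2 : ContinuousOn (fun s => h s * (s - ρ)⁻¹) (Bd a b c d) :=
      hh.continuous.continuousOn.mul (hci ρ hBρ)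
    have hcont3 : ContinuousOn (fun s => (-1) * (h s * (s - p)⁻¹)) (Bd a b c d) :=
      continuousOn_const.mul (hh.continuous.continuousOn.mul (hci p hBp))
    have hcont4 : ContinuousOn (fun s => ((m : ℂ) * (ρ - p)⁻¹) * (h s * (s - ρ)⁻¹ +
        (-1) * (h s * (s - p)⁻¹))) (Bd a b c d) := continuousOn_const.mul (hcont2.add hcont3)
    rw [hsplit, RI_add hab.le hcd.le hcont1 hcont4, IH,
      RI_const_mul, RI_add hab.le hcd.le hcont2 hcont3, RI_const_mul (-1), RI_cauchy hab hcd hh hρI,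
      RI_cauchy hab hcd hh hp, ← Finset.add_sum_erase Z _ hρ, hld p hpK hpρ hGp]
    have e : ∑ s ∈ Z.erase ρ, (mult G s : ℂ) * (h s * (s - p)⁻¹) =
        ∑ s ∈ Z.erase ρ, (mult F s : ℂ) * (h s * (s - p)⁻¹) := by
      apply Finset.sum_congr rfl
      intro s hs
      rw [Finset.mem_erase] at hs
      have h1 := (hz2 s hs.2).1
      have := hord s hs.1 ⟨Ioo_subset_Icc_self h1.1, Ioo_subset_Icc_self h1.2⟩
      rw [mult, mult, analyticOrderNatAt, analyticOrderNatAt, this]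
    rw [e]
    have e2 : (p - ρ)⁻¹ = -(ρ - p)⁻¹ := by rw [← neg_sub, inv_neg]
    rw [e2]
    ring

/-- **The residue theorem for `F'/F * h/(s-p)`.** -/
theorem rect_residue_pole (F h : ℂ → ℂ) (a b c d : ℝ) (hab : a < b) (hcd : c < d)
    (hF : AnalyticOnNhd ℂ F (Set.Icc a b ×ℂ Set.Icc c d)) (hh : Differentiable ℂ h)
    (hbd : ∀ s ∈ Set.Icc a b ×ℂ Set.Icc c d, F s = 0 → s ∈ Set.Ioo a b ×ℂ Set.Ioo c d)
    {p : ℂ} (hp : p ∈ Set.Ioo a b ×ℂ Set.Ioo c d) (hFp : F p ≠ 0) :
    RI a b c d (fun s => deriv F s / F s * (h s * (s - p)⁻¹))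
      = 2 * Real.pi * I *
        (∑ᶠ s ∈ {s | s ∈ Set.Ioo a b ×ℂ Set.Ioo c d ∧ F s = 0}, (mult F s : ℂ) *
          (h s * (s - p)⁻¹) + deriv F p / F p * h p) := by
  have hfin := (rect_residue F h a b c d hab hcd hF hh hbd).1
  set K : Set ℂ := Set.Icc a b ×ℂ Set.Icc c d with hK
  have hKpre : IsPreconnected K := by
    have : Convex ℝ K := by
      have h1 := (convex_Icc a b).linear_preimage Complex.reLm
      have h2 := (convex_Icc c d).linear_preimage Complex.imLm
      exact h1.inter h2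
    exact this.isPreconnected
  have hpK : p ∈ K := ⟨Ioo_subset_Icc_self hp.1, Ioo_subset_Icc_self hp.2⟩
  have hnt0 : ∀ s ∈ K, ¬ (∀ᶠ z in 𝓝 s, F z = 0) := fun s hs h1 =>
    hFp (hF.eqOn_zero_of_preconnected_of_eventuallyEq_zero hKpre hs h1 hpK)
  have key := residue_pole_aux hab hcd hh hp (hfin.toFinset.card) F hfin.toFinset rfl hF
    (by
      intro s hs
      rw [Set.Finite.mem_toFinset]
      exact ⟨fun h => ⟨hbd s hs h, h⟩, fun h => h.2⟩)
    (by
      intro s hs
      rw [Set.Finite.mem_toFinset] at hs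
      refine ⟨hs.1, ?_⟩
      intro h
      exact hnt0 s ⟨Ioo_subset_Icc_self hs.1.1, Ioo_subset_Icc_self hs.1.2⟩
        (analyticOrderAt_eq_top.1 h)) hFp
  rw [finsum_mem_eq_finite_toFinset_sum _ hfin, ← key]

end Pool.Agent.Helper54.Xm
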